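import Mathlib
import Pool.Agent.Work.MP_38bc51_pr.Law
import Pool.Agent.Work.MP_38bc51_pr.AllK.Lower

/-!
# Sign laws

A sign law of range `m` is the law of a stationary sequence of signs (`true` is `+`), invariant
under the global flip, such that coordinates at distance at least `m` are independent.
-/

namespace HC38bc51.HC

open MeasureTheory ProbabilityTheory

/-- `Q` is the law of a stationary flip-invariant sequence of signs (`true = +`) in which
families of coordinates at distance at least `m` are independent. -/
structure SignLaw (m : ℕ) (Q : Measure (ℤ → Bool)) : Prop where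
  prob : IsProbabilityMeasure Q
  shift : Q.map (fun (s : ℤ → Bool) (i : ℤ) => s (i + 1)) = Q
  flip : Q.map (fun (s : ℤ → Bool) (i : ℤ) => !(s i)) = Q
  dep : ∀ S T : Finset ℤ, (∀ a ∈ S, ∀ b ∈ T, (m : ℤ) ≤ |a - b|) →
    Q.real (Cyl (S ∪ T)) = Q.real (Cyl S) * Q.real (Cyl T)

/-- the probability of a sign change -/
noncomputable def chg (Q : Measure (ℤ → Bool)) : ℝ := Q.real {s : ℤ → Bool | s 0 ≠ s 1}

/-- the shift of the marks -/
def sh (i : ℤ) (ω : ℤ → ℝ) : ℤ → ℝ := fun x => ω (x + i)

end HC38bc51.HC
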