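import Mathlib
import Pool.Agent.Work.MP_38bc51_pr.HC.Base

/-!
# Cells from the position of the maximum
-/

namespace HC38bc51.HC

open MeasureTheory ProbabilityTheory

/-! ### The position of the maximum -/

/-- `x` beats `y` -/
def Bt (ω : ℤ → ℝ) (y x : ℤ) : Prop := ω y < ω x ∨ (ω y = ω x ∧ y < x)

theorem Bt.trans {ω : ℤ → ℝ} {x y z : ℤ} (h1 : Bt ω x y) (h2 : Bt ω y z) : Bt ω x z := by
  rcases h1 with h1 | ⟨h1, h1'⟩ <;> rcases h2 with h2 | ⟨h2, h2'⟩
  · exact Or.inl (h1.trans h2)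
  · exact Or.inl (by rw [← h2]; exact h1)
  · exact Or.inl (by rw [h1]; exact h2)
  · exact Or.inr ⟨h1.trans h2, h1'.trans h2'⟩

theorem Bt.asymm {ω : ℤ → ℝ} {x y : ℤ} (h1 : Bt ω x y) (h2 : Bt ω y x) : False := by
  rcases h1 with h1 | ⟨h1, h1'⟩ <;> rcases h2 with h2 | ⟨h2, h2'⟩
  · linarith
  · linarith
  · linarith
  · omega

theorem bt_total (ω : ℤ → ℝ) {x y : ℤ} (h : x ≠ y) : Bt ω x y ∨ Bt ω y x := by
  rcases lt_trichotomy (ω x) (ω y) with h1 | h1 | h1
  · exact Or.inl (Or.inl h1)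
  · rcases lt_or_gt_of_ne h with h2 | h2
    · exact Or.inl (Or.inr ⟨h1, h2⟩)
    · exact Or.inr (Or.inr ⟨h1.symm, h2⟩)
  · exact Or.inr (Or.inl h1)

/-- the maximum over `{a, ..., b}` is at `x` -/
def Top (ω : ℤ → ℝ) (a b x : ℤ) : Prop :=
  a ≤ x ∧ x ≤ b ∧ ∀ y, a ≤ y → y ≤ b → y ≠ x → Bt ω y x

theorem Top.unique {ω : ℤ → ℝ} {a b x y : ℤ} (h1 : Top ω a b x) (h2 : Top ω a b y) : x = y := by
  by_contra h
  exact (h1.2.2 y h2.1 h2.2.1 (Ne.symm h)).asymm (h2.2.2 x h1.1 h1.2.1 h)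

theorem exists_top (ω : ℤ → ℝ) {a b : ℤ} (h : a ≤ b) : ∃ x, Top ω a b x := by
  induction b, h using Int.leInduction with
  | base => exact ⟨a, le_rfl, le_rfl, fun y h1 h2 h3 => absurd (le_antisymm h2 h1) h3⟩
  | succ b hb ih =>
    obtain ⟨x, hx1, hx2, hx3⟩ := ih
    rcases bt_total ω (show x ≠ b + 1 by omega) with h | h
    · refine ⟨b + 1, by omega, le_rfl, fun y h1 h2 h3 => ?_⟩
      by_cases hyx : y = x
      · rw [hyx]; exact h
      · exact (hx3 y h1 (by omega) hyx).trans h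
    · refine ⟨x, hx1, by omega, fun y h1 h2 h3 => ?_⟩
      by_cases hy : y = b + 1
      · rw [hy]; exact h
      · exact hx3 y h1 (by omega) h3

theorem Top.sub {ω : ℤ → ℝ} {a b x a' b' : ℤ} (h : Top ω a b x) (ha : a ≤ a') (hb : b' ≤ b)
    (h1 : a' ≤ x) (h2 : x ≤ b') : Top ω a' b' x :=
  ⟨h1, h2, fun y hy1 hy2 hy3 => h.2.2 y (by omega) (by omega) hy3⟩

theorem top_sh {ω : ℤ → ℝ} {i a b x : ℤ} :
    Top (sh i ω) a b x ↔ Top ω (a + i) (b + i) (x + i) := by
  constructor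
  · rintro ⟨h1, h2, h3⟩
    refine ⟨by omega, by omega, fun y hy1 hy2 hy3 => ?_⟩
    have h4 := h3 (y - i) (by omega) (by omega) (by omega)
    rcases h4 with h4 | ⟨h4, h5⟩
    · left
      simpa [sh] using h4
    · right
      refine ⟨by simpa [sh] using h4, by omega⟩
  · rintro ⟨h1, h2, h3⟩
    refine ⟨by omega, by omega, fun y hy1 hy2 hy3 => ?_⟩
    have h4 := h3 (y + i) (by omega) (by omega) (by omega)
    rcases h4 with h4 | ⟨h4, h5⟩
    · exact Or.inl h4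
    · exact Or.inr ⟨h4, by omega⟩

theorem top_step {ω : ℤ → ℝ} {k j x : ℤ} (hk : 0 ≤ k) (h : Top ω j (j + k) x) (hx : x ≠ j)
    (hn : ¬ Top ω (j + 1) (j + 1 + k) (j + 1 + k)) : Top ω (j + 1) (j + 1 + k) x := by
  obtain ⟨y, hy⟩ := exists_top ω (show j + 1 ≤ j + 1 + k by omega)
  have hy1 : y ≠ j + 1 + k := by
    rintro rfl
    exact hn hy
  have h1 := h.1
  have h2 := h.2.1
  have h3 := hy.1
  have h4 := hy.2.1
  have e : x = y := (h.sub (a' := j + 1) (b' := j + k) (by omega) le_rfl (by omega)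
    (by omega)).unique (hy.sub (by omega) (by omega) (by omega) (by omega))
  rw [e]
  exact hy

theorem top_const {ω : ℤ → ℝ} {k i x : ℤ} (hk : 0 ≤ k) (n : ℕ) (h : Top ω i (i + k) x)
    (h0 : ∀ t : ℕ, t < n → ¬ Top ω (i + t) (i + t + k) (i + t))
    (h1 : ∀ t : ℕ, t < n → ¬ Top ω (i + t) (i + t + k) (i + t + k)) (t : ℕ) (ht : t < n) :
    Top ω (i + t) (i + t + k) x := by
  induction t with
  | zero => simpa using h
  | succ t ih =>
    have h2 := ih (by omega)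
    have h3 := h1 (t + 1) ht
    have e : i + ((t + 1 : ℕ) : ℤ) = i + t + 1 := by push_cast; ring
    rw [e] at h3 ⊢
    refine top_step hk h2 ?_ h3
    intro hx
    rw [hx] at h2
    exact h0 t (by omega) h2

/-! ### Probabilities -/

theorem ae_inj : ∀ᵐ ω ∂AllK.Pr, Function.Injective ω := by
  have h : ∀ y z : ℤ, y ≠ z → ∀ᵐ ω ∂AllK.Pr, ω y ≠ ω z := by
    intro y z hyz
    have hind : IndepFun (fun ω : ℤ → ℝ => ω y) (fun ω : ℤ → ℝ => ω z) AllK.Pr :=
      AllK.coord_iIndep.indepFun hyz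
    have hy : Measurable (fun ω : ℤ → ℝ => ω y) := measurable_pi_apply y
    have hz : Measurable (fun ω : ℤ → ℝ => ω z) := measurable_pi_apply z
    rw [indepFun_iff_map_prod_eq_prod_map_map hy.aemeasurable hz.aemeasurable] at hind
    have h2 : ∀ i : ℤ, AllK.Pr.map (fun ω : ℤ → ℝ => ω i) = AllK.nu :=
      fun i => Measure.infinitePi_map_eval (fun _ : ℤ => AllK.nu) i
    rw [h2, h2] at hind
    have hs : MeasurableSet {p : ℝ × ℝ | p.1 = p.2} :=
      measurableSet_eq_fun measurable_fst measurable_snd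
    rw [ae_iff]
    have h3 : {ω : ℤ → ℝ | ¬ ω y ≠ ω z} = (fun ω : ℤ → ℝ => (ω y, ω z)) ⁻¹'
        {p : ℝ × ℝ | p.1 = p.2} := by
      ext ω
      simp
    rw [h3, ← Measure.map_apply (hy.prodMk hz) hs, hind]
    rw [Measure.measure_prod_null hs]
    have : NullSingletonClass AllK.nu := nullSingletonClass_gaussianReal one_ne_zero
    refine Filter.Eventually.of_forall fun r => ?_
    refine Set.Subsingleton.measure_zero ?_ _
    intro x hx y hy
    simp only [Set.mem_preimage, Set.mem_ofPred_eq] at hx hy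
    rw [← hx, ← hy]
  have h' : ∀ᵐ ω ∂AllK.Pr, ∀ y z : ℤ, y ≠ z → ω y ≠ ω z := by
    rw [ae_all_iff]
    intro y
    rw [ae_all_iff]
    intro z
    by_cases hyz : y = z
    · exact Filter.Eventually.of_forall fun ω h => absurd hyz h
    · filter_upwards [h y z hyz] with ω hω _
      exact hω
  filter_upwards [h'] with ω hω y z hyz
  by_contra hne
  exact hω y z hne hyz

/-- the strict maximum over `J` is at `x` -/
def ST (J : Finset ℤ) (x : ℤ) : Set (ℤ → ℝ) := {ω | ∀ y ∈ J, y ≠ x → ω y < ω x}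

theorem measurableSet_ST (J : Finset ℤ) (x : ℤ) : MeasurableSet (ST J x) := by
  have e : ST J x = ⋂ y ∈ J, {ω : ℤ → ℝ | y ≠ x → ω y < ω x} := by
    ext ω
    simp [ST]
  rw [e]
  refine Finset.measurableSet_biInter _ fun y _ => ?_
  by_cases h : y = x
  · simp [h]
  · simp only [ne_eq, h, not_false_eq_true, forall_const]
    exact measurableSet_lt (measurable_pi_apply y) (measurable_pi_apply x)

theorem ST_disj {J : Finset ℤ} {x y : ℤ} (hx : x ∈ J) (hy : y ∈ J) (h : x ≠ y) :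
    Disjoint (ST J x) (ST J y) := by
  rw [Set.disjoint_left]
  intro ω h1 h2
  have h3 := h1 y hy (Ne.symm h)
  have h4 := h2 x hx h
  linarith

theorem ST_sum {J : Finset ℤ} (hJ : J.Nonempty) {B : Set (ℤ → ℝ)} (hB : MeasurableSet B) :
    ∑ x ∈ J, AllK.Pr.real (B ∩ ST J x) = AllK.Pr.real B := by
  rw [← measureReal_biUnion_finset]
  · refine measureReal_congr ?_
    filter_upwards [ae_inj] with ω hω
    refine propext ⟨fun h => ?_, fun h => ?_⟩
    · obtain ⟨x, hx, h1⟩ := Set.mem_iUnion₂.1 h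
      exact h1.1
    · obtain ⟨x, hx, h1⟩ := J.exists_max_image ω hJ
      refine Set.mem_iUnion₂.2 ⟨x, hx, h, fun y hy hne => ?_⟩
      exact lt_of_le_of_ne (h1 y hy) (fun e => hne (hω e))
  · intro x hx y hy hne
    exact (ST_disj hx hy hne).mono Set.inter_subset_right Set.inter_subset_right
  · exact fun x _ => hB.inter (measurableSet_ST J x)

theorem ST_swap {J : Finset ℤ} {x y : ℤ} (hx : x ∈ J) (hy : y ∈ J) {B : Set (ℤ → ℝ)}
    (hB : MeasurableSet B)
    (hs : ∀ ω : ℤ → ℝ, ω ∈ B → (fun i => ω (Equiv.swap x y i)) ∈ B) :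
    AllK.Pr.real (B ∩ ST J x) = AllK.Pr.real (B ∩ ST J y) := by
  have h1 := AllK.map_perm (Equiv.swap x y)
  have hm : Measurable (fun (ω : ℤ → ℝ) (i : ℤ) => ω (Equiv.swap x y i)) :=
    measurable_pi_iff.2 fun _ => measurable_pi_apply _
  have h2 : B ∩ ST J x = (fun (ω : ℤ → ℝ) (i : ℤ) => ω (Equiv.swap x y i)) ⁻¹' (B ∩ ST J y) := by
    ext ω
    simp only [Set.mem_inter_iff, Set.mem_preimage]
    refine and_congr ⟨hs ω, fun h => ?_⟩ ?_
    · have h3 := hs _ h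
      simpa using h3
    · simp only [ST, Set.mem_ofPred_eq, Equiv.swap_apply_right]
      constructor
      · intro h z hz hzy
        refine h _ ?_ ?_
        · by_cases hzx : z = x
          · rw [hzx, Equiv.swap_apply_left]; exact hy
          · rw [Equiv.swap_apply_of_ne_of_ne hzx hzy]; exact hz
        · intro h4
          apply hzy
          have := congrArg (Equiv.swap x y) h4
          simpa using this
      · intro h z hz hzx
        have := h (Equiv.swap x y z) ?_ ?_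
        · simpa using this
        · by_cases hzy : z = y
          · rw [hzy, Equiv.swap_apply_right]; exact hx
          · rw [Equiv.swap_apply_of_ne_of_ne hzx hzy]; exact hz
        · intro h4
          apply hzx
          have := congrArg (Equiv.swap x y) h4
          simpa using this
  have h3 : AllK.Pr (B ∩ ST J x) = AllK.Pr (B ∩ ST J y) := by
    conv_lhs => rw [h2]
    rw [← Measure.map_apply hm (hB.inter (measurableSet_ST J y)), h1]
  unfold Measure.real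
  rw [h3]

theorem ST_prob {J : Finset ℤ} {x : ℤ} (hx : x ∈ J) {B : Set (ℤ → ℝ)} (hB : MeasurableSet B)
    (hs : ∀ y ∈ J, ∀ z ∈ J, ∀ ω : ℤ → ℝ, ω ∈ B → (fun i => ω (Equiv.swap y z i)) ∈ B) :
    AllK.Pr.real (B ∩ ST J x) = AllK.Pr.real B / J.card := by
  have h1 := ST_sum ⟨x, hx⟩ hB
  have h2 : ∀ y ∈ J, AllK.Pr.real (B ∩ ST J y) = AllK.Pr.real (B ∩ ST J x) :=
    fun y hy => ST_swap hy hx hB (hs y hy x hx)
  rw [Finset.sum_congr rfl h2, Finset.sum_const, nsmul_eq_mul] at h1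
  have h3 : (0 : ℝ) < J.card := by exact_mod_cast Finset.card_pos.2 ⟨x, hx⟩
  rw [← h1]
  field_simp

theorem top_ae {a b x : ℤ} : {ω | Top ω a b x} =ᵐ[AllK.Pr]
    {ω | a ≤ x ∧ x ≤ b ∧ ω ∈ ST (Finset.Icc a b) x} := by
  filter_upwards [ae_inj] with ω hω
  refine propext ⟨?_, ?_⟩
  · rintro ⟨h1, h2, h3⟩
    refine ⟨h1, h2, fun y hy hne => ?_⟩
    rw [Finset.mem_Icc] at hy
    rcases h3 y hy.1 hy.2 hne with h4 | ⟨h4, -⟩
    · exact h4
    · exact absurd (hω h4) hne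
  · rintro ⟨h1, h2, h3⟩
    exact ⟨h1, h2, fun y hy1 hy2 hne => Or.inl (h3 y (Finset.mem_Icc.2 ⟨hy1, hy2⟩) hne)⟩

theorem top_prob {k x : ℤ} (h0 : 0 ≤ x) (h1 : x ≤ k) :
    AllK.Pr.real {ω | Top ω 0 k x} = 1 / (k + 1) := by
  have h2 := ST_prob (J := Finset.Icc 0 k) (x := x) (Finset.mem_Icc.2 ⟨h0, h1⟩)
    (B := Set.univ) MeasurableSet.univ (fun _ _ _ _ _ _ => Set.mem_univ _)
  rw [measureReal_congr top_ae]
  have e : {ω | 0 ≤ x ∧ x ≤ k ∧ ω ∈ ST (Finset.Icc 0 k) x}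
      = Set.univ ∩ ST (Finset.Icc 0 k) x := by
    ext ω
    simp [h0, h1]
  rw [e, h2, probReal_univ, Int.card_Icc]
  congr 1
  have : ((k + 1 - 0).toNat : ℤ) = k + 1 := by omega
  exact_mod_cast this

theorem top2_prob {k x : ℤ} (h0 : 1 ≤ x) (h1 : x ≤ k) :
    AllK.Pr.real {ω | Top ω 0 k 0 ∧ Top ω 1 k x} = 1 / (k * (k + 1)) := by
  have hB : AllK.Pr.real (ST (Finset.Icc 0 k) 0) = 1 / (k + 1) := by
    rw [← top_prob (k := k) (x := 0) le_rfl (by omega), measureReal_congr top_ae]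
    congr 1
    ext ω
    simp only [Set.mem_ofPred_eq, le_refl, true_and]
    constructor
    · exact fun h => ⟨by omega, h⟩
    · exact fun h => h.2
  have h2 := ST_prob (J := Finset.Icc 1 k) (x := x) (Finset.mem_Icc.2 ⟨h0, h1⟩)
    (B := ST (Finset.Icc 0 k) 0) (measurableSet_ST _ _) ?_
  · have e : {ω | Top ω 0 k 0 ∧ Top ω 1 k x} =ᵐ[AllK.Pr]
        (ST (Finset.Icc 0 k) 0 ∩ ST (Finset.Icc 1 k) x : Set (ℤ → ℝ)) := by
      filter_upwards [top_ae (a := 0) (b := k) (x := 0), top_ae (a := 1) (b := k) (x := x)]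
        with ω h3 h4
      have h3' : Top ω 0 k 0 ↔ (0 ≤ (0 : ℤ) ∧ 0 ≤ k ∧ ω ∈ ST (Finset.Icc 0 k) 0) := by
        exact Eq.to_iff h3
      have h4' : Top ω 1 k x ↔ (1 ≤ x ∧ x ≤ k ∧ ω ∈ ST (Finset.Icc 1 k) x) := by
        exact Eq.to_iff h4
      refine propext ⟨fun h => ?_, fun h => ?_⟩
      · exact ⟨(h3'.1 h.1).2.2, (h4'.1 h.2).2.2⟩
      · exact ⟨h3'.2 ⟨le_rfl, by omega, h.1⟩, h4'.2 ⟨h0, h1, h.2⟩⟩
    rw [measureReal_congr e, h2, hB, Int.card_Icc]
    have h5 : ((k + 1 - 1).toNat : ℝ) = k := by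
      have : ((k + 1 - 1).toNat : ℤ) = k := by omega
      exact_mod_cast this
    rw [h5, div_div, mul_comm]
  · intro y hy z hz ω hω u hu hne
    rw [Finset.mem_Icc] at hy hz hu
    have e0 : Equiv.swap y z 0 = 0 := Equiv.swap_apply_of_ne_of_ne (by omega) (by omega)
    simp only [e0]
    refine hω _ ?_ ?_
    · rw [Finset.mem_Icc]
      by_cases h3 : u = y
      · rw [h3, Equiv.swap_apply_left]; omega
      · by_cases h4 : u = z
        · rw [h4, Equiv.swap_apply_right]; omega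
        · rw [Equiv.swap_apply_of_ne_of_ne h3 h4]; omega
    · intro h3
      apply hne
      have := congrArg (Equiv.swap y z) h3
      rw [Equiv.swap_apply_self, e0] at this
      exact this

/-! ### Measurability -/

theorem measurableSet_Top {S : Set ℤ} {a b x : ℤ} (hS : ∀ y, a ≤ y → y ≤ b → y ∈ S) :
    MeasurableSet[AllK.sig S] {ω | Top ω a b x} := by
  by_cases hx : a ≤ x ∧ x ≤ b
  · have e : {ω | Top ω a b x} = ⋂ y ∈ Finset.Icc a b, {ω : ℤ → ℝ | y ≠ x → Bt ω y x} := by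
      ext ω
      simp [Top, hx.1, hx.2]
    rw [e]
    refine @Finset.measurableSet_biInter _ _ (AllK.sig S) _ _ fun y hy => ?_
    rw [Finset.mem_Icc] at hy
    by_cases h : y = x
    · simp [h]
    · simp only [ne_eq, h, not_false_eq_true, forall_const]
      have h1 : Measurable[AllK.sig S] (fun ω : ℤ → ℝ => ω y) :=
        AllK.meas_coord (hS y hy.1 hy.2)
      have h2 : Measurable[AllK.sig S] (fun ω : ℤ → ℝ => ω x) :=
        AllK.meas_coord (hS x hx.1 hx.2)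
      have e2 : {ω : ℤ → ℝ | Bt ω y x} = {ω : ℤ → ℝ | ω y < ω x} ∪
          ({ω : ℤ → ℝ | ω y = ω x} ∩ {_ω : ℤ → ℝ | y < x}) := by
        ext ω
        simp [Bt]
      rw [e2]
      have h3 : MeasurableSet[AllK.sig S] {ω : ℤ → ℝ | ω y < ω x} := measurableSet_lt h1 h2
      have h4 : MeasurableSet[AllK.sig S] {ω : ℤ → ℝ | ω y = ω x} := measurableSet_eq_fun h1 h2
      have h5 : MeasurableSet[AllK.sig S] {_ω : ℤ → ℝ | y < x} :=
        @MeasurableSet.const _ (AllK.sig S) _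
      exact @MeasurableSet.union _ (AllK.sig S) _ _ h3 (@MeasurableSet.inter _ (AllK.sig S) _ _ h4 h5)
  · have e : {ω | Top ω a b x} = ∅ := by
      ext ω
      simp only [Set.mem_ofPred_eq, Set.mem_empty_iff_false, iff_false]
      intro h
      exact hx ⟨h.1, h.2.1⟩
    rw [e]
    exact @MeasurableSet.empty _ (AllK.sig S)

/-! ### Cells for `k = m * h` -/

open Classical in
/-- the increment -/
noncomputable def dA (m h : ℕ) (ω : ℤ → ℝ) : ℕ :=
  if ∃ r : ℕ, r ≤ m ∧ Top ω 0 ((m * h : ℕ) : ℤ) ((r * h : ℕ) : ℤ) then 1 else 0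

theorem dA_sh {m h : ℕ} {ω : ℤ → ℝ} {j : ℤ} {r : ℕ} (hr : r ≤ m)
    (ht : Top ω j (j + (m * h : ℕ)) (j + (r * h : ℕ))) : dA m h (sh j ω) = 1 := by
  unfold dA
  rw [if_pos]
  refine ⟨r, hr, top_sh.2 ?_⟩
  rw [zero_add, add_comm _ j, add_comm _ j]
  exact ht

theorem block_A {m h : ℕ} (hm : 1 ≤ m) (hh : 1 ≤ h) (ω : ℤ → ℝ) (i : ℤ) :
    ∃ t : ℕ, t < h ∧ dA m h (sh (i + t) ω) = 1 := by
  by_contra hcon
  push Not at hcon
  obtain ⟨x, hx⟩ := exists_top ω (show i ≤ i + ((m * h : ℕ) : ℤ) by omega)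
  have h1 := top_const (k := ((m * h : ℕ) : ℤ)) (by omega) h hx
    (fun t ht hT => hcon t ht (dA_sh (r := 0) (by omega) (by simpa using hT)))
    (fun t ht hT => hcon t ht (dA_sh (r := m) le_rfl hT))
  obtain ⟨y, hy⟩ : ∃ y : ℕ, x = i + y := ⟨(x - i).toNat, by have := hx.1; omega⟩
  subst hy
  have h2 : y ≤ m * h := by have := hx.2.1; omega
  have h3 : y / h * h + y % h = y := Nat.div_add_mod' y h
  have h4 : y % h < h := Nat.mod_lt _ (by omega)
  have h5 : y / h ≤ m := Nat.div_le_of_le_mul (by rw [mul_comm]; exact h2)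
  refine hcon (y % h) h4 (dA_sh (r := y / h) h5 ?_)
  have h6 := h1 (y % h) h4
  have e : i + ((y % h : ℕ) : ℤ) + ((y / h * h : ℕ) : ℤ) = i + y := by
    rw [add_assoc, ← Nat.cast_add, add_comm (y % h), h3]
  rw [e]
  exact h6

theorem sum_blocks (f : ℕ → ℕ) (h : ℕ) (hf : ∀ i, ∃ t, t < h ∧ 1 ≤ f (i + t)) (m : ℕ) :
    m ≤ ∑ j ∈ Finset.range (m * h), f j := by
  induction m with
  | zero => simp
  | succ m ih =>
    rw [add_mul, one_mul, Finset.sum_range_add]
    obtain ⟨t, ht, h1⟩ := hf (m * h)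
    have h2 : f (m * h + t) ≤ ∑ x ∈ Finset.range h, f (m * h + x) :=
      Finset.single_le_sum (f := fun x => f (m * h + x)) (fun _ _ => Nat.zero_le _)
        (Finset.mem_range.2 ht)
    omega

theorem measurable_dA (m h : ℕ) : Measurable[AllK.sig (Set.Icc 0 ((m * h : ℕ) : ℤ))] (dA m h) := by
  classical
  have e : dA m h = fun ω => if ω ∈ {ω | ∃ r : ℕ, r ≤ m ∧
      Top ω 0 ((m * h : ℕ) : ℤ) ((r * h : ℕ) : ℤ)} then 1 else 0 := by
    funext ω
    rfl
  rw [e]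
  refine @Measurable.ite _ _ _ _ (AllK.sig (Set.Icc 0 ((m * h : ℕ) : ℤ))) _ _ _ ?_
    (@measurable_const _ _ _ (AllK.sig (Set.Icc 0 ((m * h : ℕ) : ℤ))) _)
    (@measurable_const _ _ _ (AllK.sig (Set.Icc 0 ((m * h : ℕ) : ℤ))) _)
  have e2 : {ω : ℤ → ℝ | ω ∈ {ω | ∃ r : ℕ, r ≤ m ∧
      Top ω 0 ((m * h : ℕ) : ℤ) ((r * h : ℕ) : ℤ)}} = ⋃ r ∈ Finset.range (m + 1),
      {ω | Top ω 0 ((m * h : ℕ) : ℤ) ((r * h : ℕ) : ℤ)} := by
    ext ω
    simp only [Set.mem_ofPred_eq, Set.mem_iUnion, Finset.mem_range, exists_prop]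
    constructor
    · rintro ⟨r, h1, h2⟩
      exact ⟨r, by omega, h2⟩
    · rintro ⟨r, h1, h2⟩
      exact ⟨r, by omega, h2⟩
  rw [e2]
  refine @Finset.measurableSet_biUnion _ _ (AllK.sig (Set.Icc 0 ((m * h : ℕ) : ℤ))) _ _
    fun r _ => ?_
  exact measurableSet_Top fun y h1 h2 => ⟨h1, h2⟩

/-- cells for `m ∣ k`, `k = m * h`: the index increases by one iff the maximum over `{0, ..., k}` is
at a multiple of `h` -/
theorem cellsA (m h : ℕ) (hm : 1 ≤ m) (hh : 1 ≤ h) : ∃ d : (ℤ → ℝ) → ℕ,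
    Measurable[AllK.sig (Set.Icc 0 ((m * h : ℕ) : ℤ))] d ∧ (∀ ω, d ω ≤ 1) ∧
    (∀ (ω : ℤ → ℝ) (i : ℤ), m ≤ ∑ j ∈ Finset.range (m * h), d (sh (i + j) ω)) ∧
    AllK.Pr.real {ω | d ω = 1} = ((m : ℝ) + 1) / (m * h + 1) := by
  refine ⟨dA m h, measurable_dA m h, ?_, ?_, ?_⟩
  · intro ω
    unfold dA
    split_ifs <;> omega
  · intro ω i
    refine sum_blocks (fun j => dA m h (sh (i + j) ω)) h (fun n => ?_) m
    obtain ⟨t, ht, h1⟩ := block_A hm hh ω (i + n)
    refine ⟨t, ht, ?_⟩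
    have e : i + ((n + t : ℕ) : ℤ) = i + n + t := by push_cast; ring
    simp only [e, h1, le_refl]
  · have e : {ω | dA m h ω = 1} = ⋃ r ∈ Finset.range (m + 1),
        {ω | Top ω 0 ((m * h : ℕ) : ℤ) ((r * h : ℕ) : ℤ)} := by
      ext ω
      simp only [Set.mem_ofPred_eq, Set.mem_iUnion, Finset.mem_range, exists_prop, dA]
      constructor
      · intro h1
        split_ifs at h1 with h2
        · obtain ⟨r, h3, h4⟩ := h2
          exact ⟨r, by omega, h4⟩
      · rintro ⟨r, h1, h2⟩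
        rw [if_pos ⟨r, by omega, h2⟩]
    rw [e, measureReal_biUnion_finset]
    · have h1 : ∀ r ∈ Finset.range (m + 1),
          AllK.Pr.real {ω | Top ω 0 ((m * h : ℕ) : ℤ) ((r * h : ℕ) : ℤ)} = 1 / (m * h + 1) := by
        intro r hr
        rw [Finset.mem_range] at hr
        rw [top_prob (by omega)]
        · push_cast
          rfl
        · exact_mod_cast Nat.mul_le_mul_right h (by omega : r ≤ m)
      rw [Finset.sum_congr rfl h1, Finset.sum_const, Finset.card_range, nsmul_eq_mul]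
      push_cast
      ring
    · intro r hr r' hr' hne
      rw [Function.onFun, Set.disjoint_left]
      intro ω h1 h2
      have h3 := Top.unique h1 h2
      apply hne
      have h4 : r * h = r' * h := by exact_mod_cast h3
      exact Nat.eq_of_mul_eq_mul_right (by omega) h4
    · intro r _
      exact AllK.sig_le Set.univ _ (measurableSet_Top fun y _ _ => Set.mem_univ y)

/-! ### Cells for `k = 2 h + 1` -/

open Classical in
/-- the increment -/
noncomputable def dB (h : ℕ) (ω : ℤ → ℝ) : ℕ :=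
  (if Top ω 0 (2 * h + 1) 0 ∨ Top ω 0 (2 * h + 1) (h + 1) ∨ Top ω 0 (2 * h + 1) (2 * h + 1)
    then 1 else 0) +
  (if Top ω 0 (2 * h + 1) 0 ∧ Top ω 1 (2 * h + 1) (h + 1) then 1 else 0)

theorem dB_sh {h : ℕ} {ω : ℤ → ℝ} {j x : ℤ} (ht : Top ω j (j + (2 * h + 1)) x)
    (hx : x = j ∨ x = j + (h + 1) ∨ x = j + (2 * h + 1)) : 1 ≤ dB h (sh j ω) := by
  unfold dB
  rw [if_pos]
  · omega
  · rcases hx with hx | hx | hx
    · left
      rw [top_sh, zero_add, add_comm _ j, ← hx]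
      exact hx ▸ ht
    · right; left
      rw [top_sh, zero_add, add_comm _ j, add_comm _ j, ← hx]
      exact ht
    · right; right
      rw [top_sh, zero_add, add_comm _ j, ← hx]
      exact hx ▸ ht

theorem dB_two {h : ℕ} {ω : ℤ → ℝ} {j : ℤ} (ht : Top ω j (j + (2 * h + 1)) j)
    (hx : Top ω (j + 1) (j + (2 * h + 1)) (j + (h + 1))) : dB h (sh j ω) = 2 := by
  have h1 : Top (sh j ω) 0 (2 * h + 1) 0 := by
    rw [top_sh, zero_add, add_comm _ j]
    exact ht
  have h2 : Top (sh j ω) 1 (2 * h + 1) (h + 1) := by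
    rw [top_sh, add_comm _ j, add_comm _ j, add_comm _ j]
    exact hx
  unfold dB
  rw [if_pos (Or.inl h1), if_pos ⟨h1, h2⟩]

theorem block_B (h : ℕ) (ω : ℤ → ℝ) (i : ℤ) : ∃ t : ℕ, t < h + 1 ∧ 1 ≤ dB h (sh (i + t) ω) := by
  by_contra hcon
  push Not at hcon
  obtain ⟨x, hx⟩ := exists_top ω (show i ≤ i + (2 * h + 1 : ℤ) by omega)
  have h1 := top_const (k := (2 * h + 1 : ℤ)) (by omega) (h + 1) hx
    (fun t ht hT => absurd (dB_sh hT (Or.inl rfl)) (by have := hcon t ht; omega))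
    (fun t ht hT => absurd (dB_sh hT (Or.inr (Or.inr rfl))) (by have := hcon t ht; omega))
  obtain ⟨y, hy⟩ : ∃ y : ℕ, x = i + y := ⟨(x - i).toNat, by have := hx.1; omega⟩
  have h2 : y ≤ 2 * h + 1 := by have := hx.2.1; omega
  by_cases hy1 : y < h + 1
  · have h3 := dB_sh (h1 y hy1) (Or.inl hy)
    have h4 := hcon y hy1
    omega
  · have h3 := dB_sh (h1 (y - (h + 1)) (by omega)) (Or.inr (Or.inl (by omega)))
    have h4 := hcon (y - (h + 1)) (by omega)
    omega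

theorem half_B {h : ℕ} (hh : 1 ≤ h) (ω : ℤ → ℝ) (i : ℤ)
    (h0 : ∀ t : ℕ, t < h → dB h (sh (i + t) ω) = 0) : Top ω i (i + (2 * h + 1)) (i + h) := by
  obtain ⟨x, hx⟩ := exists_top ω (show i ≤ i + (2 * h + 1 : ℤ) by omega)
  have h1 := top_const (k := (2 * h + 1 : ℤ)) (by omega) h hx
    (fun t ht hT => absurd (dB_sh hT (Or.inl rfl)) (by have := h0 t ht; omega))
    (fun t ht hT => absurd (dB_sh hT (Or.inr (Or.inr rfl))) (by have := h0 t ht; omega))
  obtain ⟨y, hy⟩ : ∃ y : ℕ, x = i + y := ⟨(x - i).toNat, by have := hx.1; omega⟩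
  have h2 : y ≤ 2 * h + 1 := by have := hx.2.1; omega
  have h3 : y = h := by
    by_contra hne
    rcases lt_or_gt_of_ne hne with h3 | h3
    · have h4 := dB_sh (h1 y h3) (Or.inl hy)
      have h5 := h0 y h3
      omega
    · by_cases h6 : y = 2 * h + 1
      · have h4 := dB_sh (h1 0 (by omega)) (Or.inr (Or.inr (by omega)))
        have h5 := h0 0 (by omega)
        omega
      · have h4 := dB_sh (h1 (y - (h + 1)) (by omega)) (Or.inr (Or.inl (by omega)))
        have h5 := h0 (y - (h + 1)) (by omega)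
        omega
  rw [h3] at hy
  rw [← hy]
  exact hx

theorem sum_B {h : ℕ} (hh : 1 ≤ h) (ω : ℤ → ℝ) (i : ℤ) :
    2 ≤ ∑ j ∈ Finset.range (2 * h + 1), dB h (sh (i + j) ω) := by
  by_contra hcon
  push Not at hcon
  have htwo : ∀ a b : ℕ, a < 2 * h + 1 → b < 2 * h + 1 → a ≠ b →
      dB h (sh (i + a) ω) + dB h (sh (i + b) ω) ≤ 1 := by
    intro a b ha hb hab
    have h1 : ∑ j ∈ ({a, b} : Finset ℕ), dB h (sh (i + j) ω)
        ≤ ∑ j ∈ Finset.range (2 * h + 1), dB h (sh (i + j) ω) := by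
      refine Finset.sum_le_sum_of_subset fun x hx => ?_
      rw [Finset.mem_insert, Finset.mem_singleton] at hx
      rw [Finset.mem_range]
      rcases hx with rfl | rfl <;> assumption
    rw [Finset.sum_pair hab] at h1
    omega
  obtain ⟨t1, ht1, h1⟩ := block_B h ω i
  obtain ⟨t2, ht2, h2⟩ := block_B h ω (i + h)
  have e2 : i + (h : ℤ) + (t2 : ℤ) = i + ((h + t2 : ℕ) : ℤ) := by push_cast; ring
  rw [e2] at h2
  have h3 : t1 = h + t2 := by
    by_contra hne
    have := htwo t1 (h + t2) (by omega) (by omega) hne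
    omega
  have h4 : t1 = h := by omega
  rw [h4] at h1
  have hz : ∀ t : ℕ, t < 2 * h + 1 → t ≠ h → dB h (sh (i + t) ω) = 0 := by
    intro t ht hne
    have := htwo t h ht (by omega) hne
    omega
  have hL := half_B hh ω i (fun t ht => hz t (by omega) (by omega))
  have hR := half_B hh ω (i + h + 1) (fun t ht => by
    have := hz (h + 1 + t) (by omega) (by omega)
    have e : i + (h : ℤ) + 1 + (t : ℤ) = i + ((h + 1 + t : ℕ) : ℤ) := by push_cast; ring
    rw [e]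
    exact this)
  have h5 : dB h (sh (i + h) ω) = 2 := by
    refine dB_two ⟨le_rfl, by omega, fun y hy1 hy2 hne => ?_⟩ ?_
    · have h6 : Bt ω (i + h + 1 + h) (i + h) := hL.2.2 _ (by omega) (by omega) (by omega)
      by_cases hy : y = i + h + 1 + h
      · rw [hy]; exact h6
      · exact (hR.2.2 y (by omega) (by omega) hy).trans h6
    · have e : i + (h : ℤ) + ((h : ℤ) + 1) = i + h + 1 + h := by ring
      rw [e]
      exact hR.sub le_rfl (by omega) (by omega) (by omega)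
  obtain ⟨b, hb1, hb2⟩ : ∃ b : ℕ, b < 2 * h + 1 ∧ b ≠ h := ⟨0, by omega, by omega⟩
  have := htwo b h hb1 (by omega) hb2
  omega

theorem measurable_dB (h : ℕ) : Measurable[AllK.sig (Set.Icc 0 ((2 * h + 1 : ℕ) : ℤ))] (dB h) := by
  classical
  have hc : ∀ n : ℕ, Measurable[AllK.sig (Set.Icc 0 ((2 * h + 1 : ℕ) : ℤ))]
      (fun _ : ℤ → ℝ => n) := fun n =>
    @measurable_const _ _ _ (AllK.sig (Set.Icc 0 ((2 * h + 1 : ℕ) : ℤ))) _
  have hT : ∀ a x : ℤ, 0 ≤ a → MeasurableSet[AllK.sig (Set.Icc 0 ((2 * h + 1 : ℕ) : ℤ))]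
      {ω : ℤ → ℝ | Top ω a (2 * h + 1) x} := fun a x ha =>
    measurableSet_Top fun y h1 h2 => ⟨by omega, by push_cast; omega⟩
  have h1 : MeasurableSet[AllK.sig (Set.Icc 0 ((2 * h + 1 : ℕ) : ℤ))]
      {ω : ℤ → ℝ | Top ω 0 (2 * h + 1) 0 ∨ Top ω 0 (2 * h + 1) (h + 1) ∨
        Top ω 0 (2 * h + 1) (2 * h + 1)} :=
    @MeasurableSet.union _ (AllK.sig _) _ _ (hT 0 0 le_rfl)
      (@MeasurableSet.union _ (AllK.sig _) _ _ (hT 0 _ le_rfl) (hT 0 _ le_rfl))
  have h2 : MeasurableSet[AllK.sig (Set.Icc 0 ((2 * h + 1 : ℕ) : ℤ))]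
      {ω : ℤ → ℝ | Top ω 0 (2 * h + 1) 0 ∧ Top ω 1 (2 * h + 1) (h + 1)} :=
    @MeasurableSet.inter _ (AllK.sig _) _ _ (hT 0 0 le_rfl) (hT 1 _ zero_le_one)
  unfold dB
  refine @Measurable.add _ _ _ _ (AllK.sig (Set.Icc 0 ((2 * h + 1 : ℕ) : ℤ))) _ _ _ ?_ ?_
  · exact @Measurable.ite _ _ _ _ (AllK.sig (Set.Icc 0 ((2 * h + 1 : ℕ) : ℤ))) _ _ _ h1
      (hc 1) (hc 0)
  · exact @Measurable.ite _ _ _ _ (AllK.sig (Set.Icc 0 ((2 * h + 1 : ℕ) : ℤ))) _ _ _ h2
      (hc 1) (hc 0)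

theorem dB_eq_two (h : ℕ) : {ω | dB h ω = 2}
    = {ω | Top ω 0 (2 * h + 1) 0 ∧ Top ω 1 (2 * h + 1) (h + 1)} := by
  ext ω
  simp only [Set.mem_ofPred_eq, dB]
  constructor
  · intro h1
    split_ifs at h1 with h2 h3 h3
    · exact h3
    · omega
    · omega
    · omega
  · intro h1
    rw [if_pos (Or.inl h1.1), if_pos h1]

theorem dB_eq_one (h : ℕ) : {ω | dB h ω = 1} ∪ {ω | dB h ω = 2}
    = ({ω | Top ω 0 (2 * h + 1) 0} ∪ {ω | Top ω 0 (2 * h + 1) (h + 1)}) ∪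
      {ω | Top ω 0 (2 * h + 1) (2 * h + 1)} := by
  ext ω
  simp only [Set.mem_ofPred_eq, dB, Set.mem_union]
  constructor
  · intro h1
    split_ifs at h1 with h2 h3 h3
    · rcases h2 with h2 | h2 | h2
      · exact Or.inl (Or.inl h2)
      · exact Or.inl (Or.inr h2)
      · exact Or.inr h2
    · rcases h2 with h2 | h2 | h2
      · exact Or.inl (Or.inl h2)
      · exact Or.inl (Or.inr h2)
      · exact Or.inr h2
    · exact Or.inl (Or.inl h3.1)
    · omega
  · intro h1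
    rw [if_pos]
    · split_ifs
      · exact Or.inr rfl
      · exact Or.inl rfl
    · rcases h1 with (h1 | h1) | h1
      · exact Or.inl h1
      · exact Or.inr (Or.inl h1)
      · exact Or.inr (Or.inr h1)

/-- cells for `k = 2 h + 1` and `m = 2` -/
theorem cellsB (h : ℕ) (hh : 1 ≤ h) : ∃ d : (ℤ → ℝ) → ℕ,
    Measurable[AllK.sig (Set.Icc 0 ((2 * h + 1 : ℕ) : ℤ))] d ∧ (∀ ω, d ω ≤ 2) ∧
    (∀ (ω : ℤ → ℝ) (i : ℤ), 2 ≤ ∑ j ∈ Finset.range (2 * h + 1), d (sh (i + j) ω)) ∧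
    AllK.Pr.real {ω | d ω = 2} = 1 / ((2 * h + 1) * (2 * h + 2)) ∧
    AllK.Pr.real {ω | d ω = 1} = 3 / (2 * h + 2) - 1 / ((2 * h + 1) * (2 * h + 2)) := by
  have hm : Measurable (dB h) := (measurable_dB h).mono (AllK.sig_le _) le_rfl
  have hT : ∀ x : ℤ, MeasurableSet {ω : ℤ → ℝ | Top ω 0 (2 * h + 1) x} := fun x =>
    AllK.sig_le Set.univ _ (measurableSet_Top fun y _ _ => Set.mem_univ y)
  have h2 : AllK.Pr.real {ω | dB h ω = 2} = 1 / ((2 * h + 1) * (2 * h + 2)) := by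
    rw [dB_eq_two, top2_prob (by omega) (by omega)]
    push_cast
    ring_nf
  refine ⟨dB h, measurable_dB h, ?_, fun ω i => sum_B hh ω i, h2, ?_⟩
  · intro ω
    unfold dB
    split_ifs <;> omega
  · have hd : ∀ x y : ℤ, x ≠ y → Disjoint {ω : ℤ → ℝ | Top ω 0 (2 * h + 1) x}
        {ω : ℤ → ℝ | Top ω 0 (2 * h + 1) y} := by
      intro x y hne
      rw [Set.disjoint_left]
      intro ω h1 h2
      exact hne (Top.unique h1 h2)
    have h3 : AllK.Pr.real ({ω | dB h ω = 1} ∪ {ω | dB h ω = 2})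
        = AllK.Pr.real {ω | dB h ω = 1} + AllK.Pr.real {ω | dB h ω = 2} := by
      refine measureReal_union ?_ (hm (measurableSet_singleton 2))
      rw [Set.disjoint_left]
      intro ω h1 h2
      simp only [Set.mem_ofPred_eq] at h1 h2
      omega
    have h4 : AllK.Pr.real ({ω | dB h ω = 1} ∪ {ω | dB h ω = 2}) = 3 / (2 * h + 2) := by
      rw [dB_eq_one, measureReal_union _ (hT _), measureReal_union (hd _ _ (by omega)) (hT _),
        top_prob (by omega) (by omega), top_prob (by omega) (by omega),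
        top_prob (by omega) (by omega)]
      · push_cast
        ring
      · rw [Set.disjoint_union_left]
        exact ⟨hd _ _ (by omega), hd _ _ (by omega)⟩
    rw [h2, h4] at h3
    linarith

end HC38bc51.HC
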