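import Mathlib
import Pool.Agent.Work.MP_38bc51_pr.HC.Base

/-!
# From sign laws to hard-core processes
-/

namespace HC38bc51.HC

open MeasureTheory ProbabilityTheory

variable {k : ℕ} {Q : Measure (ℤ → Bool)}

/-- coordinates at distance at least `k` are independent -/
theorem SignLaw.indep (hQ : SignLaw k Q) (A B : Set ℤ) (hAB : ∀ a ∈ A, ∀ b ∈ B, (k : ℤ) ≤ |a - b|) :
    IndepFun (fun (s : ℤ → Bool) (a : A) => s a) (fun (s : ℤ → Bool) (b : B) => s b) Q := by
  have := hQ.prob
  rw [IndepFun_iff_Indep, comap_eq, comap_eq]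
  refine IndepSets.indep' ?_ ?_ (isPiSystem_cylSys A) (isPiSystem_cylSys B) ?_
  · rintro s ⟨S, -, rfl⟩; exact measurableSet_Cyl S
  · rintro s ⟨S, -, rfl⟩; exact measurableSet_Cyl S
  · rw [IndepSets_iff]
    rintro s t ⟨S, hS, rfl⟩ ⟨T, hT, rfl⟩
    rw [Cyl_inter]
    have h := hQ.dep S T fun a ha b hb => hAB a (hS ha) b (hT hb)
    unfold Measure.real at h
    rw [← ENNReal.toReal_mul] at h
    exact (ENNReal.toReal_eq_toReal_iff' (measure_ne_top _ _)
      (ENNReal.mul_ne_top (measure_ne_top _ _) (measure_ne_top _ _))).1 h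

/-- alternating signs -/
def alt (i : ℤ) (s : ℤ → Bool) : Bool := if Even i then s i else !(s i)

/-- the hard-core sequence -/
def HX (i : ℤ) (s : ℤ → Bool) : Bool := alt i s && !(alt (i + 1) s)

/-- shift and flip -/
def fs (s : ℤ → Bool) : ℤ → Bool := fun i => !(s (i + 1))

theorem alt_fs (i : ℤ) (s : ℤ → Bool) : alt i (fs s) = alt (i + 1) s := by
  unfold alt fs
  by_cases h : Even i
  · have h' : ¬ Even (i + 1) := by
      rw [Int.even_add_one]; exact not_not.2 h
    rw [if_pos h, if_neg h']
  · have h' : Even (i + 1) := by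
      rw [Int.even_add_one]; exact h
    rw [if_neg h, if_pos h', Bool.not_not]

theorem measurable_not' : Measurable (fun b : Bool => !b) := measurable_of_countable _

theorem measurable_flip : Measurable (fun (s : ℤ → Bool) (i : ℤ) => !(s i)) :=
  measurable_pi_iff.2 fun i => measurable_not'.comp (measurable_pi_apply i)

theorem measurable_alt (i : ℤ) : Measurable (alt i) := by
  unfold alt
  by_cases h : Even i
  · simp only [if_pos h]
    exact measurable_pi_apply i
  · simp only [if_neg h]
    exact measurable_not'.comp (measurable_pi_apply i)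

theorem measurable_fs : Measurable fs :=
  measurable_pi_iff.2 fun i => measurable_not'.comp (measurable_pi_apply (i + 1))

theorem SignLaw.map_fs (hQ : SignLaw k Q) : Q.map fs = Q := by
  have h1 : fs = (fun (s : ℤ → Bool) (i : ℤ) => !(s i)) ∘ (fun (s : ℤ → Bool) (i : ℤ) => s (i + 1)) := by
    funext s i; rfl
  rw [h1, ← Measure.map_map, hQ.shift, hQ.flip]
  · exact measurable_pi_iff.2 fun i => measurable_not'.comp (measurable_pi_apply i)
  · exact measurable_pi_iff.2 fun i => measurable_pi_apply (i + 1)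

theorem measurable_HX (i : ℤ) : Measurable (HX i) := by
  unfold HX
  exact (measurable_of_countable (fun p : Bool × Bool => p.1 && !p.2)).comp
    ((measurable_alt i).prodMk (measurable_alt (i + 1)))

theorem hardcore (hQ : SignLaw k Q) : IsHardCore k Q HX := by
  refine ⟨hQ.prob, measurable_HX, Filter.Eventually.of_forall fun s => ?_, ?_, ?_⟩
  · rintro ⟨i, h1, h2⟩
    unfold HX at h1 h2
    rw [Bool.and_eq_true] at h1 h2
    rw [h2.1] at h1
    simp at h1
  · have h1 : (fun (s : ℤ → Bool) (i : ℤ) => HX (i + 1) s)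
        = (fun (s : ℤ → Bool) (i : ℤ) => HX i s) ∘ fs := by
      funext s i
      simp only [Function.comp_apply, HX, alt_fs]
    rw [h1, ← Measure.map_map (measurable_pi_iff.2 measurable_HX) measurable_fs, hQ.map_fs]
  · intro A B hAB
    let A' : Set ℤ := {x | x ∈ A ∨ x - 1 ∈ A}
    let B' : Set ℤ := {x | x ∈ B ∨ x - 1 ∈ B}
    have h1 := hQ.indep A' B' (by
      rintro a ha b hb
      rcases ha with ha | ha <;> rcases hb with hb | hb <;>
      · have := hAB _ ha _ hb
        rw [le_abs]
        rw [lt_abs] at this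
        omega)
    have key : ∀ (C : Set ℤ), ∃ F : ({x | x ∈ C ∨ x - 1 ∈ C} → Bool) → (C → Bool), Measurable F ∧
        (fun (s : ℤ → Bool) (a : C) => HX a s) = F ∘ (fun (s : ℤ → Bool)
          (a : ({x | x ∈ C ∨ x - 1 ∈ C} : Set ℤ)) => s a) := by
      intro C
      refine ⟨fun y a => (if Even (a : ℤ) then y ⟨a, Or.inl a.2⟩ else !(y ⟨a, Or.inl a.2⟩)) &&
        !(if Even ((a : ℤ) + 1) then y ⟨a + 1, Or.inr (by simp)⟩
          else !(y ⟨a + 1, Or.inr (by simp)⟩)), ?_, ?_⟩
      · refine measurable_pi_iff.2 fun a => ?_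
        have m1 : ∀ (x : ({x | x ∈ C ∨ x - 1 ∈ C} : Set ℤ)) (n : ℤ),
            Measurable (fun y : (({x | x ∈ C ∨ x - 1 ∈ C} : Set ℤ) → Bool) =>
              if Even n then y x else !(y x)) := by
          intro x n
          by_cases h : Even n
          · simp only [if_pos h]
            exact measurable_pi_apply x
          · simp only [if_neg h]
            exact measurable_not'.comp (measurable_pi_apply x)
        exact (measurable_of_countable (fun p : Bool × Bool => p.1 && !p.2)).comp
          ((m1 _ _).prodMk (m1 _ _))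
      · funext s a
        rfl
    obtain ⟨FA, hFA, eA⟩ := key A
    obtain ⟨FB, hFB, eB⟩ := key B
    have h2 := h1.comp hFA hFB
    have eA' : (fun (s : ℤ → Bool) (a : A) => HX a s) = FA ∘ (fun (s : ℤ → Bool) (a : A') => s a) := eA
    have eB' : (fun (s : ℤ → Bool) (a : B) => HX a s) = FB ∘ (fun (s : ℤ → Bool) (a : B') => s a) := eB
    rw [eA', eB']
    exact h2

theorem HX_prob (hQ : SignLaw k Q) : Q.real {s | HX 0 s = true} = 1 / 2 - chg Q / 2 := by
  have := hQ.prob
  have e1 : {s : ℤ → Bool | HX 0 s = true} = {s | s 0 = true ∧ s 1 = true} := by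
    ext s
    simp only [HX, alt, Set.mem_ofPred_eq]
    simp
  have m0 : Measurable (fun s : ℤ → Bool => (s 0, s 1)) :=
    (measurable_pi_apply 0).prodMk (measurable_pi_apply 1)
  have hm : ∀ A : Set (Bool × Bool), MeasurableSet {s : ℤ → Bool | (s 0, s 1) ∈ A} := fun A =>
    m0 (Set.toFinite A).measurableSet
  have hm11 : MeasurableSet {s : ℤ → Bool | s 0 = true ∧ s 1 = true} := by
    have := hm {(true, true)}
    simpa using this
  have hm00 : MeasurableSet {s : ℤ → Bool | s 0 = false ∧ s 1 = false} := by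
    have := hm {(false, false)}
    simpa using this
  have hne : MeasurableSet {s : ℤ → Bool | s 0 ≠ s 1} := by
    have := hm {p | p.1 ≠ p.2}
    simpa using this
  have e2 : Q.real {s : ℤ → Bool | s 0 = false ∧ s 1 = false}
      = Q.real {s : ℤ → Bool | s 0 = true ∧ s 1 = true} := by
    unfold Measure.real
    conv_rhs => rw [← hQ.flip]
    rw [Measure.map_apply measurable_flip hm11]
    congr 2
    ext s
    simp
  have e3 : Q.real {s : ℤ → Bool | s 0 ≠ s 1}ᶜ = 1 - chg Q := by
    rw [probReal_compl_eq_one_sub hne]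
    rfl
  have e4 : {s : ℤ → Bool | s 0 ≠ s 1}ᶜ
      = {s | s 0 = true ∧ s 1 = true} ∪ {s | s 0 = false ∧ s 1 = false} := by
    ext s
    simp only [Set.mem_compl_iff, Set.mem_ofPred_eq, Set.mem_union]
    cases s 0 <;> cases s 1 <;> simp
  rw [e4, measureReal_union _ hm00, e2] at e3
  · rw [e1]; linarith
  · rw [Set.disjoint_left]
    rintro s ⟨h1, -⟩ ⟨h2, -⟩
    rw [h1] at h2
    exact Bool.noConfusion h2

theorem hard (hQ : SignLaw k Q) : 1 / 2 - chg Q / 2 ≤ pcrit k := by
  refine le_csSup ⟨1, ?_⟩ ⟨ℤ → Bool, inferInstance, Q, HX, hardcore hQ, (HX_prob hQ).symm⟩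
  rintro p ⟨Ω, i, P', X, h', rfl⟩
  have := h'.prob
  exact measureReal_le_one

end HC38bc51.HC
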