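import Mathlib

/-!
# Functions of finite sets of integers
-/

namespace HC38bc51.HC

/-- a function `φ` of finite sets, invariant under translations and multiplicative at distance
`≥ m`, takes the same value on two monotone images of `S` if for consecutive elements of `S` the
increments are equal, or both at least `m` -/
theorem phi_congr {m : ℕ} {φ : Finset ℤ → ℝ} (hs : ∀ (T : Finset ℤ) (c : ℤ), φ (T.image (· + c)) = φ T)
    (hd : ∀ S T : Finset ℤ, (∀ a ∈ S, ∀ b ∈ T, (m : ℤ) ≤ |a - b|) → φ (S ∪ T) = φ S * φ T)
    {f g : ℤ → ℤ} (hf : Monotone f) (hg : Monotone g) (S : Finset ℤ)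
    (h : ∀ a ∈ S, ∀ b ∈ S, a < b → (∀ x ∈ S, ¬ (a < x ∧ x < b)) →
      (g b - g a = f b - f a ∨ ((m : ℤ) ≤ f b - f a ∧ (m : ℤ) ≤ g b - g a))) :
    φ (S.image f) = φ (S.image g) := by
  -- the case of a constant difference
  have hconst : ∀ (T : Finset ℤ) (c : ℤ), (∀ x ∈ T, g x - f x = c) → φ (T.image f) = φ (T.image g) := by
    intro T c hT
    rw [← hs (T.image f) c, Finset.image_image]
    congr 1
    refine Finset.image_congr fun x hx => ?_
    have := hT x hx
    simp only [Function.comp_apply]
    omega
  -- splitting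
  have hsplit : ∀ (u : ℤ → ℤ) (S : Finset ℤ) (a b : ℤ), Monotone u → (m : ℤ) ≤ u b - u a →
      (∀ x ∈ S, x < b → x ≤ a) →
      φ (S.image u) = φ ((S.filter (· < b)).image u) * φ ((S.filter (b ≤ ·)).image u) := by
    intro u S a b hu hm hS
    rw [← hd, ← Finset.image_union]
    · congr 2
      ext x
      simp only [Finset.mem_union, Finset.mem_filter]
      constructor
      · intro hx
        rcases lt_or_ge x b with h1 | h1
        · exact Or.inl ⟨hx, h1⟩
        · exact Or.inr ⟨hx, h1⟩
      · rintro (h1 | h1)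
        · exact h1.1
        · exact h1.1
    · intro y hy z hz
      obtain ⟨y', hy', rfl⟩ := Finset.mem_image.1 hy
      obtain ⟨z', hz', rfl⟩ := Finset.mem_image.1 hz
      rw [Finset.mem_filter] at hy' hz'
      have h1 := hu (hS y' hy'.1 hy'.2)
      have h2 := hu hz'.2
      rw [le_abs]
      right
      omega
  induction hn : S.card using Nat.strong_induction_on generalizing S with
  | _ n ih =>
    rcases S.eq_empty_or_nonempty with rfl | hne
    · simp
    · obtain ⟨a0, ha0, hmin⟩ : ∃ a0 ∈ S, ∀ x ∈ S, a0 ≤ x :=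
        ⟨S.min' hne, S.min'_mem hne, fun x hx => S.min'_le x hx⟩
      by_cases hc : ∀ x ∈ S, g x - f x = g a0 - f a0
      · exact hconst S _ hc
      · push Not at hc
        have hne2 : (S.filter (fun x => g x - f x ≠ g a0 - f a0)).Nonempty := by
          obtain ⟨x, hx, hx2⟩ := hc
          exact ⟨x, Finset.mem_filter.2 ⟨hx, hx2⟩⟩
        obtain ⟨b, hb, hbmin⟩ : ∃ b ∈ S.filter (fun x => g x - f x ≠ g a0 - f a0),
            ∀ x ∈ S.filter (fun x => g x - f x ≠ g a0 - f a0), b ≤ x :=
          ⟨_, Finset.min'_mem _ hne2, fun x hx => Finset.min'_le _ x hx⟩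
        rw [Finset.mem_filter] at hb
        have hb0 : a0 < b := by
          refine lt_of_le_of_ne (hmin b hb.1) ?_
          rintro rfl
          exact hb.2 rfl
        have hne3 : (S.filter (· < b)).Nonempty := ⟨a0, Finset.mem_filter.2 ⟨ha0, hb0⟩⟩
        obtain ⟨a, ha, hamax⟩ : ∃ a ∈ S.filter (· < b), ∀ x ∈ S.filter (· < b), x ≤ a :=
          ⟨_, Finset.max'_mem _ hne3, fun x hx => Finset.le_max' _ x hx⟩
        have hlow : ∀ x ∈ S, x < b → g x - f x = g a0 - f a0 := by
          intro x hx hxb
          by_contra hcon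
          have := hbmin x (Finset.mem_filter.2 ⟨hx, hcon⟩)
          omega
        rw [Finset.mem_filter] at ha
        have hab := h a ha.1 b hb.1 ha.2 (fun x hx hx2 => by
          have := hamax x (Finset.mem_filter.2 ⟨hx, hx2.2⟩)
          omega)
        have hinc : (m : ℤ) ≤ f b - f a ∧ (m : ℤ) ≤ g b - g a := by
          rcases hab with h1 | h1
          · exfalso
            have h2 := hlow a ha.1 ha.2
            apply hb.2
            omega
          · exact h1
        have hS : ∀ x ∈ S, x < b → x ≤ a := fun x hx hxb =>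
          hamax x (Finset.mem_filter.2 ⟨hx, hxb⟩)
        rw [hsplit f S a b hf hinc.1 hS, hsplit g S a b hg hinc.2 hS,
          hconst (S.filter (· < b)) (g a0 - f a0) (fun x hx => by
            rw [Finset.mem_filter] at hx
            exact hlow x hx.1 hx.2)]
        congr 1
        refine ih (S.filter (b ≤ ·)).card ?_ (S.filter (b ≤ ·)) ?_ rfl
        · rw [← hn]
          refine Finset.card_lt_card ?_
          rw [Finset.ssubset_iff_of_subset (Finset.filter_subset _ _)]
          refine ⟨a0, ha0, fun hcon => ?_⟩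
          rw [Finset.mem_filter] at hcon
          omega
        · intro x hx y hy hxy hcons
          rw [Finset.mem_filter] at hx hy
          refine h x hx.1 y hy.1 hxy (fun z hz hz2 => ?_)
          exact hcons z (Finset.mem_filter.2 ⟨hz, by omega⟩) hz2

end HC38bc51.HC
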