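import Mathlib
import Pool.Agent.Work.MP_38bc51_pr.HC.Base
import Pool.Agent.Work.MP_38bc51_pr.HC.PhiCongr

/-!
# A sign law on random cells
-/

namespace HC38bc51.HC

open MeasureTheory ProbabilityTheory

/-! ### partial sums -/

/-- the partial sums of `c` -/
noncomputable def psum (c : ℤ → ℕ) (i : ℤ) : ℤ :=
  ∑ j ∈ Finset.Ico 0 i, (c j : ℤ) - ∑ j ∈ Finset.Ico i 0, (c j : ℤ)

theorem psum_zero (c : ℤ → ℕ) : psum c 0 = 0 := by simp [psum]

theorem psum_succ (c : ℤ → ℕ) (i : ℤ) : psum c (i + 1) = psum c i + c i := by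
  unfold psum
  rcases lt_or_ge i 0 with hi | hi
  · have e1 : Finset.Ico (0 : ℤ) (i + 1) = ∅ := Finset.Ico_eq_empty (by omega)
    have e2 : Finset.Ico (0 : ℤ) i = ∅ := Finset.Ico_eq_empty (by omega)
    have e3 : Finset.Ico i (0 : ℤ) = insert i (Finset.Ico (i + 1) 0) := by
      ext x; simp only [Finset.mem_Ico, Finset.mem_insert]; omega
    rw [e1, e2, e3, Finset.sum_insert (by simp)]
    simp
  · have e1 : Finset.Ico (i + 1) (0 : ℤ) = ∅ := Finset.Ico_eq_empty (by omega)
    have e2 : Finset.Ico i (0 : ℤ) = ∅ := Finset.Ico_eq_empty (by omega)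
    have e3 : Finset.Ico (0 : ℤ) (i + 1) = insert i (Finset.Ico 0 i) := by
      ext x; simp only [Finset.mem_Ico, Finset.mem_insert]; omega
    rw [e1, e2, e3, Finset.sum_insert (by simp)]
    simp
    ring

theorem psum_add (c : ℤ → ℕ) (a : ℤ) (n : ℕ) :
    psum c (a + n) = psum c a + ∑ j ∈ Finset.range n, (c (a + j) : ℤ) := by
  induction n with
  | zero => simp
  | succ n ih =>
    have e : a + ((n + 1 : ℕ) : ℤ) = a + n + 1 := by push_cast; ring
    rw [e, psum_succ, ih, Finset.sum_range_succ]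
    ring

theorem psum_mono (c : ℤ → ℕ) : Monotone (psum c) := by
  intro a b hab
  obtain ⟨n, rfl⟩ : ∃ n : ℕ, b = a + n := ⟨(b - a).toNat, by omega⟩
  rw [psum_add]
  have : 0 ≤ ∑ j ∈ Finset.range n, (c (a + j) : ℤ) :=
    Finset.sum_nonneg fun j _ => Int.natCast_nonneg _
  omega

theorem psum_shift (c : ℤ → ℕ) (i : ℤ) : psum c (i + 1) = psum (fun j => c (j + 1)) i + c 0 := by
  have step : ∀ i : ℤ, psum c (i + 1 + 1) - psum (fun j => c (j + 1)) (i + 1) =
      psum c (i + 1) - psum (fun j => c (j + 1)) i := by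
    intro i
    rw [psum_succ c (i + 1), psum_succ (fun j => c (j + 1)) i]
    ring
  have key : ∀ i : ℤ, psum c (i + 1) - psum (fun j => c (j + 1)) i = c 0 := by
    intro i
    induction i using Int.induction_on with
    | zero =>
      rw [psum_succ, psum_zero, psum_zero]; ring
    | succ i ih => rw [step, ih]
    | pred i ih =>
      have h1 := step (-(i : ℤ) - 1)
      have e : -(i : ℤ) - 1 + 1 = -i := by ring
      rw [e] at h1
      rw [e, ← h1, ih]
  linarith [key i]

theorem psum_congr {c c' : ℤ → ℕ} {a b : ℤ} (hab : a ≤ b)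
    (h : ∀ j, a ≤ j → j < b → c j = c' j) : psum c b - psum c a = psum c' b - psum c' a := by
  obtain ⟨n, rfl⟩ : ∃ n : ℕ, b = a + n := ⟨(b - a).toNat, by omega⟩
  rw [psum_add, psum_add]
  have : ∑ j ∈ Finset.range n, (c (a + j) : ℤ) = ∑ j ∈ Finset.range n, (c' (a + j) : ℤ) := by
    apply Finset.sum_congr rfl
    intro j hj
    rw [Finset.mem_range] at hj
    rw [h (a + j) (by omega) (by omega)]
  rw [this]
  ring

theorem psum_ge {c : ℤ → ℕ} {m k : ℕ} (hsum : ∀ i, m ≤ ∑ j ∈ Finset.range k, c (i + j)) {a b : ℤ}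
    (hab : a + k ≤ b) : (m : ℤ) ≤ psum c b - psum c a := by
  have h1 : psum c (a + k) ≤ psum c b := psum_mono c hab
  rw [psum_add] at h1
  have h2 := hsum a
  have h3 : (m : ℤ) ≤ ∑ j ∈ Finset.range k, (c (a + j) : ℤ) := by exact_mod_cast h2
  omega

theorem psum_sep {c : ℤ → ℕ} {m k : ℕ} (hsum : ∀ i, m ≤ ∑ j ∈ Finset.range k, c (i + j)) {a b : ℤ}
    (hab : (k : ℤ) ≤ |a - b|) : (m : ℤ) ≤ |psum c a - psum c b| := by
  rcases le_total a b with h | h
  · rw [abs_of_nonpos (by omega)] at hab
    have h1 := psum_ge hsum (a := a) (b := b) (by omega)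
    rw [abs_sub_comm]
    exact h1.trans (le_abs_self _)
  · rw [abs_of_nonneg (by omega)] at hab
    have h1 := psum_ge hsum (a := b) (b := a) (by omega)
    exact h1.trans (le_abs_self _)

/-! ### the construction -/

theorem measurable_sh {S T : Set ℤ} {i : ℤ} (h : ∀ x ∈ S, x + i ∈ T) :
    Measurable[AllK.sig T, AllK.sig S] (sh i) := by
  rw [measurable_iff_comap_le]
  unfold AllK.sig
  simp only [MeasurableSpace.comap_iSup, MeasurableSpace.comap_comp]
  refine iSup₂_le fun x hx => ?_
  exact le_iSup₂_of_le (x + i) (h x hx) le_rfl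

section

variable {m k : ℕ} {Q : Measure (ℤ → Bool)} {d : (ℤ → ℝ) → ℕ}

/-- the increments -/
def inc (d : (ℤ → ℝ) → ℕ) (ω : ℤ → ℝ) (j : ℤ) : ℕ := d (sh j ω)

theorem measurable_inc (hd : Measurable[AllK.sig (Set.Icc 0 (k : ℤ))] d) (j : ℤ) {T : Set ℤ}
    (hT : ∀ x, j ≤ x → x ≤ j + k → x ∈ T) : Measurable[AllK.sig T] (fun ω => inc d ω j) := by
  have h1 : Measurable[AllK.sig T, AllK.sig (Set.Icc 0 (k : ℤ))] (sh j) :=
    measurable_sh fun x hx => hT _ (by have := hx.1; omega) (by have := hx.2; omega)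
  exact Measurable.comp hd h1

theorem inc_sh (ω : ℤ → ℝ) (j : ℤ) : inc d (sh 1 ω) j = inc d ω (j + 1) := by
  unfold inc sh
  congr 1
  funext x
  congr 1
  ring

theorem inc_zero (ω : ℤ → ℝ) : inc d ω 0 = d ω := by
  unfold inc sh
  simp

/-- the window of `S` -/
def winU (k : ℕ) (S : Finset ℤ) : Set ℤ :=
  {j | ∃ a ∈ S, ∃ b ∈ S, a ≤ j ∧ j < b ∧ b - a < k}

/-- the sites on which the increments of `S` depend -/
def sites (k : ℕ) (S : Finset ℤ) : Set ℤ :=
  {x | ∃ a ∈ S, ∃ b ∈ S, a ≤ x ∧ x + 1 ≤ b + k ∧ a < b ∧ b - a < k}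

theorem sites_disjoint {S T : Finset ℤ} (h : ∀ a ∈ S, ∀ b ∈ T, (k : ℤ) ≤ |a - b|) :
    Disjoint (sites k S) (sites k T) := by
  rw [Set.disjoint_left]
  rintro x ⟨a, ha, b, hb, h1, h2, h3, h4⟩ ⟨a', ha', b', hb', h1', h2', h3', h4'⟩
  have e1 := h a ha a' ha'
  have e2 := h a ha b' hb'
  have e3 := h b hb a' ha'
  have e4 := h b hb b' hb'
  rw [le_abs] at e1 e2 e3 e4
  omega

open Classical in
/-- the truncated increments -/
noncomputable def incS (m k : ℕ) (d : (ℤ → ℝ) → ℕ) (S : Finset ℤ) (ω : ℤ → ℝ) (j : ℤ) : ℕ :=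
  if j ∈ winU k S then inc d ω j else m

theorem measurable_incS (hd : Measurable[AllK.sig (Set.Icc 0 (k : ℤ))] d) (S : Finset ℤ) (j : ℤ) :
    Measurable[AllK.sig (sites k S)] (fun ω => incS m k d S ω j) := by
  unfold incS
  by_cases hj : j ∈ winU k S
  · simp only [hj, if_true]
    obtain ⟨a, ha, b, hb, h1, h2, h3⟩ := hj
    exact measurable_inc hd j fun x hx1 hx2 => ⟨a, ha, b, hb, by omega, by omega, by omega, h3⟩
  · simp only [hj, if_false]
    exact measurable_const

theorem measurable_psum {M : MeasurableSpace (ℤ → ℝ)} {c : (ℤ → ℝ) → ℤ → ℕ}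
    (hc : ∀ j, Measurable[M] (fun ω => c ω j)) (i : ℤ) : Measurable[M] (fun ω => psum (c ω) i) := by
  unfold psum
  have h : ∀ j, Measurable[M] (fun ω => (c ω j : ℤ)) := fun j =>
    (measurable_from_top (f := fun n : ℕ => (n : ℤ))).comp (hc j)
  exact (Finset.measurable_sum _ fun j _ => h j).sub (Finset.measurable_sum _ fun j _ => h j)

theorem measurable_phi {M : MeasurableSpace (ℤ → ℝ)} {c : (ℤ → ℝ) → ℤ → ℕ}
    (hc : ∀ j, Measurable[M] (fun ω => c ω j)) (φ : Finset ℤ → ℝ) (S : Finset ℤ) :
    Measurable[M] (fun ω => φ (S.image (psum (c ω)))) := by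
  have h1 : Measurable[M] (fun ω (a : S) => psum (c ω) a) :=
    @measurable_pi_iff _ _ _ M _ _ |>.2 fun a => measurable_psum hc a
  have h2 : Measurable (fun g : S → ℤ => φ (Finset.univ.image g)) := Measurable.of_discrete
  have h3 : (fun ω => φ (S.image (psum (c ω)))) =
      (fun g : S → ℤ => φ (Finset.univ.image g)) ∘ (fun ω (a : S) => psum (c ω) a) := by
    funext ω
    simp only [Function.comp]
    congr 1
    ext x
    simp
  rw [h3]
  exact h2.comp h1

theorem mem_Cyl_image {S : Finset ℤ} {f : ℤ → ℤ} {s : ℤ → Bool} :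
    s ∈ Cyl (S.image f) ↔ ∀ i ∈ S, s (f i) = true := by
  simp only [Cyl, Set.mem_ofPred_eq, Finset.mem_image]
  constructor
  · intro h i hi
    exact h _ ⟨i, hi, rfl⟩
  · rintro h _ ⟨i, hi, rfl⟩
    exact h i hi

theorem SignLaw.phi_shift (hQ : SignLaw m Q) (T : Finset ℤ) (c : ℤ) :
    Q.real (Cyl (T.image (· + c))) = Q.real (Cyl T) := by
  have h1 : ∀ T : Finset ℤ, Q.real (Cyl (T.image (· + 1))) = Q.real (Cyl T) := by
    intro T
    have hm : Measurable (fun (s : ℤ → Bool) (i : ℤ) => s (i + 1)) :=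
      measurable_pi_iff.2 fun i => measurable_pi_apply _
    conv_rhs => rw [← hQ.shift]
    rw [map_measureReal_apply hm (measurableSet_Cyl T)]
    congr 1
    ext s
    exact mem_Cyl_image
  have h2 : ∀ (n : ℕ) (T : Finset ℤ), Q.real (Cyl (T.image (· + (n : ℤ)))) = Q.real (Cyl T) := by
    intro n
    induction n with
    | zero => intro T; simp
    | succ n ih =>
      intro T
      have e : T.image (· + ((n + 1 : ℕ) : ℤ)) = (T.image (· + (n : ℤ))).image (· + 1) := by
        rw [Finset.image_image]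
        congr 1
        funext x
        simp only [Function.comp]
        push_cast
        ring
      rw [e, h1, ih]
  rcases le_total 0 c with hc | hc
  · obtain ⟨n, rfl⟩ := Int.eq_ofNat_of_zero_le hc
    exact h2 n T
  · obtain ⟨n, hn⟩ := Int.eq_ofNat_of_zero_le (neg_nonneg.2 hc)
    have h3 := h2 n (T.image (· + c))
    rw [Finset.image_image] at h3
    have e : T.image ((· + (n : ℤ)) ∘ (· + c)) = T := by
      conv_rhs => rw [← Finset.image_id (s := T)]
      congr 1
      funext x
      simp only [Function.comp, id]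
      omega
    rw [e] at h3
    exact h3.symm

/-- the map of the construction -/
noncomputable def reind (d : (ℤ → ℝ) → ℕ) (p : (ℤ → ℝ) × (ℤ → Bool)) (i : ℤ) : Bool :=
  p.2 (psum (inc d p.1) i)

theorem measurable_reind (hd : Measurable[AllK.sig (Set.Icc 0 (k : ℤ))] d) :
    Measurable (reind d) := by
  refine measurable_pi_iff.2 fun i => ?_
  apply measurable_to_bool
  have hi : Measurable (fun ω : ℤ → ℝ => psum (inc d ω) i) :=
    (measurable_psum (fun j => (measurable_inc (T := Set.univ) hd j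
      fun x _ _ => Set.mem_univ _).mono (AllK.sig_le _) le_rfl) i)
  have e : (fun p : (ℤ → ℝ) × (ℤ → Bool) => reind d p i) ⁻¹' {true} =
      ⋃ n : ℤ, ((fun p : (ℤ → ℝ) × (ℤ → Bool) => psum (inc d p.1) i) ⁻¹' {n} ∩
        (fun p : (ℤ → ℝ) × (ℤ → Bool) => p.2 n) ⁻¹' {true}) := by
    ext p
    simp [reind]
  rw [e]
  refine MeasurableSet.iUnion fun n => MeasurableSet.inter ?_ ?_
  · exact (hi.comp measurable_fst) (measurableSet_singleton n)
  · have h2 : Measurable (fun p : (ℤ → ℝ) × (ℤ → Bool) => p.2 n) :=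
      (measurable_pi_apply n).comp measurable_snd
    exact h2 (measurableSet_singleton true)

theorem real_reind (hQ : IsProbabilityMeasure Q)
    (hd : Measurable[AllK.sig (Set.Icc 0 (k : ℤ))] d) {A : Set (ℤ → Bool)} (hA : MeasurableSet A) :
    ((AllK.Pr.prod Q).map (reind d)).real A =
      ∫ ω, Q.real {s | (fun i => s (psum (inc d ω) i)) ∈ A} ∂AllK.Pr := by
  have hm := measurable_reind hd
  rw [measureReal_def, Measure.map_apply hm hA, Measure.prod_apply (hm hA)]
  rw [← integral_toReal]
  · rfl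
  · exact (measurable_measure_prodMk_left (hm hA)).aemeasurable
  · exact Filter.Eventually.of_forall fun ω => measure_lt_top _ _

theorem real_reind_Cyl (hQ : IsProbabilityMeasure Q)
    (hd : Measurable[AllK.sig (Set.Icc 0 (k : ℤ))] d) (S : Finset ℤ) :
    ((AllK.Pr.prod Q).map (reind d)).real (Cyl S) =
      ∫ ω, Q.real (Cyl (S.image (psum (inc d ω)))) ∂AllK.Pr := by
  rw [real_reind hQ hd (measurableSet_Cyl S)]
  congr 1
  funext ω
  congr 1
  ext s
  exact mem_Cyl_image.symm

end

theorem mix {m k : ℕ} (hk : 1 ≤ k) {Q : Measure (ℤ → Bool)} (hQ : SignLaw m Q)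
    {d : (ℤ → ℝ) → ℕ} (hd : Measurable[AllK.sig (Set.Icc 0 (k : ℤ))] d)
    (hsum : ∀ (ω : ℤ → ℝ) (i : ℤ), m ≤ ∑ j ∈ Finset.range k, d (sh (i + j) ω)) :
    ∃ Q' : Measure (ℤ → Bool), SignLaw k Q' ∧
      chg Q' = ∫ ω, Q.real {s : ℤ → Bool | s 0 ≠ s (d ω : ℤ)} ∂AllK.Pr := by
  classical
  have hQp := hQ.prob
  have hm := measurable_reind hd
  have hpQ' : IsProbabilityMeasure ((AllK.Pr.prod Q).map (reind d)) :=
    Measure.isProbabilityMeasure_map hm.aemeasurable
  have hinc : ∀ j, Measurable (fun ω => inc d ω j) := fun j =>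
    (measurable_inc (T := Set.univ) hd j fun x _ _ => Set.mem_univ _).mono (AllK.sig_le _) le_rfl
  have hsum' : ∀ (ω : ℤ → ℝ) (i : ℤ), m ≤ ∑ j ∈ Finset.range k, inc d ω (i + j) := hsum
  refine ⟨(AllK.Pr.prod Q).map (reind d), ⟨hpQ', ?_, ?_, ?_⟩, ?_⟩
  · -- stationarity
    have hm1 : Measurable (fun (x : ℤ → Bool) (i : ℤ) => x (i + 1)) :=
      measurable_pi_iff.mpr fun i => measurable_pi_apply _
    have : IsProbabilityMeasure (((AllK.Pr.prod Q).map (reind d)).map
      (fun (s : ℤ → Bool) (i : ℤ) => s (i + 1))) :=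
      Measure.isProbabilityMeasure_map hm1.aemeasurable
    have hcyl : ∀ S : Finset ℤ, (((AllK.Pr.prod Q).map (reind d)).map
        (fun (s : ℤ → Bool) (i : ℤ) => s (i + 1))).real (Cyl S) =
        ((AllK.Pr.prod Q).map (reind d)).real (Cyl S) := by
      intro S
      rw [map_measureReal_apply hm1 (measurableSet_Cyl S)]
      have e1 : (fun (s : ℤ → Bool) (i : ℤ) => s (i + 1)) ⁻¹' (Cyl S) = Cyl (S.image (· + 1)) := by
        ext s
        exact mem_Cyl_image.symm
      rw [e1, real_reind_Cyl hQp hd, real_reind_Cyl hQp hd]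
      have e2 : ∀ ω, Q.real (Cyl ((S.image (· + 1)).image (psum (inc d ω)))) =
          Q.real (Cyl (S.image (psum (inc d (sh 1 ω))))) := by
        intro ω
        have e3 : (S.image (· + 1)).image (psum (inc d ω)) =
            (S.image (psum (inc d (sh 1 ω)))).image (· + (inc d ω 0 : ℤ)) := by
          rw [Finset.image_image, Finset.image_image]
          congr 1
          funext i
          simp only [Function.comp]
          rw [psum_shift]
          congr 2
          funext j
          exact (inc_sh ω j).symm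
        rw [e3, hQ.phi_shift]
      simp only [e2]
      have h1 := AllK.map_perm (Equiv.addRight (1 : ℤ))
      have hmeas : Measurable (fun ω => Q.real (Cyl (S.image (psum (inc d ω))))) :=
        measurable_phi hinc (fun T => Q.real (Cyl T)) S
      conv_rhs => rw [← h1]
      rw [integral_map (measurable_pi_iff.2 fun _ => measurable_pi_apply _).aemeasurable
        hmeas.aestronglyMeasurable]
      rfl
    refine ext_of_generate_finite _ pi_eq (isPiSystem_cylSys Set.univ) ?_ ?_
    · rintro _ ⟨S, -, rfl⟩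
      have h := hcyl S
      rw [measureReal_def, measureReal_def, ENNReal.toReal_eq_toReal_iff' (measure_ne_top _ _)
        (measure_ne_top _ _)] at h
      exact h
    · simp
  · -- flip
    have hm2 : Measurable (fun (s : ℤ → Bool) (i : ℤ) => !(s i)) :=
      measurable_pi_iff.mpr fun i => (measurable_from_top (f := not)).comp (measurable_pi_apply _)
    have hprod : (AllK.Pr.prod Q).map (Prod.map id (fun (s : ℤ → Bool) (i : ℤ) => !(s i))) =
        AllK.Pr.prod Q := by
      rw [← Measure.map_prod_map _ _ measurable_id hm2, hQ.flip, Measure.map_id]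
    rw [Measure.map_map hm2 hm]
    have e : (fun (s : ℤ → Bool) (i : ℤ) => !(s i)) ∘ reind d =
        reind d ∘ (Prod.map id (fun (s : ℤ → Bool) (i : ℤ) => !(s i))) := by
      funext p i
      rfl
    rw [e, ← Measure.map_map hm (measurable_id.prodMap hm2), hprod]
  · -- dependence range
    intro S T hST
    rw [real_reind_Cyl hQp hd, real_reind_Cyl hQp hd, real_reind_Cyl hQp hd]
    have hpt : ∀ ω, Q.real (Cyl ((S ∪ T).image (psum (inc d ω)))) =
        Q.real (Cyl (S.image (psum (inc d ω)))) * Q.real (Cyl (T.image (psum (inc d ω)))) := by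
      intro ω
      rw [Finset.image_union]
      apply hQ.dep
      intro a ha b hb
      obtain ⟨x, hx, rfl⟩ := Finset.mem_image.1 ha
      obtain ⟨y, hy, rfl⟩ := Finset.mem_image.1 hb
      exact psum_sep (hsum' ω) (hST x hx y hy)
    have htr : ∀ (U : Finset ℤ) ω, Q.real (Cyl (U.image (psum (inc d ω)))) =
        Q.real (Cyl (U.image (psum (incS m k d U ω)))) := by
      intro U ω
      refine phi_congr (m := m) (φ := fun T => Q.real (Cyl T)) (fun T c => hQ.phi_shift T c) hQ.dep
        (psum_mono _) (psum_mono _) U ?_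
      intro a ha b hb hab hcons
      by_cases hlt : b - a < k
      · left
        refine (psum_congr hab.le fun j hj1 hj2 => ?_).symm
        have hj : j ∈ winU k U := ⟨a, ha, b, hb, hj1, hj2, hlt⟩
        simp only [incS, hj, if_true]
      · right
        refine ⟨psum_ge (hsum' ω) (by omega), ?_⟩
        have hj : ∀ j, a ≤ j → j < b → incS m k d U ω j = m := by
          intro j hj1 hj2
          have hj : j ∉ winU k U := by
            rintro ⟨x, hx, y, hy, h1, h2, h3⟩
            have c1 := hcons x hx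
            have c2 := hcons y hy
            omega
          simp only [incS, hj, if_false]
        have h1 : psum (incS m k d U ω) (a + 1) ≤ psum (incS m k d U ω) b :=
          psum_mono _ (by omega)
        rw [psum_succ, hj a le_rfl hab] at h1
        omega
    simp only [hpt]
    simp only [htr S, htr T]
    have hmS : Measurable[AllK.sig (sites k S)] (fun ω =>
        Q.real (Cyl (S.image (psum (incS m k d S ω))))) :=
      measurable_phi (fun j => measurable_incS hd S j) (fun T => Q.real (Cyl T)) S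
    have hmT : Measurable[AllK.sig (sites k T)] (fun ω =>
        Q.real (Cyl (T.image (psum (incS m k d T ω))))) :=
      measurable_phi (fun j => measurable_incS hd T j) (fun T => Q.real (Cyl T)) T
    have hind : IndepFun (fun ω => Q.real (Cyl (S.image (psum (incS m k d S ω)))))
        (fun ω => Q.real (Cyl (T.image (psum (incS m k d T ω))))) AllK.Pr := by
      rw [IndepFun_iff_Indep]
      exact indep_of_indep_of_le_left (indep_of_indep_of_le_right
        (AllK.sig_indep (sites_disjoint hST)) hmT.comap_le) hmS.comap_le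
    exact hind.integral_mul_eq_mul_integral
      (hmS.mono (AllK.sig_le _) le_rfl).aestronglyMeasurable
      (hmT.mono (AllK.sig_le _) le_rfl).aestronglyMeasurable
  · -- the probability of a change
    unfold chg
    have hA : MeasurableSet {s : ℤ → Bool | s 0 ≠ s 1} := by
      have h1 : MeasurableSet {s : ℤ → Bool | s 0 = s 1} :=
        measurableSet_eq_fun (measurable_pi_apply 0) (measurable_pi_apply 1)
      exact h1.compl
    rw [real_reind hQp hd hA]
    congr 1
    funext ω
    have e0 : psum (inc d ω) 0 = 0 := psum_zero _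
    have e1 : psum (inc d ω) 1 = (d ω : ℤ) := by
      have := psum_succ (inc d ω) 0
      rw [zero_add, psum_zero, inc_zero] at this
      rw [this, zero_add]
    congr 1
    ext s
    show s (psum (inc d ω) 0) ≠ s (psum (inc d ω) 1) ↔ s 0 ≠ s (d ω : ℤ)
    rw [e0, e1]

end HC38bc51.HC
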