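import Mathlib
import Pool.Agent.Work.MP_38bc51_pr.HC.Base

/-!
# A sign law of range two with correlation `2 / (3 √3)`

The law is a matrix product law: `P (s_0 = b_0, ..., s_n = b_n) = w (M_{b_0} ⋯ M_{b_n} v)` with
`M_0 + M_1 = w ⊗ v` of rank one. With `σ² = 1 / 3`, `c = 1 - σ²`, `ρ = σ c`, the quadratic form
`c g² - o² / σ² - e²` is multiplied by `σ²` under `2 M_b`; hence all the weights are positive.
-/

namespace HC38bc51.HC

open MeasureTheory ProbabilityTheory Filter Topology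

/-- matrix product data whose total map has rank one -/
structure SD (V : Type) [AddCommGroup V] [Module ℝ V] where
  M0 : V →ₗ[ℝ] V
  M1 : V →ₗ[ℝ] V
  w : V →ₗ[ℝ] ℝ
  v : V
  wv : w v = 1
  rk : ∀ s, M0 s + M1 s = w s • v

variable {V : Type} [AddCommGroup V] [Module ℝ V] (D : SD V)

namespace SD

/-- letter map -/
def L (b : Bool) : V →ₗ[ℝ] V := if b then D.M1 else D.M0

/-- state of a word -/
def st : (n : ℕ) → (Fin n → Bool) → V
  | 0, _ => D.v
  | n + 1, f => D.L (f 0) (st n (Fin.tail f))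

open Classical in
/-- state after processing the window `[a, a+n)` with the letter `c` prescribed on `S`. -/
noncomputable def G (D : SD V) (c : Bool) : ℕ → ℤ → Set ℤ → V
  | 0, _, _ => D.v
  | n + 1, a, S => if a ∈ S then D.L c (G D c n (a + 1) S) else D.w (G D c n (a + 1) S) • D.v

lemma L_add (s : V) : D.L true s + D.L false s = D.w s • D.v := by
  rw [← D.rk s, add_comm]
  rfl

variable {D} {c : Bool}

lemma G_pos {n : ℕ} {a : ℤ} {S : Set ℤ} (h : a ∈ S) :
    D.G c (n + 1) a S = D.L c (D.G c n (a + 1) S) := by rw [G, if_pos h]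

lemma G_neg {n : ℕ} {a : ℤ} {S : Set ℤ} (h : a ∉ S) :
    D.G c (n + 1) a S = D.w (D.G c n (a + 1) S) • D.v := by rw [G, if_neg h]

lemma w_smul_v (r : ℝ) : D.w (r • D.v) = r := by
  rw [map_smul, D.wv, smul_eq_mul, mul_one]

lemma G_empty {S : Set ℤ} : ∀ (n : ℕ) (a : ℤ), (∀ i, a ≤ i → i < a + n → i ∉ S) →
    D.G c n a S = D.v
  | 0, _, _ => rfl
  | n + 1, a, h => by
    have ih := G_empty (S := S) n (a + 1) (fun i h1 h2 => h i (by omega)
      (by push_cast at h2 ⊢; omega))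
    rw [G_neg (h a le_rfl (by push_cast; omega)), ih, D.wv, one_smul]

/-- extension to the right -/
lemma G_right {S : Set ℤ} : ∀ (n : ℕ) (a : ℤ), a + n ∉ S → D.G c (n + 1) a S = D.G c n a S
  | 0, a, h => by
    rw [G_neg (by simpa using h)]
    change D.w D.v • D.v = D.v
    rw [D.wv, one_smul]
  | n + 1, a, h => by
    have ih := G_right (S := S) n (a + 1) (by
      have e : a + 1 + (n : ℤ) = a + ((n + 1 : ℕ) : ℤ) := by push_cast; ring
      rwa [e])
    by_cases h1 : a ∈ S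
    · rw [G_pos h1, ih, G_pos h1]
    · rw [G_neg h1, ih, G_neg h1]

/-- extension to the left -/
lemma w_G_left {S : Set ℤ} {n : ℕ} {a : ℤ} (h : a ∉ S) :
    D.w (D.G c (n + 1) a S) = D.w (D.G c n (a + 1) S) := by
  rw [G_neg h, w_smul_v]

lemma w_G_right_many {S : Set ℤ} {n : ℕ} {a : ℤ} (m : ℕ) (h : ∀ i, a + n ≤ i → i ∉ S) :
    D.G c (n + m) a S = D.G c n a S := by
  induction m with
  | zero => rfl
  | succ m ih =>
    rw [← add_assoc, G_right _ _ (h _ (by push_cast; omega)), ih]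

lemma w_G_left_many {S : Set ℤ} {n : ℕ} {a : ℤ} (m : ℕ) (h : ∀ i, i < a → i ∉ S) :
    D.w (D.G c (n + m) (a - m) S) = D.w (D.G c n a S) := by
  induction m with
  | zero => simp
  | succ m ih =>
    rw [← add_assoc, w_G_left (h _ (by push_cast; omega))]
    have e : a - ((m + 1 : ℕ) : ℤ) + 1 = a - m := by push_cast; ring
    rw [e, ih]

variable (D c) in
/-- the correlation function: value on a big symmetric window -/
noncomputable def rho (S : Finset ℤ) : ℝ :=
  D.w (D.G c (2 * (S.sup Int.natAbs + 1)) (-((S.sup Int.natAbs + 1 : ℕ) : ℤ)) S)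

lemma rho_eq {S : Finset ℤ} {n : ℕ} (hn : ∀ i ∈ S, -(n : ℤ) ≤ i ∧ i < n) :
    D.w (D.G c (2 * n) (-(n : ℤ)) S) = D.rho c S := by
  -- both agree with a bigger window
  have key : ∀ m : ℕ, (∀ i ∈ S, -(m : ℤ) ≤ i ∧ i < m) → ∀ k : ℕ,
      D.w (D.G c (2 * (m + k)) (-((m + k : ℕ) : ℤ)) S) = D.w (D.G c (2 * m) (-(m : ℤ)) S) := by
    intro m hm k
    have e1 : 2 * (m + k) = (2 * m + k) + k := by ring
    have e2 : -((m + k : ℕ) : ℤ) = -(m : ℤ) - (k : ℤ) := by push_cast; ring
    rw [e1, e2, w_G_left_many k, w_G_right_many k]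
    · intro i hi h
      have := hm i h
      push_cast at hi
      omega
    · intro i hi h
      have := hm i h
      omega
  set N := S.sup Int.natAbs + 1 with hN
  have hNS : ∀ i ∈ S, -(N : ℤ) ≤ i ∧ i < N := by
    intro i hi
    have h1 : i.natAbs ≤ S.sup Int.natAbs := Finset.le_sup (f := Int.natAbs) hi
    have h2 : i.natAbs < N := by omega
    omega
  have k1 := key n hn N
  have k2 := key N hNS n
  rw [add_comm N n] at k2
  rw [← k1, k2, rho]

lemma G_shift {S S' : Set ℤ} (h : ∀ i, i + 1 ∈ S ↔ i ∈ S') : ∀ (n : ℕ) (a : ℤ),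
    D.G c n (a + 1) S = D.G c n a S'
  | 0, _ => rfl
  | n + 1, a => by
    have ih := G_shift h n (a + 1)
    by_cases h1 : a ∈ S'
    · rw [G_pos ((h a).mpr h1), G_pos h1, ih]
    · rw [G_neg (fun h2 => h1 ((h a).mp h2)), G_neg h1, ih]

lemma rho_shift {S S' : Finset ℤ} (h : ∀ i, i + 1 ∈ S ↔ i ∈ S') : D.rho c S = D.rho c S' := by
  -- take a window which is large for both
  obtain ⟨N, hN⟩ : ∃ N : ℕ, (∀ i ∈ S', -(N : ℤ) ≤ i ∧ i < N) := by
    refine ⟨S'.sup Int.natAbs + 1, fun i hi => ?_⟩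
    have h1 : i.natAbs ≤ S'.sup Int.natAbs := Finset.le_sup (f := Int.natAbs) hi
    push_cast
    omega
  have hS : ∀ i ∈ S, -(N : ℤ) + 1 ≤ i ∧ i < N + 1 := by
    intro i hi
    have := hN (i - 1) ((h (i - 1)).mp (by simpa using hi))
    omega
  rw [← rho_eq (n := N) hN, ← rho_eq (n := N + 1) (fun i hi => by
    have := hS i hi; push_cast; omega)]
  have e1 : 2 * (N + 1) = (2 * N + 1) + 1 := by ring
  have e2 : -((N + 1 : ℕ) : ℤ) = -(N : ℤ) - 1 := by push_cast; ring
  rw [e1, e2, w_G_left (by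
    intro h1; have := hS _ h1; omega)]
  have e3 : -(N : ℤ) - 1 + 1 = -(N : ℤ) := by ring
  rw [e3, w_G_left (by intro h1; have := hS _ h1; omega),
    G_shift (S := (S : Set ℤ)) (S' := (S' : Set ℤ))
      (fun i => by rw [Finset.mem_coe, Finset.mem_coe]; exact h i)]

lemma G_union {S T : Set ℤ} (hST : ∀ a ∈ S, ∀ b ∈ T, 2 ≤ |a - b|) : ∀ (n : ℕ) (a : ℤ),
    (a ∉ T → D.G c n a (S ∪ T) = D.w (D.G c n a T) • D.G c n a S) ∧
    (a ∉ S → D.G c n a (S ∪ T) = D.w (D.G c n a S) • D.G c n a T) := by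
  intro n
  induction n with
  | zero => intro a; simp [G, D.wv]
  | succ n ih =>
    intro a
    obtain ⟨ih1, ih2⟩ := ih (a + 1)
    have far : ∀ i ∈ S, ∀ j ∈ T, i + 2 ≤ j ∨ j + 2 ≤ i := by
      intro i hi j hj
      have := hST i hi j hj
      rcases abs_cases (i - j) with h | h <;> omega
    by_cases haS : a ∈ S
    · have haT : a ∉ T := fun h => by have := far a haS a h; omega
      have haT1 : a + 1 ∉ T := fun h => by have := far a haS _ h; omega
      refine ⟨fun _ => ?_, fun h => absurd haS h⟩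
      rw [G_pos (Or.inl haS : a ∈ S ∪ T), ih1 haT1, w_G_left haT, G_pos haS, map_smul]
    · by_cases haT : a ∈ T
      · have haS1 : a + 1 ∉ S := fun h => by have := far _ h a haT; omega
        refine ⟨fun h => absurd haT h, fun _ => ?_⟩
        rw [G_pos (Or.inr haT : a ∈ S ∪ T), ih2 haS1, w_G_left haS, G_pos haT, map_smul]
      · have hU : a ∉ S ∪ T := fun h => h.elim haS haT
        have hw : D.w (D.G c n (a + 1) (S ∪ T))
            = D.w (D.G c n (a + 1) S) * D.w (D.G c n (a + 1) T) := by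
          by_cases h2 : a + 1 ∈ T
          · have haS1 : a + 1 ∉ S := fun h => by have := far _ h _ h2; omega
            rw [ih2 haS1, map_smul, smul_eq_mul]
          · rw [ih1 h2, map_smul, smul_eq_mul, mul_comm]
        constructor
        · intro _
          rw [G_neg hU, G_neg haS, w_G_left haT, smul_smul, hw, mul_comm]
        · intro _
          rw [G_neg hU, G_neg haT, w_G_left haS, smul_smul, hw]

lemma w_G_union {S T : Set ℤ} (hST : ∀ a ∈ S, ∀ b ∈ T, 2 ≤ |a - b|) (n : ℕ) (a : ℤ) :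
    D.w (D.G c n a (S ∪ T)) = D.w (D.G c n a S) * D.w (D.G c n a T) := by
  by_cases h : a ∈ T
  · have h2 : a ∉ S := fun h1 => by
      have := hST _ h1 _ h
      simp at this
    rw [(G_union hST n a).2 h2, map_smul, smul_eq_mul]
  · rw [(G_union hST n a).1 h, map_smul, smul_eq_mul, mul_comm]

lemma rho_union {S T : Finset ℤ} (hST : ∀ a ∈ S, ∀ b ∈ T, 2 ≤ |a - b|) :
    D.rho c (S ∪ T) = D.rho c S * D.rho c T := by
  set N := (S ∪ T).sup Int.natAbs + 1 with hN
  have hNS : ∀ i ∈ S ∪ T, -(N : ℤ) ≤ i ∧ i < N := by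
    intro i hi
    have h1 : i.natAbs ≤ (S ∪ T).sup Int.natAbs := Finset.le_sup (f := Int.natAbs) hi
    omega
  rw [← rho_eq hNS, ← rho_eq (S := S) (fun i hi => hNS i (Finset.mem_union_left _ hi)),
    ← rho_eq (S := T) (fun i hi => hNS i (Finset.mem_union_right _ hi)), Finset.coe_union,
    w_G_union (by simpa using hST)]

end SD

variable {D}

/-- cylinder event: all coordinates in `S` are `c` -/
def CylB (c : Bool) (S : Finset ℤ) : Set (ℤ → Bool) := {x | ∀ i ∈ S, x i = c}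

lemma CylB_true (S : Finset ℤ) : CylB true S = Cyl S := rfl

lemma isClopen_CylB (c : Bool) (S : Finset ℤ) : IsClopen (CylB c S) := by
  have e : CylB c S = ⋂ i ∈ S, (fun x : ℤ → Bool => x i) ⁻¹' {c} := by
    ext x; simp [CylB]
  rw [e]
  exact S.finite_toSet.isClopen_biInter fun i _ => (isClopen_discrete _).preimage (continuous_apply i)

lemma measurableSet_CylB (c : Bool) (S : Finset ℤ) : MeasurableSet (CylB c S) :=
  (isClopen_CylB c S).isOpen.measurableSet

open Classical in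
lemma sum_st (c : Bool) : ∀ (n : ℕ) (a : ℤ) (S : Set ℤ),
    ∑ f : Fin n → Bool, (if ∀ i ∈ S, a ≤ i → i < a + n → ext n a f i = c then D.st n f else 0)
      = D.G c n a S := by
  intro n
  induction n with
  | zero =>
    intro a S
    have : ∀ i ∈ S, a ≤ i → i < a + ((0 : ℕ) : ℤ) → ext 0 a (default : Fin 0 → Bool) i = c := by
      intro i _ h1 h2; push_cast at h2; omega
    rw [Fintype.sum_subsingleton _ (default : Fin 0 → Bool), if_pos this]
    rfl
  | succ n ih =>
    intro a S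
    have hc : ∀ (b : Bool) (g : Fin n → Bool),
        (∀ i ∈ S, a ≤ i → i < a + ((n + 1 : ℕ) : ℤ) →
          ext (n + 1) a (Fin.cons b g : Fin (n + 1) → Bool) i = c) ↔
        ((a ∈ S → b = c) ∧ ∀ i ∈ S, a + 1 ≤ i → i < a + 1 + (n : ℤ) →
          ext n (a + 1) g i = c) := by
      intro b g
      constructor
      · intro h
        constructor
        · intro ha
          have := h a ha le_rfl (by push_cast; omega)
          simpa [ext] using this
        · intro i hi h1 h2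
          have := h i hi (by omega) (by push_cast; omega)
          simp only [ext, Fin.tail_cons, Fin.cons_zero] at this
          rwa [Function.update_of_ne (by omega)] at this
      · rintro ⟨h1, h2⟩ i hi h3 h4
        simp only [ext, Fin.tail_cons, Fin.cons_zero]
        by_cases hia : i = a
        · subst hia
          rw [Function.update_self]
          exact h1 hi
        · rw [Function.update_of_ne hia]
          exact h2 i hi (by omega) (by push_cast at h4; omega)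
    rw [← (Fin.consEquiv (fun _ => Bool)).sum_comp, Fintype.sum_prod_type]
    have e : ∀ (b : Bool) (g : Fin n → Bool), (Fin.consEquiv (fun _ : Fin (n + 1) => Bool)) (b, g)
        = (Fin.cons b g : Fin (n + 1) → Bool) := fun _ _ => rfl
    simp only [e]
    have hst : ∀ (b : Bool) (g : Fin n → Bool),
        D.st (n + 1) (Fin.cons b g : Fin (n + 1) → Bool) = D.L b (D.st n g) := by
      intro b g; simp [SD.st]
    simp only [hc, hst]
    have hsum : ∀ b : Bool, ∑ g : Fin n → Bool,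
        (if (a ∈ S → b = c) ∧ ∀ i ∈ S, a + 1 ≤ i → i < a + 1 + (n : ℤ) →
          ext n (a + 1) g i = c then D.L b (D.st n g) else 0)
        = if a ∈ S → b = c then D.L b (D.G c n (a + 1) S) else 0 := by
      intro b
      by_cases hb : a ∈ S → b = c
      · rw [if_pos hb, ← ih (a + 1) S, map_sum]
        refine Finset.sum_congr rfl fun g _ => ?_
        by_cases hg : ∀ i ∈ S, a + 1 ≤ i → i < a + 1 + (n : ℤ) → ext n (a + 1) g i = c
        · rw [if_pos ⟨hb, hg⟩, if_pos hg]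
        · rw [if_neg (fun h => hg h.2), if_neg hg, map_zero]
      · rw [if_neg hb]
        exact Finset.sum_eq_zero fun g _ => if_neg fun h => hb h.1
    rw [Fintype.sum_bool, hsum, hsum]
    by_cases ha : a ∈ S
    · rw [SD.G_pos ha]
      cases c <;> simp [ha]
    · rw [SD.G_neg ha, if_pos (fun h => absurd h ha), if_pos (fun h => absurd h ha), SD.L_add]

/-- finite window measure -/
noncomputable def win (D : SD V) (n : ℕ) (a : ℤ) : Measure (ℤ → Bool) :=
  ∑ f : Fin n → Bool, ENNReal.ofReal (D.w (D.st n f)) • Measure.dirac (ext n a f)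

lemma win_CylB (hpos : ∀ n (f : Fin n → Bool), 0 ≤ D.w (D.st n f)) (c : Bool) {n : ℕ} {a : ℤ}
    {S : Finset ℤ} (hS : ∀ i ∈ S, a ≤ i ∧ i < a + n) :
    win D n a (CylB c S) = ENNReal.ofReal (D.w (D.G c n a S)) := by
  classical
  rw [win, Measure.finsetSum_apply, ← sum_st, map_sum, ENNReal.ofReal_sum_of_nonneg]
  · refine Finset.sum_congr rfl fun f _ => ?_
    rw [Measure.smul_apply, Measure.dirac_apply' _ (measurableSet_CylB c S), smul_eq_mul]
    by_cases h : ∀ i ∈ (S : Set ℤ), a ≤ i → i < a + (n : ℤ) → ext n a f i = c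
    · rw [if_pos h, Set.indicator_of_mem, Pi.one_apply, mul_one]
      intro i hi
      exact h i hi (hS i hi).1 (hS i hi).2
    · rw [if_neg h, Set.indicator_of_notMem, mul_zero, map_zero, ENNReal.ofReal_zero]
      intro h2
      exact h fun i hi _ _ => h2 i hi
  · intro f _
    split_ifs
    · exact hpos n f
    · simp

lemma win_prob (hpos : ∀ n (f : Fin n → Bool), 0 ≤ D.w (D.st n f)) (n : ℕ) (a : ℤ) :
    IsProbabilityMeasure (win D n a) := by
  constructor
  have h := win_CylB hpos true (n := n) (a := a) (S := ∅) (by simp)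
  have e : CylB true ∅ = Set.univ := by ext x; simp [CylB]
  rw [e, Finset.coe_empty, SD.G_empty _ _ (by simp), D.wv] at h
  simpa using h

lemma exists_measure (hpos : ∀ n (f : Fin n → Bool), 0 ≤ D.w (D.st n f)) :
    ∃ μ : ProbabilityMeasure (ℤ → Bool), ∀ (c : Bool) (S : Finset ℤ),
      (μ : Measure (ℤ → Bool)) (CylB c S) = ENNReal.ofReal (D.rho c S) := by
  set μs : ℕ → ProbabilityMeasure (ℤ → Bool) :=
    fun n => ⟨win D (2 * n) (-(n : ℤ)), win_prob hpos _ _⟩ with hμs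
  set U : Ultrafilter ℕ := Filter.hyperfilter ℕ
  obtain ⟨μ, -, hμ⟩ := isCompact_univ.ultrafilter_le_nhds (U.map μs) (by simp)
  have hμ' : Tendsto μs U (𝓝 μ) := hμ
  refine ⟨μ, fun c S => ?_⟩
  have h1 := ProbabilityMeasure.tendsto_measure_of_isClopen_of_tendsto hμ' (isClopen_CylB c S)
  have h2 : ∀ᶠ n in (U : Filter ℕ), μs n (CylB c S) = (ENNReal.ofReal (D.rho c S)).toNNReal := by
    have h3 : ∀ᶠ n in atTop, μs n (CylB c S) = (ENNReal.ofReal (D.rho c S)).toNNReal := by
      filter_upwards [eventually_ge_atTop (S.sup Int.natAbs + 1)] with n hn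
      have hnS : ∀ i ∈ S, -(n : ℤ) ≤ i ∧ i < n := by
        intro i hi
        have h1 : i.natAbs ≤ S.sup Int.natAbs := Finset.le_sup (f := Int.natAbs) hi
        omega
      have h4 := win_CylB hpos c (n := 2 * n) (a := -(n : ℤ)) (S := S) (fun i hi => by
        have := hnS i hi; push_cast; omega)
      rw [SD.rho_eq hnS] at h4
      change ((win D (2 * n) (-(n : ℤ))) (CylB c S)).toNNReal = _
      rw [h4]
    exact (Nat.hyperfilter_le_atTop h3)
  have h3 := tendsto_nhds_unique (h1.congr' h2) tendsto_const_nhds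
  have h4 : ((μ (CylB c S) : NNReal) : ENNReal) = (μ : Measure (ℤ → Bool)) (CylB c S) :=
    ProbabilityMeasure.ennreal_coeFn_eq_coeFn_toMeasure _ _
  rw [← h4, h3, ENNReal.coe_toNNReal ENNReal.ofReal_ne_top]

lemma G_nonneg (hpos : ∀ n (f : Fin n → Bool), 0 ≤ D.w (D.st n f)) (c : Bool) (n : ℕ) (a : ℤ)
    (S : Set ℤ) : 0 ≤ D.w (D.G c n a S) := by
  classical
  rw [← sum_st, map_sum]
  refine Finset.sum_nonneg fun f _ => ?_
  split_ifs
  · exact hpos n f
  · simp

/-- flip symmetry of the data -/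
lemma G_flip (σ : V →ₗ[ℝ] V) (hσv : σ D.v = D.v) (hσw : ∀ s, D.w (σ s) = D.w s)
    (hσ : ∀ s, D.M0 (σ s) = σ (D.M1 s)) (S : Set ℤ) : ∀ (n : ℕ) (a : ℤ),
    D.G false n a S = σ (D.G true n a S) := by
  intro n
  induction n with
  | zero => intro a; exact hσv.symm
  | succ n ih =>
    intro a
    by_cases ha : a ∈ S
    · rw [SD.G_pos ha, SD.G_pos ha, ih]
      exact hσ _
    · rw [SD.G_neg ha, SD.G_neg ha, ih, map_smul, hσw, hσv]

/-- the two-letter word `true true` -/
lemma rho_pair (c : Bool) : D.rho c {0, 1} = D.w (D.L c (D.L c D.v)) := by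
  have hn : ∀ j ∈ ({0, 1} : Finset ℤ), -((2 : ℕ) : ℤ) ≤ j ∧ j < ((2 : ℕ) : ℤ) := by
    intro j hj
    rw [Finset.mem_insert, Finset.mem_singleton] at hj
    push_cast
    omega
  rw [← SD.rho_eq hn]
  have e : 2 * 2 = 3 + 1 := rfl
  rw [e, SD.w_G_left (by simp)]
  have e2 : -((2 : ℕ) : ℤ) + 1 = -1 := by norm_num
  rw [e2, SD.w_G_left (by simp)]
  have e3 : -1 + 1 = (0 : ℤ) := by norm_num
  rw [e3, SD.G_pos (n := 1) (by simp), SD.G_pos (n := 0) (by simp)]
  rfl

theorem exists_signLaw (hpos : ∀ n (f : Fin n → Bool), 0 ≤ D.w (D.st n f))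
    (σ : V →ₗ[ℝ] V) (hσv : σ D.v = D.v) (hσw : ∀ s, D.w (σ s) = D.w s)
    (hσ : ∀ s, D.M0 (σ s) = σ (D.M1 s)) :
    ∃ Q : Measure (ℤ → Bool), SignLaw 2 Q ∧ chg Q = 1 - 2 * D.w (D.M1 (D.M1 D.v)) := by
  classical
  obtain ⟨μ, hμ⟩ := exists_measure hpos
  have hr : ∀ (c : Bool) (S : Finset ℤ), 0 ≤ D.rho c S := fun c S => G_nonneg hpos _ _ _ _
  have hfl : ∀ S : Finset ℤ, D.rho false S = D.rho true S := by
    intro S
    rw [SD.rho, G_flip σ hσv hσw hσ, hσw]
    rfl
  have hre : ∀ (c : Bool) (S : Finset ℤ), (μ : Measure (ℤ → Bool)).real (CylB c S) = D.rho c S := by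
    intro c S
    rw [Measure.real, hμ, ENNReal.toReal_ofReal (hr c S)]
  have hm1 : Measurable (fun (x : ℤ → Bool) (i : ℤ) => x (i + 1)) :=
    measurable_pi_iff.mpr fun i => measurable_pi_apply _
  have hm2 : Measurable (fun (x : ℤ → Bool) (i : ℤ) => !(x i)) :=
    measurable_pi_iff.mpr fun i =>
      (measurable_of_countable (fun b : Bool => !b)).comp (measurable_pi_apply i)
  refine ⟨(μ : Measure (ℤ → Bool)), ⟨inferInstance, ?_, ?_, ?_⟩, ?_⟩
  · -- stationarity
    have : IsProbabilityMeasure (Measure.map (fun (x : ℤ → Bool) (i : ℤ) => x (i + 1))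
      (μ : Measure (ℤ → Bool))) := Measure.isProbabilityMeasure_map hm1.aemeasurable
    refine ext_of_generate_finite _ pi_eq (isPiSystem_cylSys Set.univ) ?_ ?_
    · rintro s ⟨S, -, rfl⟩
      rw [Measure.map_apply hm1 (measurableSet_Cyl S)]
      have e1 : (fun (x : ℤ → Bool) (i : ℤ) => x (i + 1)) ⁻¹' Cyl S
          = CylB true (S.image (· + 1)) := by
        ext x
        simp only [Cyl, CylB, Set.mem_preimage, Set.mem_ofPred_eq, Finset.forall_mem_image]
      rw [e1, ← CylB_true, hμ, hμ,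
        SD.rho_shift (S := S.image (· + 1)) (S' := S) (fun i => by simp)]
    · rw [Measure.map_apply hm1 MeasurableSet.univ]
      rfl
  · -- flip
    have : IsProbabilityMeasure (Measure.map (fun (x : ℤ → Bool) (i : ℤ) => !(x i))
      (μ : Measure (ℤ → Bool))) := Measure.isProbabilityMeasure_map hm2.aemeasurable
    refine ext_of_generate_finite _ pi_eq (isPiSystem_cylSys Set.univ) ?_ ?_
    · rintro s ⟨S, -, rfl⟩
      rw [Measure.map_apply hm2 (measurableSet_Cyl S)]
      have e1 : (fun (x : ℤ → Bool) (i : ℤ) => !(x i)) ⁻¹' Cyl S = CylB false S := by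
        ext x
        simp [Cyl, CylB]
      rw [e1, ← CylB_true, hμ, hμ, hfl]
    · rw [Measure.map_apply hm2 MeasurableSet.univ]
      rfl
  · intro S T hST
    simp only [← CylB_true]
    rw [hre, hre, hre, SD.rho_union hST]
  · have e : {s : ℤ → Bool | s 0 ≠ s 1} = (CylB true {0, 1} ∪ CylB false {0, 1})ᶜ := by
      ext x
      simp only [CylB, Set.mem_ofPred_eq, Set.mem_compl_iff, Set.mem_union, Finset.mem_insert,
        Finset.mem_singleton, forall_eq_or_imp, forall_eq]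
      cases x 0 <;> cases x 1 <;> simp
    have hd : Disjoint (CylB true {0, 1}) (CylB false {0, 1}) := by
      rw [Set.disjoint_left]
      intro x h1 h2
      have h3 := h1 0 (by simp)
      have h4 := h2 0 (by simp)
      rw [h3] at h4
      exact absurd h4 (by simp)
    rw [chg, e, measureReal_compl ((measurableSet_CylB _ _).union (measurableSet_CylB _ _)),
      measureReal_union hd (measurableSet_CylB _ _), hre, hre, hfl, rho_pair]
    have h1 : (μ : Measure (ℤ → Bool)).real Set.univ = 1 := by simp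
    rw [h1]
    change 1 - (D.w (D.M1 (D.M1 D.v)) + D.w (D.M1 (D.M1 D.v))) = _
    ring

/-- linear maps of `ℝ × ℝ × ℝ` from their coordinates -/
noncomputable def mk3 (f g h : (ℝ × ℝ × ℝ) →ₗ[ℝ] ℝ) : (ℝ × ℝ × ℝ) →ₗ[ℝ] (ℝ × ℝ × ℝ) :=
  f.prod (g.prod h)

/-- the first coordinate -/
noncomputable def cg : (ℝ × ℝ × ℝ) →ₗ[ℝ] ℝ := LinearMap.fst ℝ ℝ (ℝ × ℝ)
/-- the second coordinate -/
noncomputable def co : (ℝ × ℝ × ℝ) →ₗ[ℝ] ℝ := (LinearMap.fst ℝ ℝ ℝ).comp (LinearMap.snd ℝ ℝ (ℝ × ℝ))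
/-- the third coordinate -/
noncomputable def ce : (ℝ × ℝ × ℝ) →ₗ[ℝ] ℝ := (LinearMap.snd ℝ ℝ ℝ).comp (LinearMap.snd ℝ ℝ (ℝ × ℝ))

lemma cg_apply (x : ℝ × ℝ × ℝ) : cg x = x.1 := rfl
lemma co_apply (x : ℝ × ℝ × ℝ) : co x = x.2.1 := rfl
lemma ce_apply (x : ℝ × ℝ × ℝ) : ce x = x.2.2 := rfl

/-- the concrete data, with parameter `s` (to be `1 / √3`) -/
noncomputable def data (s : ℝ) : SD (ℝ × ℝ × ℝ) where
  M0 := mk3 ((1 / 2 : ℝ) • (cg + ce)) ((-1 / 2 : ℝ) • ((s * (1 - s ^ 2)) • cg + s • ce))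
    ((-1 / 2 : ℝ) • co)
  M1 := mk3 ((1 / 2 : ℝ) • (cg + ce)) ((1 / 2 : ℝ) • ((s * (1 - s ^ 2)) • cg + s • ce))
    ((1 / 2 : ℝ) • co)
  w := cg + ce
  v := (1, 0, 0)
  wv := by simp [cg, ce]
  rk := by
    rintro ⟨g, o, e⟩
    simp only [mk3, LinearMap.prod_apply, Function.prod_apply, LinearMap.smul_apply,
      LinearMap.add_apply, cg_apply, co_apply, ce_apply, smul_eq_mul, Prod.mk_add_mk,
      Prod.smul_mk, mul_one, mul_zero]
    ext <;> simp <;> ring

lemma data_st_succ (s : ℝ) (n : ℕ) (f : Fin (n + 1) → Bool) :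
    (data s).st (n + 1) f = (data s).L (f 0) ((data s).st n (Fin.tail f)) := rfl

lemma data_M1 (s : ℝ) (x : ℝ × ℝ × ℝ) : (data s).M1 x =
    ((x.1 + x.2.2) / 2, (s * (1 - s ^ 2) * x.1 + s * x.2.2) / 2, x.2.1 / 2) := by
  simp only [data, mk3, LinearMap.prod_apply, Function.prod_apply, LinearMap.smul_apply,
      LinearMap.add_apply, cg_apply, co_apply, ce_apply, smul_eq_mul]
  ext <;> simp <;> ring

lemma data_M0 (s : ℝ) (x : ℝ × ℝ × ℝ) : (data s).M0 x =
    ((x.1 + x.2.2) / 2, -(s * (1 - s ^ 2) * x.1 + s * x.2.2) / 2, -x.2.1 / 2) := by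
  simp only [data, mk3, LinearMap.prod_apply, Function.prod_apply, LinearMap.smul_apply,
      LinearMap.add_apply, cg_apply, co_apply, ce_apply, smul_eq_mul]
  ext <;> simp <;> ring

lemma data_w (s : ℝ) (x : ℝ × ℝ × ℝ) : (data s).w x = x.1 + x.2.2 := rfl

/-- the invariant cone -/
def Good (s : ℝ) (x : ℝ × ℝ × ℝ) : Prop :=
  0 < x.1 ∧ x.2.1 ^ 2 + s ^ 2 * x.2.2 ^ 2 < s ^ 2 * (1 - s ^ 2) * x.1 ^ 2

lemma good_w {s : ℝ} (hs : 0 < s) {x : ℝ × ℝ × ℝ} (hx : Good s x) : 0 < x.1 + x.2.2 := by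
  obtain ⟨h1, h2⟩ := hx
  have h3 : 0 < s ^ 2 := by positivity
  have h4 : x.2.2 ^ 2 < x.1 ^ 2 := by
    have h5 : s ^ 2 * x.2.2 ^ 2 < s ^ 2 * x.1 ^ 2 := by nlinarith [sq_nonneg x.2.1, sq_nonneg (s ^ 2 * x.1)]
    exact lt_of_mul_lt_mul_left h5 h3.le
  have h6 := abs_lt_of_sq_lt_sq h4 h1.le
  have h7 := (abs_lt.mp h6).1
  linarith

lemma good_M1 {s : ℝ} (hs : 0 < s) {x : ℝ × ℝ × ℝ} (hx : Good s x) : Good s ((data s).M1 x) := by
  have hw := good_w hs hx
  obtain ⟨h1, h2⟩ := hx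
  rw [data_M1]
  refine ⟨by simpa using hw, ?_⟩
  have h3 : 0 < s ^ 2 := by positivity
  have h4 := mul_lt_mul_of_pos_left h2 h3
  simp only
  nlinarith [h4]

lemma good_M0 {s : ℝ} (hs : 0 < s) {x : ℝ × ℝ × ℝ} (hx : Good s x) : Good s ((data s).M0 x) := by
  have hw := good_w hs hx
  obtain ⟨h1, h2⟩ := hx
  rw [data_M0]
  refine ⟨by simpa using hw, ?_⟩
  have h3 : 0 < s ^ 2 := by positivity
  have h4 := mul_lt_mul_of_pos_left h2 h3
  simp only
  nlinarith [h4]

lemma good_st {s : ℝ} (hs : 0 < s) (hs1 : s ^ 2 < 1) : ∀ (n : ℕ) (f : Fin n → Bool),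
    Good s ((data s).st n f)
  | 0, _ => by
    change Good s (1, 0, 0)
    refine ⟨one_pos, ?_⟩
    have : 0 < s ^ 2 * (1 - s ^ 2) := mul_pos (by positivity) (by linarith)
    simpa using this
  | n + 1, f => by
    have ih := good_st hs hs1 n (Fin.tail f)
    rw [data_st_succ]
    unfold SD.L
    split_ifs
    · exact good_M1 hs ih
    · exact good_M0 hs ih

/-- the reflection -/
noncomputable def refl3 : (ℝ × ℝ × ℝ) →ₗ[ℝ] (ℝ × ℝ × ℝ) := mk3 cg (-co) ce

lemma refl3_apply (x : ℝ × ℝ × ℝ) : refl3 x = (x.1, -x.2.1, x.2.2) := rfl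

/-- there is a sign law of range two with correlation `2 / (3 √3)` -/
theorem seq : ∃ Q : Measure (ℤ → Bool), SignLaw 2 Q ∧ chg Q = 1 / 2 - 1 / (3 * √3) := by
  have h3 : (0 : ℝ) < √3 := Real.sqrt_pos.mpr (by norm_num)
  have h3' : √3 ^ 2 = (3 : ℝ) := Real.sq_sqrt (by norm_num)
  set s : ℝ := 1 / √3 with hs
  have hs0 : 0 < s := by positivity
  have hs2 : s ^ 2 = 1 / 3 := by rw [hs, div_pow, h3', one_pow]
  obtain ⟨Q, hQ, hc⟩ := exists_signLaw (D := data s)
    (fun n f => (good_w hs0 (good_st hs0 (by rw [hs2]; norm_num) n f)).le) refl3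
    (by rw [refl3_apply]; simp [data])
    (fun x => by rw [refl3_apply, data_w, data_w])
    (fun x => by
      rw [data_M0, data_M1, refl3_apply, refl3_apply]
      simp only
      ext <;> simp
      ring)
  refine ⟨Q, hQ, ?_⟩
  rw [hc, data_w, data_M1, data_M1]
  change 1 - 2 * (((((1 : ℝ) + 0) / 2) + 0 / 2) / 2 +
    ((s * (1 - s ^ 2) * 1 + s * 0) / 2) / 2) = _
  rw [hs2, hs]
  field_simp
  ring

end HC38bc51.HC
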