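import Mathlib
import Pool.Agent.Work.MP_38bc51_pr.HC.Hard
import Pool.Agent.Work.MP_38bc51_pr.HC.Seq
import Pool.Agent.Work.MP_38bc51_pr.HC.Mix
import Pool.Agent.Work.MP_38bc51_pr.HC.Cells

/-!
# Lower bounds for the critical density
-/

namespace HC38bc51.HC

open MeasureTheory ProbabilityTheory

variable {m k : ℕ} {Q : Measure (ℤ → Bool)}

/-- integral of a function of a bounded integer variable -/
theorem integral_nat {d : (ℤ → ℝ) → ℕ} (hd : Measurable d) {N : ℕ} (hN : ∀ ω, d ω ≤ N)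
    (f : ℕ → ℝ) :
    ∫ ω, f (d ω) ∂AllK.Pr = ∑ v ∈ Finset.range (N + 1), f v * AllK.Pr.real {ω | d ω = v} := by
  have hm : ∀ v : ℕ, MeasurableSet {ω | d ω = v} := fun v => hd (measurableSet_singleton v)
  have e1 : ∀ ω, f (d ω)
      = ∑ v ∈ Finset.range (N + 1), ({ω | d ω = v} : Set (ℤ → ℝ)).indicator (fun _ => f v) ω := by
    intro ω
    rw [Finset.sum_eq_single (d ω)]
    · rw [Set.indicator_of_mem]
      rfl
    · intro v _ hv
      rw [Set.indicator_of_notMem]
      intro h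
      exact hv h.symm
    · intro h
      exact absurd (Finset.mem_range.2 (Nat.lt_succ_of_le (hN ω))) h
  simp_rw [e1]
  rw [integral_finsetSum]
  · refine Finset.sum_congr rfl fun v _ => ?_
    rw [integral_indicator_const _ (hm v), smul_eq_mul, mul_comm]
  · intro v _
    exact (integrable_const _).indicator (hm v)

/-- `P (s a = s b = +)` for distinct indices in terms of sign changes -/
theorem SignLaw.half (hQ : SignLaw m Q) (a : ℤ) : Q.real (Cyl {a}) = 1 / 2 := by
  have := hQ.prob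
  have e1 : Cyl {a} = {s : ℤ → Bool | s a = true} := by
    ext s; simp [Cyl]
  have hmt : MeasurableSet {s : ℤ → Bool | s a = true} := e1 ▸ measurableSet_Cyl {a}
  have e2 : Q.real {s : ℤ → Bool | s a = false} = Q.real {s : ℤ → Bool | s a = true} := by
    unfold Measure.real
    conv_rhs => rw [← hQ.flip]
    rw [Measure.map_apply measurable_flip hmt]
    congr 2
    ext s
    simp
  have e3 : {s : ℤ → Bool | s a = true}ᶜ = {s : ℤ → Bool | s a = false} := by
    ext s; simp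
  have e4 := probReal_compl_eq_one_sub (μ := Q) hmt
  rw [e3, e2] at e4
  rw [e1]
  linarith

theorem SignLaw.far (hQ : SignLaw m Q) {a b : ℤ} (hab : (m : ℤ) ≤ |a - b|) :
    Q.real {s : ℤ → Bool | s a ≠ s b} = 1 / 2 := by
  have := hQ.prob
  have hm0 : Measurable (fun s : ℤ → Bool => (s a, s b)) :=
    (measurable_pi_apply a).prodMk (measurable_pi_apply b)
  have hm : ∀ A : Set (Bool × Bool), MeasurableSet {s : ℤ → Bool | (s a, s b) ∈ A} := fun A =>
    hm0 (Set.toFinite A).measurableSet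
  have hm11 : MeasurableSet {s : ℤ → Bool | s a = true ∧ s b = true} := by
    have := hm {(true, true)}
    simpa using this
  have hm00 : MeasurableSet {s : ℤ → Bool | s a = false ∧ s b = false} := by
    have := hm {(false, false)}
    simpa using this
  have hne : MeasurableSet {s : ℤ → Bool | s a ≠ s b} := by
    have := hm {p | p.1 ≠ p.2}
    simpa using this
  have e0 : Q.real {s : ℤ → Bool | s a = true ∧ s b = true} = 1 / 4 := by
    have h := hQ.dep {a} {b} (by simpa using hab)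
    rw [hQ.half, hQ.half] at h
    have e : Cyl ({a} ∪ {b}) = {s : ℤ → Bool | s a = true ∧ s b = true} := by
      ext s
      simp [Cyl]
    rw [e] at h
    rw [h]; norm_num
  have e2 : Q.real {s : ℤ → Bool | s a = false ∧ s b = false}
      = Q.real {s : ℤ → Bool | s a = true ∧ s b = true} := by
    unfold Measure.real
    conv_rhs => rw [← hQ.flip]
    rw [Measure.map_apply measurable_flip hm11]
    congr 2
    ext s
    simp
  have e3 := probReal_compl_eq_one_sub (μ := Q) hne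
  have e4 : {s : ℤ → Bool | s a ≠ s b}ᶜ
      = {s | s a = true ∧ s b = true} ∪ {s | s a = false ∧ s b = false} := by
    ext s
    simp only [Set.mem_compl_iff, Set.mem_ofPred_eq, Set.mem_union]
    cases s a <;> cases s b <;> simp
  rw [e4, measureReal_union _ hm00, e2, e0] at e3
  · linarith
  · rw [Set.disjoint_left]
    rintro s ⟨h1, -⟩ ⟨h2, -⟩
    rw [h1] at h2
    exact Bool.noConfusion h2

/-- the renormalisation inequality -/
theorem renorm (hm : 1 ≤ m) {h : ℕ} (hh : 1 ≤ h) (hQ : SignLaw m Q) :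
    ∃ Q' : Measure (ℤ → Bool), SignLaw (m * h) Q' ∧ chg Q' = ((m : ℝ) + 1) / (m * h + 1) * chg Q := by
  obtain ⟨d, hd, hd1, hsum, hp⟩ := cellsA m h hm hh
  obtain ⟨Q', hQ', e⟩ := mix (k := m * h) (Nat.mul_pos hm hh) hQ hd hsum
  refine ⟨Q', hQ', ?_⟩
  rw [e, integral_nat (hd.mono (AllK.sig_le _) le_rfl) hd1
    (fun v => Q.real {s : ℤ → Bool | s 0 ≠ s (v : ℤ)})]
  rw [Finset.sum_range_succ, Finset.sum_range_one, hp]
  simp [chg]
  ring

theorem even_case {h : ℕ} (hh : 1 ≤ h) :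
    1 / 2 - (3 - 2 / √3) / (4 * ((2 * h : ℕ) + 1)) ≤ pcrit (2 * h) := by
  obtain ⟨Q, hQ, hc⟩ := seq
  obtain ⟨Q', hQ', e⟩ := renorm (m := 2) (by norm_num) hh hQ
  have h1 := hard hQ'
  rw [e, hc] at h1
  refine le_trans (le_of_eq ?_) h1
  have h3 : (√3 : ℝ) ≠ 0 := by positivity
  have h4 : (2 * (h : ℝ) + 1) ≠ 0 := by positivity
  push_cast
  field_simp
  ring

theorem odd_case {h : ℕ} (hh : 1 ≤ h) :
    1 / 2 - (3 - 2 / √3 + 2 / (3 * √3 * (2 * h + 1 : ℕ))) / (4 * ((2 * h + 1 : ℕ) + 1))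
      ≤ pcrit (2 * h + 1) := by
  obtain ⟨Q, hQ, hc⟩ := seq
  obtain ⟨d, hd, hd2, hsum, hp2, hp1⟩ := cellsB h hh
  obtain ⟨Q', hQ', e⟩ := mix (k := 2 * h + 1) (by omega) hQ hd hsum
  rw [integral_nat (hd.mono (AllK.sig_le _) le_rfl) hd2
    (fun v => Q.real {s : ℤ → Bool | s 0 ≠ s (v : ℤ)}), Finset.sum_range_succ,
    Finset.sum_range_succ, Finset.sum_range_one] at e
  have e2 : Q.real {s : ℤ → Bool | s 0 ≠ s ((2 : ℕ) : ℤ)} = 1 / 2 := hQ.far (by norm_num)
  have e1 : Q.real {s : ℤ → Bool | s 0 ≠ s ((1 : ℕ) : ℤ)} = chg Q := by simp [chg]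
  have e0 : Q.real {s : ℤ → Bool | s 0 ≠ s ((0 : ℕ) : ℤ)} = 0 := by simp
  rw [e0, e1, e2, hp1, hp2, hc] at e
  have h1 := hard hQ'
  rw [e] at h1
  refine le_trans (le_of_eq ?_) h1
  have h3 : (√3 : ℝ) ≠ 0 := by positivity
  have h4 : (2 * (h : ℝ) + 1) ≠ 0 := by positivity
  have h5 : (2 * (h : ℝ) + 2) ≠ 0 := by positivity
  push_cast
  have e6 : (2 * (h : ℝ) + 1 + 1) = 2 * h + 2 := by ring
  rw [e6]
  field_simp
  ring

theorem sqrt3_bounds : (1.732 : ℝ) < √3 ∧ √3 < 1.7321 := by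
  constructor
  · rw [Real.lt_sqrt (by norm_num)]; norm_num
  · rw [Real.sqrt_lt' (by norm_num)]; norm_num

/-- the critical density is larger than `k / (2 (k + 1))` for all `k ≥ 2` -/
theorem pcrit_gt (hk : 2 ≤ k) : (k : ℝ) / (2 * ((k : ℝ) + 1)) < pcrit k := by
  obtain ⟨b1, b2⟩ := sqrt3_bounds
  have h3 : (0 : ℝ) < √3 := by positivity
  have hinv : 2 / √3 > 1.1546 := by
    rw [gt_iff_lt, lt_div_iff₀ h3]
    linarith
  rcases Nat.even_or_odd' k with ⟨h, rfl | rfl⟩
  · refine lt_of_lt_of_le ?_ (even_case (h := h) (by omega))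
    have h4 : (0 : ℝ) < (2 * h : ℕ) + 1 := by positivity
    have e : ((2 * h : ℕ) : ℝ) / (2 * (((2 * h : ℕ) : ℝ) + 1)) = 1 / 2 - 2 / (4 * ((2 * h : ℕ) + 1)) := by
      field_simp
      ring
    rw [e]
    have : (3 - 2 / √3) / (4 * (((2 * h : ℕ) : ℝ) + 1)) < 2 / (4 * ((2 * h : ℕ) + 1)) := by
      apply div_lt_div_of_pos_right _ (by positivity)
      linarith
    linarith
  · refine lt_of_lt_of_le ?_ (odd_case (h := h) (by omega))
    have hh : (1 : ℝ) ≤ h := by exact_mod_cast (by omega : 1 ≤ h)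
    have h4 : (0 : ℝ) < (2 * h + 1 : ℕ) + 1 := by positivity
    have e : ((2 * h + 1 : ℕ) : ℝ) / (2 * (((2 * h + 1 : ℕ) : ℝ) + 1))
        = 1 / 2 - 2 / (4 * ((2 * h + 1 : ℕ) + 1)) := by
      field_simp
      ring
    rw [e]
    have h5 : 2 / (3 * √3 * ((2 * h + 1 : ℕ) : ℝ)) ≤ 2 / √3 / 9 := by
      rw [div_div]
      apply div_le_div_of_nonneg_left (by norm_num) (by positivity)
      push_cast
      nlinarith
    have h6 : 2 / √3 < 1.155 := by
      rw [div_lt_iff₀ h3]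
      linarith
    have : (3 - 2 / √3 + 2 / (3 * √3 * ((2 * h + 1 : ℕ) : ℝ))) / (4 * (((2 * h + 1 : ℕ) : ℝ) + 1))
        < 2 / (4 * ((2 * h + 1 : ℕ) + 1)) := by
      apply div_lt_div_of_pos_right _ (by positivity)
      linarith
    linarith

end HC38bc51.HC
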