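import Mathlib
import Pool.Agent.Work.MP_38bc51_pr.HC.Base
import Pool.Agent.Work.MP_38bc51_pr.HC.Seq
import Pool.Agent.Work.MP_38bc51_pr.HC.Hard
import Pool.Agent.Work.MP_38bc51_pr.AllK.Upper

/-!
# The limit of `k (1 / 2 - p_k)`

A `k`-dependent hard-core process of density `p`, read along the multiples of an even number `h`
with `m h ≥ k + 1`, is a sign sequence of range `m`, up to an asymmetry of order `1 - 2 p`; the
probability of a sign change is at most `h (1 - 2 p)`. A weak limit is a sign law of range `m`.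
-/

namespace HC38bc51.HC

open MeasureTheory ProbabilityTheory Filter Topology

variable {k : ℕ} {Ω : Type} [MeasurableSpace Ω] {P : Measure Ω} {X : ℤ → Ω → Bool}

/-- the shift by `n` steps preserves the law -/
theorem law_shift (h : IsHardCore k P X) (n : ℕ) :
    P.map (fun ω i => X (i + n) ω) = P.map (fun ω i => X i ω) := by
  induction n with
  | zero => simp
  | succ n ih =>
    have hm : ∀ c : ℤ, Measurable (fun ω (i : ℤ) => X (i + c) ω) := fun c =>
      measurable_pi_iff.2 fun j => h.meas (j + c)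
    have hm0 : Measurable (fun ω (i : ℤ) => X i ω) := measurable_pi_iff.2 fun j => h.meas j
    have hs : Measurable (fun (x : ℤ → Bool) (i : ℤ) => x (i + n)) :=
      measurable_pi_iff.2 fun j => measurable_pi_apply _
    have h1 := congrArg (Measure.map (fun (x : ℤ → Bool) (i : ℤ) => x (i + n))) h.stat
    rw [Measure.map_map hs (hm 1), Measure.map_map hs hm0] at h1
    rw [← ih]
    have e1 : (fun (x : ℤ → Bool) (i : ℤ) => x (i + n)) ∘ (fun ω (i : ℤ) => X (i + 1) ω)
        = fun ω (i : ℤ) => X (i + ((n + 1 : ℕ) : ℤ)) ω := by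
      funext ω i
      simp only [Function.comp_apply]
      congr 1
      push_cast
      ring
    rw [e1] at h1
    exact h1

theorem law_shift_real (h : IsHardCore k P X) (n : ℕ) {s : Set (ℤ → Bool)} (hs : MeasurableSet s) :
    P.real {ω | (fun i : ℤ => X (i + n) ω) ∈ s} = P.real {ω | (fun i : ℤ => X i ω) ∈ s} := by
  have h1 : (P.map (fun ω i => X (i + n) ω)).real s = (P.map (fun ω i => X i ω)).real s := by
    rw [law_shift h n]
  rw [map_measureReal_apply (measurable_pi_iff.2 fun j => h.meas (j + n)) hs,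
    map_measureReal_apply (measurable_pi_iff.2 fun j => h.meas j) hs] at h1
  exact h1

/-- the probability of a defect at the origin -/
theorem defect0 (h : IsHardCore k P X) :
    P.real {ω | X 0 ω = X 1 ω} = 1 - 2 * P.real {ω | X 0 ω = true} := by
  rw [← AllK.prob_def h 0]
  refine measureReal_congr ?_
  filter_upwards [h.hard] with ω hω
  have h1 : ¬ (X 0 ω = true ∧ X 1 ω = true) := fun h2 => hω ⟨0, h2.1, by simpa using h2.2⟩
  refine propext ?_
  change X 0 ω = X 1 ω ↔ X ((0 : ℕ) : ℤ) ω = false ∧ X ((0 + 1 : ℕ) : ℤ) ω = false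
  have e : (((0 + 1 : ℕ)) : ℤ) = 1 := by norm_num
  rw [e, Nat.cast_zero]
  cases hx : X 0 ω <;> cases hy : X 1 ω <;> simp_all

theorem measurableSet_eq (i j : ℤ) : MeasurableSet {x : ℤ → Bool | x i = x j} :=
  measurableSet_eq_fun (measurable_pi_apply i) (measurable_pi_apply j)

/-- the probability of a defect -/
theorem defect (h : IsHardCore k P X) (i : ℤ) :
    P.real {ω | X i ω = X (i + 1) ω} = 1 - 2 * P.real {ω | X 0 ω = true} := by
  rw [← defect0 h]
  rcases le_total 0 i with hi | hi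
  · obtain ⟨n, rfl⟩ := Int.eq_ofNat_of_zero_le hi
    have h1 := law_shift_real h n (measurableSet_eq 0 1)
    simp only [Set.mem_ofPred_eq, zero_add] at h1
    rw [add_comm (n : ℤ) 1]
    exact h1
  · obtain ⟨n, hn⟩ := Int.eq_ofNat_of_zero_le (a := -i) (by omega)
    have h1 := law_shift_real h n (measurableSet_eq i (i + 1))
    simp only [Set.mem_ofPred_eq] at h1
    have e1 : i + (n : ℤ) = 0 := by omega
    have e2 : i + 1 + (n : ℤ) = 1 := by omega
    rw [e1, e2] at h1
    exact h1.symm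

theorem measurableSet_eqX (h : IsHardCore k P X) (i j : ℤ) : MeasurableSet {ω | X i ω = X j ω} :=
  measurableSet_eq_fun (h.meas i) (h.meas j)

/-- alternation without defects -/
theorem alternate (x : ℤ → Bool) : ∀ g : ℕ, (∀ j : ℕ, j < 2 * g → x j ≠ x (j + 1)) →
    x 0 = x (2 * g : ℕ)
  | 0, _ => rfl
  | g + 1, h => by
    have ih := alternate x g fun j hj => h j (by omega)
    have h1 := h (2 * g) (by omega)
    have h2 := h (2 * g + 1) (by omega)
    rw [ih]
    have e1 : ((2 * g + 1 : ℕ) : ℤ) = ((2 * g : ℕ) : ℤ) + 1 := by push_cast; ring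
    have e2 : ((2 * (g + 1) : ℕ) : ℤ) = ((2 * g + 1 : ℕ) : ℤ) + 1 := by push_cast; ring
    rw [e2]
    rw [e1] at h2 ⊢
    revert h1 h2
    generalize x ((2 * g : ℕ) : ℤ) = a
    generalize x (((2 * g : ℕ) : ℤ) + 1) = b
    generalize x (((2 * g : ℕ) : ℤ) + 1 + 1) = c
    cases a <;> cases b <;> cases c <;> simp

/-- the sequence read along the multiples of an even `h` -/
theorem pre {m h : ℕ} (he : Even h) (hkm : k + 1 ≤ m * h) (hX : IsHardCore k P X) :
    ∃ ν : ProbabilityMeasure (ℤ → Bool),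
      (∀ S : Finset ℤ, (ν : Measure (ℤ → Bool)).real (Cyl (S.image (· + 1)))
        = (ν : Measure (ℤ → Bool)).real (Cyl S)) ∧
      (∀ S : Finset ℤ, |(ν : Measure (ℤ → Bool)).real (CylB false S)
        - (ν : Measure (ℤ → Bool)).real (Cyl S)| ≤ S.card * (1 - 2 * P.real {ω | X 0 ω = true})) ∧
      (∀ S T : Finset ℤ, (∀ a ∈ S, ∀ b ∈ T, (m : ℤ) ≤ |a - b|) →
        (ν : Measure (ℤ → Bool)).real (Cyl (S ∪ T))
          = (ν : Measure (ℤ → Bool)).real (Cyl S) * (ν : Measure (ℤ → Bool)).real (Cyl T)) ∧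
      chg (ν : Measure (ℤ → Bool)) ≤ h * (1 - 2 * P.real {ω | X 0 ω = true}) := by
  classical
  have := hX.prob
  have hY : Measurable (fun ω (i : ℤ) => X (h * i) ω) :=
    measurable_pi_iff.2 fun i => hX.meas (h * i)
  have hprob : IsProbabilityMeasure (P.map (fun ω (i : ℤ) => X (h * i) ω)) :=
    Measure.isProbabilityMeasure_map hY.aemeasurable
  have hC : ∀ (c : Bool) (S : Finset ℤ), (P.map (fun ω (i : ℤ) => X (h * i) ω)).real (CylB c S)
      = P.real {ω | ∀ i ∈ S, X (h * i) ω = c} := by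
    intro c S
    rw [map_measureReal_apply hY (measurableSet_CylB c S)]
    rfl
  have hms : ∀ (c : Bool) (S : Finset ℤ) (f : ℤ → ℤ),
      MeasurableSet {x : ℤ → Bool | ∀ i ∈ S, x (f i) = c} := by
    intro c S f
    have e : {x : ℤ → Bool | ∀ i ∈ S, x (f i) = c}
        = ⋂ i ∈ S, (fun x : ℤ → Bool => x (f i)) ⁻¹' {c} := by
      ext x; simp
    rw [e]
    exact Finset.measurableSet_biInter _ fun i _ =>
      (measurable_pi_apply (f i)) (measurableSet_singleton c)
  refine ⟨⟨P.map (fun ω (i : ℤ) => X (h * i) ω), hprob⟩, ?_, ?_, ?_, ?_⟩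
  · intro S
    change (P.map (fun ω (i : ℤ) => X (h * i) ω)).real (CylB true (S.image (· + 1)))
      = (P.map (fun ω (i : ℤ) => X (h * i) ω)).real (CylB true S)
    rw [hC, hC]
    refine Eq.trans ?_ (law_shift_real hX h (hms true S (fun i => h * i)))
    congr 1
    ext ω
    simp only [Set.mem_ofPred_eq, Finset.forall_mem_image]
    have e : ∀ i : ℤ, (h : ℤ) * (i + 1) = h * i + h := fun i => by ring
    simp only [e]
  · intro S
    change |(P.map (fun ω (i : ℤ) => X (h * i) ω)).real (CylB false S)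
      - (P.map (fun ω (i : ℤ) => X (h * i) ω)).real (CylB true S)| ≤ _
    rw [hC, hC]
    have h1 := law_shift_real hX 1 (hms true S (fun i => h * i))
    have h1' : P.real {ω | ∀ i ∈ S, X (h * i) ω = true}
        = P.real {ω | ∀ i ∈ S, X (h * i + 1) ω = true} := by
      simp only [Set.mem_ofPred_eq, Nat.cast_one] at h1
      exact h1.symm
    rw [h1']
    set D : Set Ω := ⋃ i ∈ S, {ω | X (h * i) ω = X (h * i + 1) ω} with hD
    have hDP : P.real D ≤ S.card * (1 - 2 * P.real {ω | X 0 ω = true}) := by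
      refine (measureReal_biUnion_finset_le _ _).trans ?_
      rw [Finset.sum_congr rfl fun i _ => defect hX (h * i), Finset.sum_const, nsmul_eq_mul]
    have h2 : P.real {ω | ∀ i ∈ S, X (h * i) ω = false}
        ≤ P.real {ω | ∀ i ∈ S, X (h * i + 1) ω = true} + P.real D := by
      refine (measureReal_mono ?_).trans (measureReal_union_le _ _)
      intro ω hω
      by_contra hcon
      rw [Set.mem_union, not_or] at hcon
      apply hcon.1
      intro i hi
      have h3 : ¬ X (h * i) ω = X (h * i + 1) ω := fun h4 =>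
        hcon.2 (Set.mem_biUnion hi h4)
      rw [hω i hi] at h3
      cases h5 : X (h * i + 1) ω
      · exact absurd h5.symm h3
      · rfl
    have h3 : P.real {ω | ∀ i ∈ S, X (h * i + 1) ω = true}
        ≤ P.real {ω | ∀ i ∈ S, X (h * i) ω = false} + P.real D := by
      refine (measureReal_mono ?_).trans (measureReal_union_le _ _)
      intro ω hω
      by_contra hcon
      rw [Set.mem_union, not_or] at hcon
      apply hcon.1
      intro i hi
      have h3 : ¬ X (h * i) ω = X (h * i + 1) ω := fun h4 =>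
        hcon.2 (Set.mem_biUnion hi h4)
      rw [hω i hi] at h3
      cases h5 : X (h * i) ω
      · rfl
      · exact absurd h5 h3
    rw [abs_le]
    constructor <;> linarith
  · intro S T hST
    change (P.map (fun ω (i : ℤ) => X (h * i) ω)).real (CylB true (S ∪ T))
      = (P.map (fun ω (i : ℤ) => X (h * i) ω)).real (CylB true S)
        * (P.map (fun ω (i : ℤ) => X (h * i) ω)).real (CylB true T)
    rw [hC, hC, hC]
    have hdep := hX.dep ((fun i : ℤ => (h : ℤ) * i) '' (S : Set ℤ))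
      ((fun i : ℤ => (h : ℤ) * i) '' (T : Set ℤ)) (by
        rintro _ ⟨a, ha, rfl⟩ _ ⟨b, hb, rfl⟩
        have h1 := hST a ha b hb
        have h2 : |(h : ℤ) * a - h * b| = h * |a - b| := by
          rw [← mul_sub, abs_mul, Nat.abs_cast]
        simp only
        rw [h2]
        have h3 : ((k : ℤ) + 1) ≤ m * h := by exact_mod_cast hkm
        have h4 : (0 : ℤ) ≤ h := Int.natCast_nonneg h
        nlinarith [mul_le_mul_of_nonneg_left h1 h4])
    have hset : ∀ A : Set ℤ, MeasurableSet {y : A → Bool | ∀ a, y a = true} := by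
      intro A
      have e : {y : A → Bool | ∀ a, y a = true} = ⋂ a, (fun y : A → Bool => y a) ⁻¹' {true} := by
        ext y; simp
      rw [e]
      exact MeasurableSet.iInter fun a => (measurable_pi_apply a) (measurableSet_singleton true)
    have h5 := hdep.measure_inter_preimage_eq_mul _ _ (hset _) (hset _)
    have h6 := congrArg ENNReal.toReal h5
    rw [ENNReal.toReal_mul] at h6
    have e1 : ∀ S : Finset ℤ, (fun ω (a : ((fun i : ℤ => (h : ℤ) * i) '' (S : Set ℤ))) => X a ω) ⁻¹'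
        {y | ∀ a, y a = true} = {ω | ∀ i ∈ S, X (h * i) ω = true} := by
      intro S
      ext ω
      simp
    rw [e1, e1] at h6
    have e2 : {ω | ∀ i ∈ S ∪ T, X (h * i) ω = true}
        = {ω | ∀ i ∈ S, X (h * i) ω = true} ∩ {ω | ∀ i ∈ T, X (h * i) ω = true} := by
      ext ω
      simp only [Finset.mem_union, Set.mem_inter_iff, Set.mem_ofPred_eq]
      constructor
      · intro h7
        exact ⟨fun i hi => h7 i (Or.inl hi), fun i hi => h7 i (Or.inr hi)⟩
      · rintro ⟨h7, h8⟩ i (hi | hi)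
        · exact h7 i hi
        · exact h8 i hi
    rw [e2]
    exact h6
  · obtain ⟨g, hg⟩ := he
    have hg2 : h = 2 * g := by omega
    change (P.map (fun ω (i : ℤ) => X (h * i) ω)).real {s : ℤ → Bool | s 0 ≠ s 1} ≤ _
    have hne : MeasurableSet {s : ℤ → Bool | s 0 ≠ s 1} := (measurableSet_eq 0 1).compl
    rw [map_measureReal_apply hY hne]
    have hsub : (fun ω (i : ℤ) => X (h * i) ω) ⁻¹' {s : ℤ → Bool | s 0 ≠ s 1}
        ⊆ ⋃ j ∈ Finset.range h, {ω | X (j : ℤ) ω = X ((j : ℤ) + 1) ω} := by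
      intro ω hω
      by_contra hcon
      apply hω
      have h1 := alternate (fun i => X i ω) g (by
        intro j hj h2
        exact hcon (Set.mem_biUnion (Finset.mem_coe.2 (Finset.mem_range.2 (by omega))) h2))
      simp only [mul_zero, mul_one]
      rw [hg2]
      exact h1
    refine (measureReal_mono hsub (measure_ne_top _ _)).trans
      ((measureReal_biUnion_finset_le _ _).trans ?_)
    rw [Finset.sum_congr rfl fun (j : ℕ) _ => defect hX (j : ℤ), Finset.sum_const, nsmul_eq_mul,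
      Finset.card_range]

/-- weak limits of almost sign laws -/
theorem limit_of_approx {m : ℕ} {c : ℝ} (ν : ℕ → ProbabilityMeasure (ℤ → Bool)) (ε : ℕ → ℝ)
    (hε : Tendsto ε atTop (𝓝 0))
    (h1 : ∀ (n : ℕ) (S : Finset ℤ), (ν n : Measure (ℤ → Bool)).real (Cyl (S.image (· + 1)))
        = (ν n : Measure (ℤ → Bool)).real (Cyl S))
    (h2 : ∀ (n : ℕ) (S : Finset ℤ), |(ν n : Measure (ℤ → Bool)).real (CylB false S)
        - (ν n : Measure (ℤ → Bool)).real (Cyl S)| ≤ S.card * ε n)
    (h3 : ∀ (n : ℕ) (S T : Finset ℤ), (∀ a ∈ S, ∀ b ∈ T, (m : ℤ) ≤ |a - b|) →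
        (ν n : Measure (ℤ → Bool)).real (Cyl (S ∪ T))
          = (ν n : Measure (ℤ → Bool)).real (Cyl S) * (ν n : Measure (ℤ → Bool)).real (Cyl T))
    (h4 : ∀ n : ℕ, chg (ν n : Measure (ℤ → Bool)) ≤ c + ε n) :
    ∃ Q : Measure (ℤ → Bool), SignLaw m Q ∧ chg Q ≤ c := by
  classical
  set U : Ultrafilter ℕ := Filter.hyperfilter ℕ
  obtain ⟨μ, -, hμ⟩ := isCompact_univ.ultrafilter_le_nhds (U.map ν) (by simp)
  have hμ' : Tendsto ν U (𝓝 μ) := hμ
  have hU : (U : Filter ℕ) ≤ atTop := Nat.hyperfilter_le_atTop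
  have lim : ∀ {s : Set (ℤ → Bool)}, IsClopen s →
      Tendsto (fun n => (ν n : Measure (ℤ → Bool)).real s) U
        (𝓝 ((μ : Measure (ℤ → Bool)).real s)) := by
    intro s hs
    have h5 := ProbabilityMeasure.tendsto_measure_of_isClopen_of_tendsto hμ' hs
    exact (NNReal.tendsto_coe.mpr h5)
  have limC : ∀ S : Finset ℤ, Tendsto (fun n => (ν n : Measure (ℤ → Bool)).real (Cyl S)) U
        (𝓝 ((μ : Measure (ℤ → Bool)).real (Cyl S))) := fun S => lim (isClopen_Cyl S)
  have hε' : Tendsto ε U (𝓝 0) := hε.mono_left hU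
  have hm1 : Measurable (fun (x : ℤ → Bool) (i : ℤ) => x (i + 1)) :=
    measurable_pi_iff.mpr fun i => measurable_pi_apply _
  have hm2 : Measurable (fun (x : ℤ → Bool) (i : ℤ) => !(x i)) :=
    measurable_pi_iff.mpr fun i =>
      (measurable_of_countable (fun b : Bool => !b)).comp (measurable_pi_apply i)
  have real_inj : ∀ {s t : Set (ℤ → Bool)}, (μ : Measure (ℤ → Bool)).real s
      = (μ : Measure (ℤ → Bool)).real t → (μ : Measure (ℤ → Bool)) s = (μ : Measure (ℤ → Bool)) t := by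
    intro s t hst
    exact (measureReal_eq_measureReal_iff).mp hst
  refine ⟨(μ : Measure (ℤ → Bool)), ⟨inferInstance, ?_, ?_, ?_⟩, ?_⟩
  · have : IsProbabilityMeasure (Measure.map (fun (x : ℤ → Bool) (i : ℤ) => x (i + 1))
      (μ : Measure (ℤ → Bool))) := Measure.isProbabilityMeasure_map hm1.aemeasurable
    refine ext_of_generate_finite _ pi_eq (isPiSystem_cylSys Set.univ) ?_ ?_
    · rintro s ⟨S, -, rfl⟩
      rw [Measure.map_apply hm1 (measurableSet_Cyl S)]
      have e1 : (fun (x : ℤ → Bool) (i : ℤ) => x (i + 1)) ⁻¹' Cyl S = Cyl (S.image (· + 1)) := by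
        ext x
        simp only [Cyl, Set.mem_preimage, Set.mem_ofPred_eq, Finset.forall_mem_image]
      rw [e1]
      refine real_inj (tendsto_nhds_unique (limC _) ?_)
      exact (limC S).congr fun n => (h1 n S).symm
    · rw [Measure.map_apply hm1 MeasurableSet.univ]
      rfl
  · have : IsProbabilityMeasure (Measure.map (fun (x : ℤ → Bool) (i : ℤ) => !(x i))
      (μ : Measure (ℤ → Bool))) := Measure.isProbabilityMeasure_map hm2.aemeasurable
    refine ext_of_generate_finite _ pi_eq (isPiSystem_cylSys Set.univ) ?_ ?_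
    · rintro s ⟨S, -, rfl⟩
      rw [Measure.map_apply hm2 (measurableSet_Cyl S)]
      have e1 : (fun (x : ℤ → Bool) (i : ℤ) => !(x i)) ⁻¹' Cyl S = CylB false S := by
        ext x
        simp [Cyl, CylB]
      rw [e1]
      refine real_inj ?_
      have h5 := ((lim (isClopen_CylB false S)).sub (limC S)).abs
      have h6 : Tendsto (fun n => (S.card : ℝ) * ε n) U (𝓝 0) := by
        simpa using hε'.const_mul (S.card : ℝ)
      have h7 := le_of_tendsto_of_tendsto' h5 h6 fun n => h2 n S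
      have h8 := abs_nonpos_iff.mp h7
      linarith
    · rw [Measure.map_apply hm2 MeasurableSet.univ]
      rfl
  · intro S T hST
    exact tendsto_nhds_unique (limC _)
      (((limC S).mul (limC T)).congr fun n => (h3 n S T hST).symm)
  · have hcl : IsClopen {s : ℤ → Bool | s 0 ≠ s 1} := by
      have h5 : Continuous (fun s : ℤ → Bool => (s 0, s 1)) :=
        (continuous_apply 0).prodMk (continuous_apply 1)
      exact (isClopen_discrete {p : Bool × Bool | p.1 ≠ p.2}).preimage h5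
    have h5 : Tendsto (fun n => c + ε n) U (𝓝 c) := by simpa using hε'.const_add c
    exact le_of_tendsto_of_tendsto' (lim hcl) h5 h4

/-- the densities of the `k`-dependent hard-core processes -/
def dens (k : ℕ) : Set ℝ := {p : ℝ | ∃ (Ω : Type) (_ : MeasurableSpace Ω) (P : Measure Ω)
  (X : ℤ → Ω → Bool), IsHardCore k P X ∧ p = P.real {ω | X 0 ω = true}}

theorem dens_nonempty (k : ℕ) : (dens k).Nonempty :=
  ⟨_, ℤ → ℝ, inferInstance, AllK.Pr, AllK.X k, AllK.hardcore k, rfl⟩

theorem dens_le (k : ℕ) : ∀ p ∈ dens k, p ≤ 1 / 2 := by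
  rintro p ⟨Ω, i, P, X, h, rfl⟩
  have h1 := AllK.upper_all h
  have h2 : (0 : ℝ) ≤ 1 / (4 * ((k : ℝ) + 2)) := by positivity
  linarith

theorem pcrit_le_half (k : ℕ) : pcrit k ≤ 1 / 2 := csSup_le (dens_nonempty k) (dens_le k)

theorem le_pcrit {k : ℕ} (hk : 1 ≤ k) : (k : ℝ) / (2 * ((k : ℝ) + 1)) ≤ pcrit k :=
  le_csSup ⟨_, dens_le k⟩ ⟨ℤ → ℝ, inferInstance, AllK.Pr, AllK.X k, AllK.hardcore k,
    (AllK.X_prob hk).symm⟩

/-- sign laws of every range from the `p_k` for large `k` -/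
theorem limit_law {m : ℕ} (hm : 1 ≤ m) {lam : ℝ}
    (hf : ∃ᶠ k : ℕ in atTop, 2 * (k : ℝ) * (1 / 2 - pcrit k) ≤ lam) :
    ∃ Q : Measure (ℤ → Bool), SignLaw m Q ∧ (m : ℝ) * chg Q ≤ lam := by
  have hm0 : (0 : ℝ) < m := by exact_mod_cast hm
  have hlam : 0 ≤ lam := by
    obtain ⟨k, hk⟩ := hf.exists
    refine le_trans ?_ hk
    have := pcrit_le_half k
    have h1 : (0 : ℝ) ≤ k := Nat.cast_nonneg k
    have h2 : 0 ≤ 1 / 2 - pcrit k := by linarith
    positivity
  -- one approximate law for every `n`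
  have step : ∀ n : ℕ, ∃ ν : ProbabilityMeasure (ℤ → Bool),
      (∀ S : Finset ℤ, (ν : Measure (ℤ → Bool)).real (Cyl (S.image (· + 1)))
        = (ν : Measure (ℤ → Bool)).real (Cyl S)) ∧
      (∀ S : Finset ℤ, |(ν : Measure (ℤ → Bool)).real (CylB false S)
        - (ν : Measure (ℤ → Bool)).real (Cyl S)| ≤ S.card * ((3 * lam + 6) / ((n : ℝ) + 1))) ∧
      (∀ S T : Finset ℤ, (∀ a ∈ S, ∀ b ∈ T, (m : ℤ) ≤ |a - b|) →
        (ν : Measure (ℤ → Bool)).real (Cyl (S ∪ T))
          = (ν : Measure (ℤ → Bool)).real (Cyl S) * (ν : Measure (ℤ → Bool)).real (Cyl T)) ∧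
      chg (ν : Measure (ℤ → Bool)) ≤ lam / m + (3 * lam + 6) / ((n : ℝ) + 1) := by
    intro n
    obtain ⟨k, hk, hkn⟩ := (hf.and_eventually (eventually_ge_atTop (n + 1))).exists
    have hkn' : (n : ℝ) + 1 ≤ k := by exact_mod_cast hkn
    have hn0 : (0 : ℝ) < (n : ℝ) + 1 := by positivity
    have hk0 : (0 : ℝ) < k := lt_of_lt_of_le hn0 hkn'
    have hlt : pcrit k - 1 / ((k : ℝ) + 1) ^ 2 < sSup (dens k) := by
      have : (0 : ℝ) < 1 / ((k : ℝ) + 1) ^ 2 := by positivity
      change pcrit k - 1 / ((k : ℝ) + 1) ^ 2 < pcrit k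
      linarith
    obtain ⟨p, ⟨Ω, i, P, X, hX, rfl⟩, hp⟩ := exists_lt_of_lt_csSup (dens_nonempty k) hlt
    obtain ⟨g, hg⟩ : ∃ g, g = (k + 1) / (2 * m) + 1 := ⟨_, rfl⟩
    have hkm : k + 1 ≤ m * (2 * g) := by
      have h1 : k + 1 < (k + 1) / (2 * m) * (2 * m) + 2 * m :=
        Nat.lt_div_mul_add (by omega)
      have h2 : m * (2 * g) = (k + 1) / (2 * m) * (2 * m) + 2 * m := by rw [hg]; ring
      omega
    have hh : ((2 * g : ℕ) : ℝ) ≤ ((k : ℝ) + 1) / m + 2 := by
      have h1 : (((k + 1) / (2 * m) : ℕ) : ℝ) ≤ ((k + 1 : ℕ) : ℝ) / ((2 * m : ℕ) : ℝ) := Nat.cast_div_le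
      rw [hg]
      push_cast at h1 ⊢
      have h2 : ((k : ℝ) + 1) / (2 * m) = ((k : ℝ) + 1) / m / 2 := by
        field_simp
      rw [h2] at h1
      linarith
    obtain ⟨ν, h1, h2, h3, h4⟩ := pre (m := m) (h := 2 * g) ⟨g, by ring⟩ hkm hX
    have hd0 : 1 - 2 * P.real {ω | X 0 ω = true} ≤ lam / k + 2 / ((k : ℝ) + 1) ^ 2 := by
      have h5 : 1 - 2 * pcrit k ≤ lam / k := by
        rw [le_div_iff₀ hk0]
        linarith
      have h6 : 2 / ((k : ℝ) + 1) ^ 2 = 2 * (1 / ((k : ℝ) + 1) ^ 2) := by ring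
      rw [h6]
      linarith
    have hdn : 0 ≤ 1 - 2 * P.real {ω | X 0 ω = true} := by
      have := dens_le k _ ⟨Ω, i, P, X, hX, rfl⟩
      linarith
    have hinv : 1 / (k : ℝ) ≤ 1 / ((n : ℝ) + 1) := one_div_le_one_div_of_le hn0 hkn'
    have hinv2 : 1 / ((k : ℝ) + 1) ≤ 1 / (k : ℝ) := one_div_le_one_div_of_le hk0 (by linarith)
    have hk1 : 1 / ((k : ℝ) + 1) ≤ 1 := by
      rw [div_le_one (by positivity)]
      linarith
    have hipos : 0 < 1 / ((k : ℝ) + 1) := by positivity
    have hsq : 2 / ((k : ℝ) + 1) ^ 2 ≤ 2 * (1 / (k : ℝ)) := by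
      have e : 2 / ((k : ℝ) + 1) ^ 2 = 2 * (1 / ((k : ℝ) + 1)) * (1 / ((k : ℝ) + 1)) := by
        rw [sq, mul_assoc, one_div_mul_one_div, mul_one_div]
      rw [e]
      nlinarith
    refine ⟨ν, h1, fun S => (h2 S).trans ?_, h3, h4.trans ?_⟩
    · refine mul_le_mul_of_nonneg_left ?_ (Nat.cast_nonneg _)
      have e1 : (3 * lam + 6) / ((n : ℝ) + 1) = (3 * lam + 6) * (1 / ((n : ℝ) + 1)) := by ring
      have e2 : lam / (k : ℝ) = lam * (1 / (k : ℝ)) := by ring
      rw [e1]
      rw [e2] at hd0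
      have e3 : 0 < 1 / ((n : ℝ) + 1) := by positivity
      nlinarith [mul_le_mul_of_nonneg_left hinv hlam]
    · have h5 : ((2 * g : ℕ) : ℝ) * (1 - 2 * P.real {ω | X 0 ω = true})
          ≤ (((k : ℝ) + 1) / m + 2) * (lam / k + 2 / ((k : ℝ) + 1) ^ 2) := by
        refine mul_le_mul hh hd0 hdn ?_
        positivity
      refine h5.trans ?_
      have hm1 : 1 / (m : ℝ) ≤ 1 := by
        rw [div_le_one hm0]
        exact_mod_cast hm
      have hmi : 0 < 1 / (m : ℝ) := by positivity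
      have e1 : (((k : ℝ) + 1) / m + 2) * (lam / k + 2 / ((k : ℝ) + 1) ^ 2)
          = lam / m + (1 / m) * (lam * (1 / k)) + (1 / m) * (2 * (1 / ((k : ℝ) + 1)))
            + 2 * (lam * (1 / k)) + 2 * (2 / ((k : ℝ) + 1) ^ 2) := by
        field_simp
        ring
      have e2 : (3 * lam + 6) / ((n : ℝ) + 1) = (3 * lam + 6) * (1 / ((n : ℝ) + 1)) := by ring
      have hki : 0 < 1 / (k : ℝ) := by positivity
      have i1 : (1 / (m : ℝ)) * (lam * (1 / k)) ≤ lam * (1 / k) := by
        have : 0 ≤ lam * (1 / (k : ℝ)) := by positivity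
        nlinarith
      have i2 : (1 / (m : ℝ)) * (2 * (1 / ((k : ℝ) + 1))) ≤ 2 * (1 / (k : ℝ)) := by
        have : 0 ≤ 2 * (1 / ((k : ℝ) + 1)) := by positivity
        nlinarith
      have i3 : lam * (1 / (k : ℝ)) ≤ lam * (1 / ((n : ℝ) + 1)) :=
        mul_le_mul_of_nonneg_left hinv hlam
      rw [e1, e2]
      linarith
  choose ν h1 h2 h3 h4 using step
  have hε : Tendsto (fun n : ℕ => (3 * lam + 6) / ((n : ℝ) + 1)) atTop (𝓝 0) := by
    have h5 := (tendsto_one_div_add_atTop_nhds_zero_nat (𝕜 := ℝ)).const_mul (3 * lam + 6)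
    rw [mul_zero] at h5
    refine h5.congr fun n => ?_
    ring
  obtain ⟨Q, hQ, hc⟩ := limit_of_approx ν _ hε h1 h2 h3 h4
  refine ⟨Q, hQ, ?_⟩
  rw [le_div_iff₀ hm0] at hc
  linarith

/-- the limit of `2 k (1 / 2 - p_k)` exists, bounds all the terms, and is attained by sign laws of
every range -/
theorem limit : ∃ L : ℝ,
    Filter.Tendsto (fun k : ℕ => 2 * (k : ℝ) * (1 / 2 - pcrit k)) Filter.atTop (nhds L) ∧
    (∀ k : ℕ, 1 ≤ k → 2 * (k : ℝ) * (1 / 2 - pcrit k) ≤ L) ∧
    (∀ m : ℕ, 1 ≤ m → ∃ Q : Measure (ℤ → Bool), SignLaw m Q ∧ (m : ℝ) * chg Q ≤ L) := by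
  set a : ℕ → ℝ := fun k : ℕ => 2 * (k : ℝ) * (1 / 2 - pcrit k) with ha
  have ha1 : ∀ k, a k ≤ 1 := by
    intro k
    rcases Nat.eq_zero_or_pos k with rfl | hk
    · simp [ha]
    · have h1 := le_pcrit hk
      have hk0 : (0 : ℝ) < k := by exact_mod_cast hk
      have h2 : 1 / 2 - pcrit k ≤ 1 / (2 * ((k : ℝ) + 1)) := by
        have : 1 / (2 * ((k : ℝ) + 1)) = 1 / 2 - (k : ℝ) / (2 * ((k : ℝ) + 1)) := by
          field_simp
          ring
        linarith
      have h3 : a k ≤ 2 * k * (1 / (2 * ((k : ℝ) + 1))) :=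
        mul_le_mul_of_nonneg_left h2 (by positivity)
      refine h3.trans ?_
      rw [mul_one_div, div_le_one (by positivity)]
      linarith
  have ha0 : ∀ k, 0 ≤ a k := by
    intro k
    have h1 := pcrit_le_half k
    have h2 : 0 ≤ 1 / 2 - pcrit k := by linarith
    have h3 : (0 : ℝ) ≤ k := Nat.cast_nonneg k
    simp only [ha]
    positivity
  -- every frequent bound bounds all the terms
  have key : ∀ lam : ℝ, (∃ᶠ k : ℕ in atTop, a k ≤ lam) → ∀ m : ℕ, a m ≤ lam := by
    intro lam hf m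
    rcases Nat.eq_zero_or_pos m with rfl | hm
    · obtain ⟨k, hk⟩ := hf.exists
      refine le_trans ?_ hk
      have : a 0 = 0 := by simp [ha]
      rw [this]
      exact ha0 k
    · obtain ⟨Q, hQ, hc⟩ := limit_law hm hf
      have h1 := hard hQ
      have hm0 : (0 : ℝ) < m := by exact_mod_cast hm
      have h2 : 1 / 2 - pcrit m ≤ chg Q / 2 := by linarith
      have h3 : a m ≤ 2 * m * (chg Q / 2) := mul_le_mul_of_nonneg_left h2 (by positivity)
      linarith
  have hbdd : BddAbove (Set.range a) := ⟨1, by rintro _ ⟨k, rfl⟩; exact ha1 k⟩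
  set L : ℝ := sSup (Set.range a) with hL
  have hle : ∀ k, a k ≤ L := fun k => le_csSup hbdd ⟨k, rfl⟩
  refine ⟨L, ?_, fun k _ => hle k, fun m hm => ?_⟩
  · rw [Metric.tendsto_atTop']
    by_contra hcon
    push Not at hcon
    obtain ⟨ε, hε, hcon⟩ := hcon
    have hf : ∃ᶠ k : ℕ in atTop, a k ≤ L - ε := by
      rw [Filter.frequently_atTop']
      intro n
      obtain ⟨k, hk, h1⟩ := hcon n
      refine ⟨k, hk, ?_⟩
      rw [Real.dist_eq, abs_sub_comm, abs_of_nonneg (by linarith [hle k])] at h1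
      linarith
    have h1 : L ≤ L - ε := by
      refine csSup_le ⟨a 0, 0, rfl⟩ ?_
      rintro _ ⟨k, rfl⟩
      exact key _ hf k
    linarith
  · exact limit_law hm (Filter.Eventually.frequently (Filter.Eventually.of_forall hle))

end HC38bc51.HC
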