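import Mathlib
import Pool.Agent.Work.MP_38bc51_pr.HC.Hard

/-!
# Correlations of sign laws, and a lower bound for the sign-change probability in range two
-/

namespace HC38bc51.HC

open MeasureTheory ProbabilityTheory

variable {m : ℕ} {Q : Measure (ℤ → Bool)}

/-- the sign of a coordinate -/
def xx (i : ℤ) (s : ℤ → Bool) : ℝ := if s i then 1 else -1

/-- products of signs -/
def XX (T : Finset ℤ) (s : ℤ → Bool) : ℝ := ∏ i ∈ T, xx i s

/-- correlation functions -/
noncomputable def chi (Q : Measure (ℤ → Bool)) (T : Finset ℤ) : ℝ := ∫ s, XX T s ∂Q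

theorem xx_cases (i : ℤ) (s : ℤ → Bool) : xx i s = 1 ∨ xx i s = -1 := by
  unfold xx; split_ifs <;> simp

theorem measurable_xx (i : ℤ) : Measurable (xx i) := by
  have : xx i = (fun b : Bool => if b then (1 : ℝ) else -1) ∘ (fun s : ℤ → Bool => s i) := by
    funext s; rfl
  rw [this]
  exact (measurable_of_countable _).comp (measurable_pi_apply i)

theorem measurable_XX (T : Finset ℤ) : Measurable (XX T) :=
  Finset.measurable_prod _ fun i _ => measurable_xx i

theorem abs_XX (T : Finset ℤ) (s : ℤ → Bool) : |XX T s| = 1 := by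
  unfold XX
  rw [Finset.abs_prod]
  refine Finset.prod_eq_one fun i _ => ?_
  rcases xx_cases i s with h | h <;> rw [h] <;> simp

theorem integrable_XX [IsProbabilityMeasure Q] (T : Finset ℤ) : Integrable (XX T) Q :=
  Integrable.of_bound (measurable_XX T).aestronglyMeasurable 1
    (Filter.Eventually.of_forall fun s => by rw [Real.norm_eq_abs, abs_XX])

theorem SignLaw.chi_odd (hQ : SignLaw m Q) {T : Finset ℤ} (hT : Odd T.card) : chi Q T = 0 := by
  have h1 : chi Q T = ∫ s, XX T (fun i => !(s i)) ∂Q := by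
    unfold chi
    conv_lhs => rw [← hQ.flip]
    rw [integral_map measurable_flip.aemeasurable (measurable_XX T).aestronglyMeasurable]
  have h2 : ∀ s : ℤ → Bool, XX T (fun i => !(s i)) = - XX T s := by
    intro s
    unfold XX
    have : ∀ i ∈ T, xx i (fun i => !(s i)) = (-1) * xx i s := by
      intro i _
      unfold xx
      cases h : s i <;> simp [h]
    rw [Finset.prod_congr rfl this, Finset.prod_mul_distrib, Finset.prod_const, hT.neg_one_pow]
    ring
  simp_rw [h2] at h1
  rw [integral_neg] at h1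
  unfold chi at h1 ⊢
  linarith

theorem SignLaw.chi_shift (hQ : SignLaw m Q) (T : Finset ℤ) (c : ℤ) :
    chi Q (T.image (· + c)) = chi Q T := by
  have step : ∀ T : Finset ℤ, chi Q (T.image (· + 1)) = chi Q T := by
    intro T
    unfold chi
    conv_rhs => rw [← hQ.shift]
    rw [integral_map (measurable_pi_iff.2 fun i => measurable_pi_apply (i + 1)).aemeasurable
      (measurable_XX T).aestronglyMeasurable]
    congr 1
    funext s
    unfold XX
    rw [Finset.prod_image (fun a _ b _ h => by simpa using h)]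
    rfl
  have pos : ∀ (n : ℕ) (T : Finset ℤ), chi Q (T.image (· + (n : ℤ))) = chi Q T := by
    intro n
    induction n with
    | zero => intro T; simp
    | succ n ih =>
      intro T
      rw [← ih T, ← step (T.image (· + (n : ℤ))), Finset.image_image]
      congr 1
      refine Finset.image_congr fun a _ => ?_
      simp only [Function.comp_apply]
      push_cast
      ring
  obtain ⟨n, rfl | rfl⟩ := Int.eq_nat_or_neg c
  · exact pos n T
  · rw [← pos n (T.image _), Finset.image_image]
    congr 1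
    ext a
    simp [Function.comp_def]

theorem SignLaw.chi_mul (hQ : SignLaw m Q) {S T : Finset ℤ}
    (h : ∀ a ∈ S, ∀ b ∈ T, (m : ℤ) ≤ |a - b|) (hm : 1 ≤ m) :
    chi Q (S ∪ T) = chi Q S * chi Q T := by
  have := hQ.prob
  have hd : Disjoint S T := by
    rw [Finset.disjoint_left]
    intro a ha hb
    have := h a ha a hb
    simp at this
    omega
  have h1 := hQ.indep (S : Set ℤ) (T : Set ℤ) (fun a ha b hb => h a ha b hb)
  have key : ∀ U : Finset ℤ, XX U = (fun y : (↥(U : Set ℤ) → Bool) =>
      ∏ i ∈ U.attach, (if y ⟨i.1, i.2⟩ then (1 : ℝ) else -1)) ∘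
      (fun (s : ℤ → Bool) (a : (U : Set ℤ)) => s a) := by
    intro U
    funext s
    simp only [Function.comp_apply, XX, xx]
    exact (Finset.prod_attach U (fun i => if s i then (1 : ℝ) else -1)).symm
  have hmeas : ∀ U : Finset ℤ, Measurable (fun y : (↥(U : Set ℤ) → Bool) =>
      ∏ i ∈ U.attach, (if y ⟨i.1, i.2⟩ then (1 : ℝ) else -1)) := by
    intro U
    refine Finset.measurable_prod _ fun i _ => ?_
    exact (measurable_of_countable (fun b : Bool => if b then (1 : ℝ) else -1)).comp
      (measurable_pi_apply _)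
  have h2 := h1.comp (hmeas S) (hmeas T)
  rw [← key S, ← key T] at h2
  have h3 := h2.integral_mul_eq_mul_integral (measurable_XX S).aestronglyMeasurable
    (measurable_XX T).aestronglyMeasurable
  unfold chi
  rw [← h3]
  congr 1
  funext s
  simp only [Pi.mul_apply, XX]
  rw [Finset.prod_union hd]

theorem SignLaw.chi_chg (hQ : SignLaw m Q) : chi Q {0, 1} = 1 - 2 * chg Q := by
  have := hQ.prob
  have hm0 : Measurable (fun s : ℤ → Bool => (s 0, s 1)) :=
    (measurable_pi_apply 0).prodMk (measurable_pi_apply 1)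
  have hne : MeasurableSet {s : ℤ → Bool | s 0 ≠ s 1} := by
    have := hm0 (Set.toFinite {p : Bool × Bool | p.1 ≠ p.2}).measurableSet
    exact this
  have e : ∀ s : ℤ → Bool, XX {0, 1} s
      = 1 - 2 * ({s : ℤ → Bool | s 0 ≠ s 1} : Set (ℤ → Bool)).indicator (fun _ => (1 : ℝ)) s := by
    intro s
    unfold XX
    rw [Finset.prod_pair (by norm_num)]
    unfold xx Set.indicator
    simp only [Set.mem_ofPred_eq]
    cases s 0 <;> cases s 1 <;> norm_num
  unfold chi
  simp_rw [e]
  rw [integral_sub (integrable_const _) ((integrable_const _).indicator hne |>.const_mul 2),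
    integral_const_mul, integral_indicator_const _ hne]
  simp [chg]

/-- one word of length five -/
theorem low (hQ : SignLaw 2 Q) : 1 - √2 / 2 ≤ chg Q := by
  have := hQ.prob
  set r : ℝ := chi Q {0, 1} with hr
  have p12 : chi Q {1, 2} = r := by
    rw [hr, ← hQ.chi_shift {0, 1} 1]; congr 1
  have p23 : chi Q {2, 3} = r := by
    rw [hr, ← hQ.chi_shift {0, 1} 2]; congr 1
  have p34 : chi Q {3, 4} = r := by
    rw [hr, ← hQ.chi_shift {0, 1} 3]; congr 1
  have p45 : chi Q {4, 5} = r := by
    rw [hr, ← hQ.chi_shift {0, 1} 4]; congr 1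
  have one : ∀ a : ℤ, chi Q {a} = 0 := fun a => hQ.chi_odd (by simp)
  have pair : ∀ a b : ℤ, 2 ≤ |a - b| → chi Q {a, b} = 0 := by
    intro a b h
    have h1 := hQ.chi_mul (S := {a}) (T := {b}) (by simpa using h) (by norm_num)
    rw [one, zero_mul] at h1
    exact h1
  have q1245 : chi Q {1, 2, 4, 5} = r ^ 2 := by
    have h1 := hQ.chi_mul (S := {1, 2}) (T := {4, 5}) (by decide) (by norm_num)
    rw [p12, p45] at h1
    rw [sq, ← h1]; congr 1
  have q1345 : chi Q {1, 3, 4, 5} = 0 := by
    have h1 := hQ.chi_mul (S := {1}) (T := {3, 4, 5}) (by decide) (by norm_num)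
    rw [one, zero_mul] at h1
    rw [← h1]; congr 1
  have q1235 : chi Q {1, 2, 3, 5} = 0 := by
    have h1 := hQ.chi_mul (S := {1, 2, 3}) (T := {5}) (by decide) (by norm_num)
    rw [one, mul_zero] at h1
    rw [← h1]; congr 1
  have q2345 : chi Q {2, 3, 4, 5} = chi Q {1, 2, 3, 4} := by
    rw [← hQ.chi_shift {1, 2, 3, 4} 1]; congr 1
  have e : ∀ s : ℤ → Bool, (1 - xx 1 s * xx 2 s) * (1 - xx 2 s * xx 3 s) * (1 - xx 3 s * xx 4 s)
      * (1 + xx 4 s * xx 5 s)
      = 1 - XX {1, 2} s - XX {2, 3} s - XX {3, 4} s + XX {4, 5} s + XX {1, 3} s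
        + XX {1, 2, 3, 4} s - XX {1, 2, 4, 5} s + XX {2, 4} s - XX {2, 3, 4, 5} s - XX {3, 5} s
        - XX {1, 4} s + XX {1, 3, 4, 5} s + XX {1, 2, 3, 5} s + XX {2, 5} s - XX {1, 5} s := by
    intro s
    unfold XX
    repeat rw [Finset.prod_insert (by decide)]
    simp only [Finset.prod_singleton]
    rcases xx_cases 1 s with h1 | h1 <;> rcases xx_cases 2 s with h2 | h2 <;>
      rcases xx_cases 3 s with h3 | h3 <;> rcases xx_cases 4 s with h4 | h4 <;>
      rcases xx_cases 5 s with h5 | h5 <;> rw [h1, h2, h3, h4, h5] <;> norm_num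
  have nn : ∀ s : ℤ → Bool, 0 ≤ (1 - xx 1 s * xx 2 s) * (1 - xx 2 s * xx 3 s)
      * (1 - xx 3 s * xx 4 s) * (1 + xx 4 s * xx 5 s) := by
    intro s
    rcases xx_cases 1 s with h1 | h1 <;> rcases xx_cases 2 s with h2 | h2 <;>
      rcases xx_cases 3 s with h3 | h3 <;> rcases xx_cases 4 s with h4 | h4 <;>
      rcases xx_cases 5 s with h5 | h5 <;> rw [h1, h2, h3, h4, h5] <;> norm_num
  have h0 : 0 ≤ ∫ s, (1 - XX {1, 2} s - XX {2, 3} s - XX {3, 4} s + XX {4, 5} s + XX {1, 3} s
        + XX {1, 2, 3, 4} s - XX {1, 2, 4, 5} s + XX {2, 4} s - XX {2, 3, 4, 5} s - XX {3, 5} s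
        - XX {1, 4} s + XX {1, 3, 4, 5} s + XX {1, 2, 3, 5} s + XX {2, 5} s - XX {1, 5} s) ∂Q :=
    integral_nonneg fun s => by rw [← e s]; exact nn s
  have hi : ∀ T : Finset ℤ, Integrable (XX T) Q := integrable_XX
  rw [integral_sub, integral_add, integral_add, integral_add, integral_sub, integral_sub,
    integral_sub, integral_add, integral_sub, integral_add, integral_add, integral_add,
    integral_sub, integral_sub, integral_sub] at h0
  · have c : ∀ T : Finset ℤ, ∫ s, XX T s ∂Q = chi Q T := fun _ => rfl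
    simp only [c] at h0
    rw [p12, p23, p34, p45, q1245, q1345, q1235, q2345, pair 1 3 (by norm_num),
      pair 2 4 (by norm_num), pair 3 5 (by norm_num), pair 1 4 (by norm_num),
      pair 2 5 (by norm_num), pair 1 5 (by norm_num)] at h0
    have h1 := hQ.chi_chg
    rw [← hr] at h1
    have h2 : √2 ^ 2 = 2 := Real.sq_sqrt (by norm_num)
    have h3 : 0 ≤ √2 := Real.sqrt_nonneg 2
    simp at h0
    nlinarith
  all_goals fun_prop (disch := exact hi _)

end HC38bc51.HC
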