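import Mathlib
import Pool.Agent.Work.MP_38bc51_pr.HC.Low
import Pool.Agent.Work.MP_38bc51_pr.AllK.Upper

/-!
# An upper bound for the marginal of a `k`-dependent hard-core process, every `k`
-/

namespace HC38bc51.HC

open MeasureTheory ProbabilityTheory

section Five

variable {Q : Measure (ℤ → Bool)}

theorem chi_image_add (hs : Q.map (fun (s : ℤ → Bool) (i : ℤ) => s (i + 1)) = Q) (n : ℕ) :
    ∀ T : Finset ℤ, chi Q (T.image (· + (n : ℤ))) = chi Q T := by
  have step : ∀ T : Finset ℤ, chi Q (T.image (· + 1)) = chi Q T := by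
    intro T
    unfold chi
    conv_rhs => rw [← hs]
    rw [integral_map (measurable_pi_iff.2 fun i => measurable_pi_apply (i + 1)).aemeasurable
      (measurable_XX T).aestronglyMeasurable]
    congr 1
    funext s
    unfold XX
    rw [Finset.prod_image (fun a _ b _ h => by simpa using h)]
    rfl
  induction n with
  | zero => intro T; simp
  | succ n ih =>
    intro T
    rw [← ih T, ← step (T.image (· + (n : ℤ))), Finset.image_image]
    congr 1
    refine Finset.image_congr fun a _ => ?_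
    simp only [Function.comp_apply]
    push_cast
    ring

theorem five [IsProbabilityMeasure Q] (hs : Q.map (fun (s : ℤ → Bool) (i : ℤ) => s (i + 1)) = Q)
    (hmul : ∀ S T : Finset ℤ, (∀ a ∈ S, ∀ b ∈ T, (2 : ℤ) ≤ |a - b|) →
      chi Q (S ∪ T) = chi Q S * chi Q T) {δ σ : ℝ} (hσ : σ = 1 ∨ σ = -1) (hδ : 0 ≤ δ)
    (h1 : chi Q {0} = -δ) :
    0 ≤ 1 - σ * chi Q {0, 1} ∧
    0 ≤ -2 + 4 * (1 - σ * chi Q {0, 1}) - (1 - σ * chi Q {0, 1}) ^ 2 + 2 * δ ^ 2
      + 2 * δ * (1 - σ * chi Q {0, 1}) := by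
  have hi : ∀ T : Finset ℤ, Integrable (XX T) Q := integrable_XX
  have c : ∀ T : Finset ℤ, ∫ s, XX T s ∂Q = chi Q T := fun _ => rfl
  have hσ2 : σ * σ = 1 := by rcases hσ with h | h <;> rw [h] <;> norm_num
  set r : ℝ := chi Q {0, 1} with hr
  have p12 : chi Q {1, 2} = r := by
    rw [hr, ← chi_image_add hs 1 {0, 1}]; congr 1
  have p23 : chi Q {2, 3} = r := by
    rw [hr, ← chi_image_add hs 2 {0, 1}]; congr 1
  have p34 : chi Q {3, 4} = r := by
    rw [hr, ← chi_image_add hs 3 {0, 1}]; congr 1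
  have one : ∀ n : ℕ, chi Q {(n : ℤ)} = -δ := by
    intro n
    rw [← h1, ← chi_image_add hs n {0}]
    congr 1
    ext a
    simp
  have pair : ∀ a b : ℕ, 2 ≤ |(a : ℤ) - b| → chi Q {(a : ℤ), (b : ℤ)} = δ ^ 2 := by
    intro a b h
    have h2 := hmul {(a : ℤ)} {(b : ℤ)} (by simpa using h)
    rw [one, one] at h2
    have e : ({(a : ℤ)} ∪ {(b : ℤ)} : Finset ℤ) = {(a : ℤ), (b : ℤ)} := rfl
    rw [e] at h2
    rw [h2]
    ring
  have p02 : chi Q {0, 2} = δ ^ 2 := by simpa using pair 0 2 (by norm_num)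
  have p13 : chi Q {1, 3} = δ ^ 2 := by simpa using pair 1 3 (by norm_num)
  have p24 : chi Q {2, 4} = δ ^ 2 := by simpa using pair 2 4 (by norm_num)
  have p03 : chi Q {0, 3} = δ ^ 2 := by simpa using pair 0 3 (by norm_num)
  have p14 : chi Q {1, 4} = δ ^ 2 := by simpa using pair 1 4 (by norm_num)
  have p04 : chi Q {0, 4} = δ ^ 2 := by simpa using pair 0 4 (by norm_num)
  set τ : ℝ := chi Q {0, 1, 2} with hτ
  have t234 : chi Q {2, 3, 4} = τ := by
    rw [hτ, ← chi_image_add hs 2 {0, 1, 2}]; congr 1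
  have q0134 : chi Q {0, 1, 3, 4} = r ^ 2 := by
    have h2 := hmul {0, 1} {3, 4} (by decide)
    rw [p34, ← hr] at h2
    rw [sq, ← h2]; congr 1
  have q0234 : chi Q {0, 2, 3, 4} = -δ * τ := by
    have h2 := hmul {0} {2, 3, 4} (by decide)
    rw [h1, t234] at h2
    rw [← h2]; congr 1
  have q0124 : chi Q {0, 1, 2, 4} = -δ * τ := by
    have h2 := hmul {0, 1, 2} {4} (by decide)
    have h3 : chi Q {4} = -δ := by simpa using one 4
    rw [h3, ← hτ] at h2
    rw [mul_comm, ← h2]; congr 1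
  have q1234 : chi Q {1, 2, 3, 4} = chi Q {0, 1, 2, 3} := by
    rw [← chi_image_add hs 1 {0, 1, 2, 3}]; congr 1
  -- the five signs
  have e : ∀ s : ℤ → Bool, (1 - σ * (xx 0 s * xx 1 s)) * (1 - σ * (xx 1 s * xx 2 s))
      * (1 - σ * (xx 2 s * xx 3 s)) * (1 + σ * (xx 3 s * xx 4 s))
      = 1 - σ * XX {0, 1} s - σ * XX {1, 2} s - σ * XX {2, 3} s + σ * XX {3, 4} s + XX {0, 2} s
        + XX {0, 1, 2, 3} s - XX {0, 1, 3, 4} s + XX {1, 3} s - XX {1, 2, 3, 4} s - XX {2, 4} s
        - σ * XX {0, 3} s + σ * XX {0, 2, 3, 4} s + σ * XX {0, 1, 2, 4} s + σ * XX {1, 4} s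
        - XX {0, 4} s := by
    intro s
    unfold XX
    repeat rw [Finset.prod_insert (by decide)]
    simp only [Finset.prod_singleton]
    rcases xx_cases 0 s with h1 | h1 <;> rcases xx_cases 1 s with h2 | h2 <;>
      rcases xx_cases 2 s with h3 | h3 <;> rcases xx_cases 3 s with h4 | h4 <;>
      rcases xx_cases 4 s with h5 | h5 <;> rcases hσ with h6 | h6 <;>
      rw [h1, h2, h3, h4, h5, h6] <;> norm_num
  have nn : ∀ s : ℤ → Bool, 0 ≤ (1 - σ * (xx 0 s * xx 1 s)) * (1 - σ * (xx 1 s * xx 2 s))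
      * (1 - σ * (xx 2 s * xx 3 s)) * (1 + σ * (xx 3 s * xx 4 s)) := by
    have hp : ∀ (a b : ℤ) (s : ℤ → Bool), 0 ≤ 1 - σ * (xx a s * xx b s) ∧
        0 ≤ 1 + σ * (xx a s * xx b s) := by
      intro a b s
      rcases xx_cases a s with h1 | h1 <;> rcases xx_cases b s with h2 | h2 <;>
        rcases hσ with h6 | h6 <;> rw [h1, h2, h6] <;> norm_num
    intro s
    exact mul_nonneg (mul_nonneg (mul_nonneg (hp 0 1 s).1 (hp 1 2 s).1) (hp 2 3 s).1) (hp 3 4 s).2
  have h0 : 0 ≤ ∫ s, (1 - σ * XX {0, 1} s - σ * XX {1, 2} s - σ * XX {2, 3} s + σ * XX {3, 4} s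
        + XX {0, 2} s + XX {0, 1, 2, 3} s - XX {0, 1, 3, 4} s + XX {1, 3} s - XX {1, 2, 3, 4} s
        - XX {2, 4} s - σ * XX {0, 3} s + σ * XX {0, 2, 3, 4} s + σ * XX {0, 1, 2, 4} s
        + σ * XX {1, 4} s - XX {0, 4} s) ∂Q :=
    integral_nonneg fun s => by rw [← e s]; exact nn s
  rw [integral_sub, integral_add, integral_add, integral_add, integral_sub, integral_sub,
    integral_sub, integral_add, integral_sub, integral_add, integral_add, integral_add,
    integral_sub, integral_sub, integral_sub] at h0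
  rotate_left
  all_goals try fun_prop (disch := exact hi _)
  simp only [integral_const_mul, c] at h0
  rw [p12, p23, p34, p02, q0134, p13, q1234, p24, p03, q0234, q0124, p14, p04, ← hr] at h0
  simp only [integral_const, probReal_univ, smul_eq_mul, mul_one] at h0
  -- the pair
  have hu : 0 ≤ 1 - σ * r := by
    have h2 : 0 ≤ ∫ s, (1 - σ * XX {0, 1} s) ∂Q := by
      refine integral_nonneg fun s => ?_
      unfold XX
      rw [Finset.prod_pair (by decide)]
      rcases xx_cases 0 s with h1 | h1 <;> rcases xx_cases 1 s with h2 | h2 <;>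
        rcases hσ with h6 | h6 <;> simp only [h1, h2, h6] <;> norm_num
    rw [integral_sub (integrable_const _) ((hi _).const_mul _), integral_const_mul, c, ← hr] at h2
    simpa using h2
  -- the triple
  have ht : -(σ * τ) ≤ δ + (1 - σ * r) := by
    have h2 : 0 ≤ ∫ s, (1 - σ * XX {0, 1} s - XX {2} s + σ * XX {0, 1, 2} s) ∂Q := by
      refine integral_nonneg fun s => ?_
      unfold XX
      repeat rw [Finset.prod_insert (by decide)]
      simp only [Finset.prod_singleton]
      rcases xx_cases 0 s with h1 | h1 <;> rcases xx_cases 1 s with h2 | h2 <;>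
        rcases xx_cases 2 s with h3 | h3 <;>
        rcases hσ with h6 | h6 <;> simp only [h1, h2, h3, h6] <;> norm_num
    have h3 : chi Q {2} = -δ := by simpa using one 2
    rw [integral_add, integral_sub, integral_sub (integrable_const _) ((hi _).const_mul _),
      integral_const_mul, integral_const_mul, c, c, c, ← hr, ← hτ, h3] at h2
    · simp at h2
      linarith
    all_goals fun_prop (disch := exact hi _)
  refine ⟨hu, ?_⟩
  have h5 : δ * (-(σ * τ)) ≤ δ * (δ + (1 - σ * r)) := mul_le_mul_of_nonneg_left ht hδ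
  have h6 : (σ * r) ^ 2 = r ^ 2 := by
    rw [mul_pow, sq σ, hσ2, one_mul]
  nlinarith

end Five

section Sample

variable {k : ℕ} {Ω : Type} [MeasurableSpace Ω] {P : Measure Ω} {X : ℤ → Ω → Bool}

/-- the sampled sequence -/
def smp (X : ℤ → Ω → Bool) (h : ℕ) (ω : Ω) (j : ℤ) : Bool := X (j * h) ω

theorem measurable_smp (hX : IsHardCore k P X) (h : ℕ) : Measurable (smp X h) :=
  measurable_pi_iff.2 fun _ => hX.meas _

theorem chi_smp (hX : IsHardCore k P X) (h : ℕ) (T : Finset ℤ) :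
    chi (P.map (smp X h)) T = ∫ ω, XX T (smp X h ω) ∂P := by
  unfold chi
  rw [integral_map (measurable_smp hX h).aemeasurable (measurable_XX T).aestronglyMeasurable]

theorem map_add_nat (hX : IsHardCore k P X) (n : ℕ) :
    P.map (fun ω (i : ℤ) => X (i + n) ω) = P.map (fun ω (i : ℤ) => X i ω) := by
  have hm : ∀ n : ℕ, Measurable (fun ω (i : ℤ) => X (i + n) ω) := fun n =>
    measurable_pi_iff.2 fun i => hX.meas _
  induction n with
  | zero => simp
  | succ n ih =>
    have hs : Measurable (fun (s : ℤ → Bool) (i : ℤ) => s (i + n)) :=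
      measurable_pi_iff.2 fun i => measurable_pi_apply _
    have h1 : (fun ω (i : ℤ) => X (i + (n + 1 : ℕ)) ω)
        = (fun (s : ℤ → Bool) (i : ℤ) => s (i + n)) ∘ (fun ω (i : ℤ) => X (i + 1) ω) := by
      funext ω i
      simp only [Function.comp_apply]
      congr 1
      push_cast
      ring
    have h2 : (fun ω (i : ℤ) => X (i + n) ω)
        = (fun (s : ℤ → Bool) (i : ℤ) => s (i + n)) ∘ (fun ω (i : ℤ) => X i ω) := rfl
    rw [h1, ← Measure.map_map hs (by simpa using hm 1), hX.stat,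
      Measure.map_map hs (by simpa using hm 0), ← h2, ih]

theorem smp_shift (hX : IsHardCore k P X) (h : ℕ) :
    (P.map (smp X h)).map (fun (s : ℤ → Bool) (i : ℤ) => s (i + 1)) = P.map (smp X h) := by
  have hs : Measurable (fun (s : ℤ → Bool) (i : ℤ) => s (i * h)) :=
    measurable_pi_iff.2 fun i => measurable_pi_apply _
  have hs1 : Measurable (fun (s : ℤ → Bool) (i : ℤ) => s (i + 1)) :=
    measurable_pi_iff.2 fun i => measurable_pi_apply _
  have h2 : smp X h = (fun (s : ℤ → Bool) (i : ℤ) => s (i * h)) ∘ (fun ω (i : ℤ) => X i ω) := rfl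
  have h1 : (fun (s : ℤ → Bool) (i : ℤ) => s (i + 1)) ∘ smp X h
      = (fun (s : ℤ → Bool) (i : ℤ) => s (i * h)) ∘ (fun ω (i : ℤ) => X (i + h) ω) := by
    funext ω i
    simp only [Function.comp_apply, smp]
    congr 1
    ring
  rw [Measure.map_map hs1 (measurable_smp hX h), h1,
    ← Measure.map_map hs (measurable_pi_iff.2 fun i => hX.meas _), map_add_nat hX h, h2,
    Measure.map_map hs (measurable_pi_iff.2 fun i => hX.meas _)]

theorem smp_mul (hX : IsHardCore k P X) {h : ℕ} (hk : k < 2 * h) (S T : Finset ℤ)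
    (hST : ∀ a ∈ S, ∀ b ∈ T, (2 : ℤ) ≤ |a - b|) :
    chi (P.map (smp X h)) (S ∪ T) = chi (P.map (smp X h)) S * chi (P.map (smp X h)) T := by
  have := hX.prob
  have hd : Disjoint S T := by
    rw [Finset.disjoint_left]
    intro a ha hb
    have := hST a ha a hb
    simp at this
  have h1 := hX.dep {x | ∃ a ∈ S, x = a * h} {x | ∃ a ∈ T, x = a * h} (by
    rintro _ ⟨a, ha, rfl⟩ _ ⟨b, hb, rfl⟩
    have h2 := hST a ha b hb
    rw [← sub_mul, abs_mul, Nat.abs_cast]
    have h3 : (2 : ℤ) * h ≤ |a - b| * h := mul_le_mul_of_nonneg_right h2 (by positivity)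
    have h4 : (k : ℤ) < 2 * h := by exact_mod_cast hk
    linarith)
  have key : ∀ U : Finset ℤ, (fun ω => XX U (smp X h ω)) =
      (fun y : (({x | ∃ a ∈ U, x = a * h} : Set ℤ) → Bool) =>
      ∏ i ∈ U.attach, (if y ⟨i.1 * h, i.1, i.2, rfl⟩ then (1 : ℝ) else -1)) ∘
      (fun ω (a : ({x | ∃ a ∈ U, x = a * h} : Set ℤ)) => X a ω) := by
    intro U
    funext ω
    simp only [Function.comp_apply, XX, xx, smp]
    exact (Finset.prod_attach U (fun i => if X (i * h) ω then (1 : ℝ) else -1)).symm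
  have hmeas : ∀ U : Finset ℤ, Measurable
      (fun y : (({x | ∃ a ∈ U, x = a * h} : Set ℤ) → Bool) =>
      ∏ i ∈ U.attach, (if y ⟨i.1 * h, i.1, i.2, rfl⟩ then (1 : ℝ) else -1)) := by
    intro U
    refine Finset.measurable_prod _ fun i _ => ?_
    exact (measurable_of_countable (fun b : Bool => if b then (1 : ℝ) else -1)).comp
      (measurable_pi_apply _)
  have h2 := h1.comp (hmeas S) (hmeas T)
  rw [← key S, ← key T] at h2
  have h3 := h2.integral_mul_eq_mul_integral
    ((measurable_XX S).comp (measurable_smp hX h)).aestronglyMeasurable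
    ((measurable_XX T).comp (measurable_smp hX h)).aestronglyMeasurable
  rw [chi_smp hX, chi_smp hX, chi_smp hX, ← h3]
  congr 1
  funext ω
  simp only [Pi.mul_apply, XX]
  rw [Finset.prod_union hd]

theorem smp_one (hX : IsHardCore k P X) (h : ℕ) :
    chi (P.map (smp X h)) {0} = -(1 - 2 * P.real {ω | X 0 ω = true}) := by
  have := hX.prob
  have e : ∀ ω, XX {0} (smp X h ω)
      = 2 * ({ω | X 0 ω = true} : Set Ω).indicator (fun _ => (1 : ℝ)) ω - 1 := by
    intro ω
    unfold XX xx smp Set.indicator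
    simp only [Finset.prod_singleton, zero_mul, Set.mem_ofPred_eq]
    cases X 0 ω <;> norm_num
  have hm : MeasurableSet {ω | X 0 ω = true} := AllK.ms hX 0 true
  rw [chi_smp hX]
  simp_rw [e]
  rw [integral_sub (((integrable_const _).indicator hm).const_mul 2) (integrable_const _),
    integral_const_mul, integral_indicator_const _ hm]
  simp

theorem smp_two (hX : IsHardCore k P X) {h : ℕ} (hh : 1 ≤ h) {σ : ℝ} (hσ : σ = (-1) ^ h) :
    1 - σ * chi (P.map (smp X h)) {0, 1}
      ≤ 2 * (h * (1 - 2 * P.real {ω | X 0 ω = true})) := by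
  have := hX.prob
  let D : Set Ω := ⋃ n ∈ Finset.range h, {ω | X n ω = false ∧ X (n + 1 : ℕ) ω = false}
  have hmD : MeasurableSet D :=
    Finset.measurableSet_biUnion _ fun n _ => (AllK.ms hX n false).inter (AllK.ms hX _ false)
  have hD : P.real D ≤ h * (1 - 2 * P.real {ω | X 0 ω = true}) := by
    refine (measureReal_biUnion_finset_le _ _).trans ?_
    rw [Finset.sum_congr rfl fun n _ => AllK.prob_def hX n, Finset.sum_const, Finset.card_range,
      nsmul_eq_mul]
  have hi : Integrable (fun ω => XX {0, 1} (smp X h ω)) P :=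
    Integrable.of_bound ((measurable_XX _).comp (measurable_smp hX h)).aestronglyMeasurable 1
      (Filter.Eventually.of_forall fun s => by rw [Real.norm_eq_abs, abs_XX])
  have h2 : ∫ ω, (1 - σ * XX {0, 1} (smp X h ω)) ∂P
      ≤ ∫ ω, 2 * D.indicator (fun _ => (1 : ℝ)) ω ∂P := by
    refine integral_mono_ae ((integrable_const _).sub (hi.const_mul _))
      (((integrable_const _).indicator hmD).const_mul 2) ?_
    filter_upwards [hX.hard] with ω hω
    have hx : XX {0, 1} (smp X h ω)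
        = (if X 0 ω then (1 : ℝ) else -1) * (if X h ω then (1 : ℝ) else -1) := by
      unfold XX xx smp
      rw [Finset.prod_pair (by decide)]
      simp
    rw [hx]
    by_cases hDω : ω ∈ D
    · rw [Set.indicator_of_mem hDω]
      have hσ' : σ = 1 ∨ σ = -1 := by rw [hσ]; exact neg_one_pow_eq_or ℝ h
      rcases hσ' with h6 | h6 <;> rw [h6] <;> cases X 0 ω <;> cases X h ω <;> norm_num
    · rw [Set.indicator_of_notMem hDω]
      have halt := AllK.alt (k := h - 1) (X := X) ω (fun n hn hcon => by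
        refine hDω (Set.mem_biUnion (x := n) ?_ hcon)
        rw [Finset.mem_range] at hn
        exact Finset.mem_coe.2 (Finset.mem_range.2 (by omega))) hω h (by omega)
      rw [halt, hσ]
      by_cases he : Even h
      · rw [if_pos he, he.neg_one_pow]
        cases X 0 ω <;> norm_num
      · rw [if_neg he, (Nat.not_even_iff_odd.1 he).neg_one_pow]
        cases X 0 ω <;> norm_num
  rw [integral_sub (integrable_const _) (hi.const_mul _), integral_const_mul, integral_const_mul,
    integral_indicator_const _ hmD, ← chi_smp hX] at h2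
  simp only [integral_const, probReal_univ, smul_eq_mul, mul_one] at h2
  linarith

/-- the finite upper bound -/
theorem upperK (hk : 1 ≤ k) (hX : IsHardCore k P X) :
    P.real {ω | X 0 ω = true} ≤ 1 / 2 - (2 - √2) / (2 * (k : ℝ) + 5) := by
  have := hX.prob
  obtain ⟨h, h1, h2⟩ : ∃ h : ℕ, k < 2 * h ∧ 2 * h ≤ k + 2 := ⟨(k + 2) / 2, by omega, by omega⟩
  have hh : 1 ≤ h := by omega
  have hδ : 0 ≤ 1 - 2 * P.real {ω | X 0 ω = true} := by
    rw [← AllK.prob_def hX 0]
    exact measureReal_nonneg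
  have hprob : IsProbabilityMeasure (P.map (smp X h)) :=
    Measure.isProbabilityMeasure_map (measurable_smp hX h).aemeasurable
  obtain ⟨a1, a2⟩ := five (smp_shift hX h) (smp_mul hX h1) (σ := (-1) ^ h)
    (neg_one_pow_eq_or ℝ h) hδ (smp_one hX h)
  have a3 := smp_two hX hh (σ := (-1) ^ h) rfl
  generalize (1 - (-1) ^ h * chi (P.map (smp X h)) {0, 1} : ℝ) = u at a1 a2 a3
  have hp : P.real {ω | X 0 ω = true} = (1 - (1 - 2 * P.real {ω | X 0 ω = true})) / 2 := by ring
  rw [hp]
  generalize (1 - 2 * P.real {ω | X 0 ω = true} : ℝ) = δ at hδ a2 a3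
  have h2' : (2 * h : ℝ) ≤ k + 2 := by exact_mod_cast h2
  have hk' : (1 : ℝ) ≤ k := by exact_mod_cast hk
  have a4 : u ≤ (k + 2) * δ := by nlinarith
  have hs2 : √2 ^ 2 = 2 := Real.sq_sqrt (by norm_num)
  have hs0 : 1.414 < √2 := by rw [Real.lt_sqrt (by norm_num)]; norm_num
  have hs1 : √2 < 1.4143 := by rw [Real.sqrt_lt' (by norm_num)]; norm_num
  by_contra hcon
  rw [not_le] at hcon
  have b1 : δ < 2 * ((2 - √2) / (2 * (k : ℝ) + 5)) := by linarith
  have hpos : (0 : ℝ) < 2 * (k : ℝ) + 5 := by positivity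
  have b2 : δ * (2 * (k : ℝ) + 5) < 2 * (2 - √2) := by
    have := mul_lt_mul_of_pos_right b1 hpos
    rwa [mul_assoc 2, div_mul_cancel₀ _ hpos.ne'] at this
  have b3 : δ < 0.17 := by nlinarith
  have b4 : u < 2 - √2 - δ / 2 := by nlinarith
  have b5 : -2 + 4 * u - u ^ 2 + 2 * δ ^ 2 + 2 * δ * u
      < -2 + 4 * (2 - √2 - δ / 2) - (2 - √2 - δ / 2) ^ 2 + 2 * δ ^ 2
        + 2 * δ * (2 - √2 - δ / 2) := by
    have : 0 < ((2 - √2 - δ / 2) - u) * (4 - u - (2 - √2 - δ / 2) + 2 * δ) :=
      mul_pos (by linarith) (by linarith)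
    nlinarith
  have b6 : -2 + 4 * (2 - √2 - δ / 2) - (2 - √2 - δ / 2) ^ 2 + 2 * δ ^ 2
        + 2 * δ * (2 - √2 - δ / 2) ≤ 0 := by
    have : -2 + 4 * (2 - √2 - δ / 2) - (2 - √2 - δ / 2) ^ 2 + 2 * δ ^ 2
        + 2 * δ * (2 - √2 - δ / 2) = -(δ * (3 * √2 - 4 - 3 / 4 * δ)) := by
      linear_combination (-1 : ℝ) * hs2
    rw [this]
    have : 0 ≤ δ * (3 * √2 - 4 - 3 / 4 * δ) := mul_nonneg hδ (by linarith)
    linarith
  linarith

end Sample

end HC38bc51.HC
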