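import Mathlib
import Pool.Agent.Work.MP_38bc51_pr.HC.Final
import Pool.Agent.Work.MP_38bc51_pr.HC.Limit
import Pool.Agent.Work.MP_38bc51_pr.HC.UpperK

/-!
# Assembly
-/

namespace HC38bc51.HC

open MeasureTheory ProbabilityTheory Filter

theorem pcrit_upper {k : ℕ} (hk : 1 ≤ k) : pcrit k ≤ 1 / 2 - (2 - √2) / (2 * (k : ℝ) + 5) := by
  refine csSup_le (dens_nonempty k) ?_
  rintro p ⟨Ω, i, P, X, h, rfl⟩
  exact upperK hk h

theorem main :
    (∀ k : ℕ, 2 ≤ k → (k : ℝ) / (2 * ((k : ℝ) + 1)) < pcrit k) ∧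
    (∀ k : ℕ, 2 ≤ k → Even k → 1 / 2 - (3 - 2 / √3) / (4 * ((k : ℝ) + 1)) ≤ pcrit k) ∧
    (∀ k : ℕ, 2 ≤ k → Odd k →
      1 / 2 - (3 - 2 / √3 + 2 / (3 * √3 * k)) / (4 * ((k : ℝ) + 1)) ≤ pcrit k) ∧
    (∀ k : ℕ, 1 ≤ k → pcrit k ≤ 1 / 2 - (2 - √2) / (2 * (k : ℝ) + 5)) ∧
    ∃ L : ℝ, Tendsto (fun k : ℕ => 2 * (k : ℝ) * (1 / 2 - pcrit k)) atTop (nhds L) ∧
      (∀ k : ℕ, 1 ≤ k → 1 / 2 - L / (2 * (k : ℝ)) ≤ pcrit k) ∧ 2 - √2 ≤ L ∧
      L ≤ 3 / 2 - 1 / √3 := by
  refine ⟨fun k hk => pcrit_gt hk, ?_, ?_, fun k hk => pcrit_upper hk, ?_⟩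
  · rintro k hk ⟨h, hh⟩
    obtain rfl : k = 2 * h := by omega
    exact even_case (h := h) (by omega)
  · rintro k hk ⟨h, rfl⟩
    exact odd_case (h := h) (by omega)
  · obtain ⟨L, hL, hle, -⟩ := limit
    refine ⟨L, hL, ?_, ?_, ?_⟩
    · intro k hk
      have hk0 : (0 : ℝ) < k := by exact_mod_cast hk
      have h1 := hle k hk
      have h2 : 1 / 2 - pcrit k ≤ L / (2 * (k : ℝ)) := by
        rw [le_div_iff₀ (by positivity)]
        linarith
      linarith
    · -- lower bound of the limit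
      have h1 : Tendsto (fun k : ℕ => (2 - √2) * (2 * (k : ℝ) / (2 * (k : ℝ) + 5))) atTop
          (nhds ((2 - √2) * 1)) := by
        refine Tendsto.const_mul _ ?_
        have h2 : Tendsto (fun k : ℕ => 1 - 5 / (2 * (k : ℝ) + 5)) atTop (nhds (1 - 0)) := by
          refine tendsto_const_nhds.sub ?_
          refine Tendsto.div_atTop tendsto_const_nhds ?_
          exact tendsto_atTop_add_const_right _ _
            (tendsto_natCast_atTop_atTop.const_mul_atTop (by norm_num))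
        rw [sub_zero] at h2
        refine h2.congr fun k => ?_
        have : (2 * (k : ℝ) + 5) ≠ 0 := by positivity
        field_simp
        ring
      rw [mul_one] at h1
      refine le_of_tendsto_of_tendsto h1 hL ?_
      filter_upwards [eventually_ge_atTop 1] with k hk
      have h2 := pcrit_upper hk
      have h3 : (2 - √2) / (2 * (k : ℝ) + 5) ≤ 1 / 2 - pcrit k := by linarith
      have h4 : (0 : ℝ) ≤ 2 * k := by positivity
      calc (2 - √2) * (2 * (k : ℝ) / (2 * (k : ℝ) + 5))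
          = 2 * k * ((2 - √2) / (2 * (k : ℝ) + 5)) := by ring
        _ ≤ 2 * k * (1 / 2 - pcrit k) := mul_le_mul_of_nonneg_left h3 h4
    · -- upper bound of the limit
      have h1 : Tendsto (fun h : ℕ => 2 * ((2 * h : ℕ) : ℝ) * (1 / 2 - pcrit (2 * h))) atTop
          (nhds L) := by
        have h2 : Tendsto (fun h : ℕ => 2 * h) atTop atTop :=
          tendsto_id.const_mul_atTop' (by norm_num)
        exact hL.comp h2
      refine le_of_tendsto h1 ?_
      filter_upwards [eventually_ge_atTop 1] with h hh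
      have h2 := even_case hh
      have h3 : 1 / 2 - pcrit (2 * h) ≤ (3 - 2 / √3) / (4 * ((2 * h : ℕ) + 1)) := by linarith
      have h4 : (0 : ℝ) ≤ 2 * ((2 * h : ℕ) : ℝ) := by positivity
      refine (mul_le_mul_of_nonneg_left h3 h4).trans ?_
      obtain ⟨b1, b2⟩ := sqrt3_bounds
      have h5 : (0 : ℝ) < √3 := by positivity
      have h6 : 2 / √3 ≤ 2 := by
        rw [div_le_iff₀ h5]
        linarith
      have h7 : 0 ≤ 3 - 2 / √3 := by linarith
      have h8 : 2 * ((2 * h : ℕ) : ℝ) * ((3 - 2 / √3) / (4 * ((2 * h : ℕ) + 1)))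
          = (3 - 2 / √3) / 2 * (((2 * h : ℕ) : ℝ) / ((2 * h : ℕ) + 1)) := by
        have : (((2 * h : ℕ) : ℝ) + 1) ≠ 0 := by positivity
        field_simp
        ring
      rw [h8]
      have h9 : ((2 * h : ℕ) : ℝ) / ((2 * h : ℕ) + 1) ≤ 1 := by
        rw [div_le_one (by positivity)]
        linarith
      calc (3 - 2 / √3) / 2 * (((2 * h : ℕ) : ℝ) / ((2 * h : ℕ) + 1))
          ≤ (3 - 2 / √3) / 2 * 1 := mul_le_mul_of_nonneg_left h9 (by linarith)
        _ = 3 / 2 - 1 / √3 := by ring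

end HC38bc51.HC
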